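import Pool.Agent.H.MP_4bcbbd_co.X.Defs

/-!
MP_4bcbbd_co, exponential gap: points in general position.
-/

set_option autoImplicit false

namespace Pool.Agent.H.MP_4bcbbd_co.X

open scoped BigOperators

/-- extension of the coefficients by zero -/
theorem Gp_extend {ι κ : Type} [Fintype ι] [Fintype κ] {d : ℕ} (y : ι → E d) {f : κ → ι}
    (hf : Function.Injective f) (z : κ → ℝ) :
    ∑ j, (Function.extend f z 0 : ι → ℝ) j • y j = ∑ i, z i • y (f i) := by
  symm
  refine Fintype.sum_of_injective f hf _ _ (fun j hj => ?_) (fun i => ?_)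
  · rw [Function.extend_apply' _ _ _ (fun h => hj h)]
    exact zero_smul ℝ _
  · rw [hf.extend_apply]

/-- PROOF: push a relation of `y ∘ f` forward: `z' j = ∑ over i with f i = j of z i` (or by
cases `if h : ∃ i, f i = j then z h.choose else 0`), `T' = T.map f`. -/
theorem GP.comp {ι κ : Type} [Fintype ι] [Fintype κ] {d : ℕ} {y : ι → E d} (hy : GP y)
    (f : κ → ι) (hf : Function.Injective f) : GP (y ∘ f) := by
  classical
  intro z hz T hT hoff i
  have h1 : ∑ j, (Function.extend f z 0 : ι → ℝ) j • y j = 0 := by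
    rw [Gp_extend y hf z]
    exact hz
  have h2 := hy _ h1 (T.map ⟨f, hf⟩) (by rw [Finset.card_map]; exact hT) ?_ (f i)
  · rwa [hf.extend_apply] at h2
  · intro j hj
    by_cases h : ∃ i, f i = j
    · obtain ⟨i, rfl⟩ := h
      rw [hf.extend_apply]
      refine hoff i fun h => hj ?_
      exact Finset.mem_map.2 ⟨i, h, rfl⟩
    · rw [Function.extend_apply' _ _ _ h]
      rfl

/-- at most `d` of the vectors are linearly independent -/
theorem Gp_li {ι : Type} [Fintype ι] {d : ℕ} {y : ι → E d} (hy : GP y)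
    (T : Finset ι) (hT : T.card ≤ d) : LinearIndependent ℝ (fun i : T => y i) := by
  rw [Fintype.linearIndependent_iff]
  intro g hg i
  have h1 : GP (y ∘ (Subtype.val : T → ι)) := hy.comp _ Subtype.val_injective
  exact h1 g hg Finset.univ (by rw [Finset.card_univ, Fintype.card_coe]; exact hT)
    (fun i hi => absurd (Finset.mem_univ i) hi) i

/-- `d` of the vectors span the space -/
theorem Gp_span {ι : Type} [Fintype ι] {d : ℕ} {y : ι → E d} (hy : GP y)
    (T : Finset ι) (hT : T.card = d) : Submodule.span ℝ (Set.range fun i : T => y i) = ⊤ := by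
  refine (Gp_li hy T hT.le).span_eq_top_of_card_eq_finrank' ?_
  rw [Fintype.card_coe, hT]
  exact finrank_euclideanSpace_fin.symm

/-- PROOF: the span of `{y i : i ∈ T}` has dimension `≤ T.card < d`, hence is proper; take a nonzero
linear functional `φ` vanishing on it (`Submodule.exists_le_ker_of_lt_top`/`exists_le_ker_of_notMem`). If
`φ (y i) = 0` for some `i ∉ T`, then the `d` vectors `y j`, `j ∈ insert i T`, are linearly
independent (from `GP`: extend the coefficients by zero), and they lie in `ker φ`, so they span `E d` and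
`φ = 0`, contradiction. -/
theorem GP.functional {ι : Type} [Fintype ι] [DecidableEq ι] {d : ℕ} {y : ι → E d} (hy : GP y)
    (T : Finset ι) (hT : T.card + 1 = d) :
    ∃ φ : E d →ₗ[ℝ] ℝ, (∀ i ∈ T, φ (y i) = 0) ∧ ∀ i, i ∉ T → φ (y i) ≠ 0 := by
  have hlt : Submodule.span ℝ (Set.range fun i : T => y i) < ⊤ := by
    refine lt_top_iff_ne_top.2 fun h => ?_
    have h1 := finrank_range_le_card (R := ℝ) (b := fun i : T => y i)
    rw [Set.finrank, h, finrank_top, Fintype.card_coe] at h1
    have h2 : Module.finrank ℝ (E d) = d := finrank_euclideanSpace_fin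
    omega
  obtain ⟨φ, hφ, hle⟩ := Submodule.exists_le_ker_of_lt_top _ hlt
  have h0 : ∀ i ∈ T, φ (y i) = 0 := fun i hi =>
    LinearMap.mem_ker.1 (hle (Submodule.subset_span ⟨⟨i, hi⟩, rfl⟩))
  refine ⟨φ, h0, fun i hi hz => hφ ?_⟩
  have hs := Gp_span hy (insert i T) (by rw [Finset.card_insert_of_notMem hi, hT])
  have h3 : (⊤ : Submodule ℝ (E d)) ≤ LinearMap.ker φ := by
    rw [← hs, Submodule.span_le]
    rintro _ ⟨⟨j, hj⟩, rfl⟩
    rcases Finset.mem_insert.1 hj with rfl | hj
    · exact LinearMap.mem_ker.2 hz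
    · exact LinearMap.mem_ker.2 (h0 j hj)
  exact LinearMap.ker_eq_top.1 (top_le_iff.1 h3)

/-- PROOF: the linear map `(T → ℝ) → E d`, `z ↦ ∑ z_i y_i` has a nontrivial kernel
(`LinearMap.ker_ne_bot_of_finrank_lt`, `d < T.card`), extend by zero; if `z_i = 0` for some
`i ∈ T` then `z` is supported on `T.erase i` with `d` elements, so `z = 0` by `GP`. -/
theorem GP.rel {ι : Type} [Fintype ι] [DecidableEq ι] {d : ℕ} {y : ι → E d} (hy : GP y)
    (T : Finset ι) (hT : T.card = d + 1) :
    ∃ z : ι → ℝ, ∑ i, z i • y i = 0 ∧ (∀ i, i ∉ T → z i = 0) ∧ ∀ i ∈ T, z i ≠ 0 := by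
  have hk : LinearMap.ker (Fintype.linearCombination ℝ (fun i : T => y i)) ≠ ⊥ := by
    refine LinearMap.ker_ne_bot_of_finrank_lt ?_
    have h2 : Module.finrank ℝ (E d) = d := finrank_euclideanSpace_fin
    rw [h2, Module.finrank_fintype_fun_eq_card, Fintype.card_coe, hT]
    exact Nat.lt_succ_self d
  obtain ⟨g, hg, hg0⟩ := (Submodule.ne_bot_iff _).1 hk
  have hval : Function.Injective (Subtype.val : T → ι) := Subtype.val_injective
  have h1 : ∑ j, (Function.extend (Subtype.val : T → ι) g 0 : ι → ℝ) j • y j = 0 := by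
    rw [Gp_extend y hval g]
    exact LinearMap.mem_ker.1 hg
  have h2 : ∀ i, i ∉ T → (Function.extend (Subtype.val : T → ι) g 0 : ι → ℝ) i = 0 := by
    intro i hi
    rw [Function.extend_apply' _ _ _ (by rintro ⟨j, rfl⟩; exact hi j.2)]
    rfl
  refine ⟨_, h1, h2, fun i hi hz => hg0 ?_⟩
  have h3 := hy _ h1 (T.erase i) (by rw [Finset.card_erase_of_mem hi, hT]; exact le_refl d)
    (fun j hj => by
      by_cases hji : j = i
      · rw [hji]; exact hz
      · exact h2 j fun h => hj (Finset.mem_erase.2 ⟨hji, h⟩))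
  funext j
  have h4 := h3 j
  rw [hval.extend_apply] at h4
  exact h4

/-- The space of relations of `N ≥ d` vectors in general position has dimension `N - d`.
PROOF: rank-nullity (`LinearMap.finrank_range_add_finrank_ker`) for the linear map `L`; its range is everything because it contains
`d` linearly independent vectors (a subset of `d` indices exists since `d ≤ Fintype.card ι`). -/
theorem GP.finrank_ker {ι : Type} [Fintype ι] [DecidableEq ι] {d : ℕ} {y : ι → E d} (hy : GP y)
    (hd : d ≤ Fintype.card ι) (L : (ι → ℝ) →ₗ[ℝ] E d) (hL : ∀ z, L z = ∑ i, z i • y i) :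
    Module.finrank ℝ (LinearMap.ker L) + d = Fintype.card ι := by
  obtain ⟨T, -, hT⟩ := Finset.exists_subset_card_eq (s := (Finset.univ : Finset ι)) (n := d)
    (by rw [Finset.card_univ]; exact hd)
  have hmem : ∀ i, y i ∈ LinearMap.range L := by
    intro i
    refine ⟨Pi.single i 1, ?_⟩
    rw [hL]
    rw [Finset.sum_eq_single i]
    · rw [Pi.single_eq_same, one_smul]
    · intro j _ hj
      rw [Pi.single_eq_of_ne hj, zero_smul]
    · intro h
      exact absurd (Finset.mem_univ i) h
  have hr : LinearMap.range L = ⊤ := by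
    rw [← top_le_iff, ← Gp_span hy T hT, Submodule.span_le]
    rintro _ ⟨i, rfl⟩
    exact hmem i
  have h1 := L.finrank_range_add_finrank_ker
  have h2 : Module.finrank ℝ (E d) = d := finrank_euclideanSpace_fin
  rw [hr, finrank_top, h2, Module.finrank_fintype_fun_eq_card] at h1
  omega

end Pool.Agent.H.MP_4bcbbd_co.X
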