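import Pool.Agent.H.MP_4bcbbd_co.X.Defs

/-!
MP_4bcbbd_co, exponential gap: existence of points in general position.
-/

set_option autoImplicit false

namespace Pool.Agent.H.MP_4bcbbd_co.X

open scoped BigOperators

/-- a line which is not parallel to a subspace meets it at most once. -/
theorem gpEx_subsingleton {V : Type} [AddCommGroup V] [Module ℝ V] (U : Submodule ℝ V) (a v : V)
    (hv : v ∉ U) : {t : ℝ | a + t • v ∈ U}.Subsingleton := by
  intro t ht t' ht'
  by_contra hne
  have h1 : (a + t • v) - (a + t' • v) ∈ U := U.sub_mem ht ht'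
  have h2 : (a + t • v) - (a + t' • v) = (t - t') • v := by
    rw [sub_smul]
    abel
  rw [h2] at h1
  have h3 := U.smul_mem (t - t')⁻¹ h1
  rw [smul_smul, inv_mul_cancel₀ (sub_ne_zero.2 hne), one_smul] at h3
  exact hv h3

/-- a vector outside finitely many spans of fewer than `d` vectors. -/
theorem gpEx_vector {d n : ℕ} (y : Fin n → E d) :
    ∃ v : E d, ∀ T : Finset (Fin n), T.card < d →
      v ∉ Submodule.span ℝ ((T.image y : Finset (E d)) : Set (E d)) := by
  classical
  let s : Finset (Subspace ℝ (E d)) :=
    ((Finset.univ : Finset (Finset (Fin n))).filter fun T => T.card < d).image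
      fun T => Submodule.span ℝ ((T.image y : Finset (E d)) : Set (E d))
  have hs : ⊤ ∉ s := by
    intro h
    rw [Finset.mem_image] at h
    obtain ⟨T, hT, htop⟩ := h
    rw [Finset.mem_filter] at hT
    have h1 := finrank_span_finset_le_card (R := ℝ) (T.image y)
    have h3 : Module.finrank ℝ (Submodule.span ℝ ((T.image y : Finset (E d)) : Set (E d))) ≤
        (T.image y).card := h1
    rw [show Submodule.span ℝ ((T.image y : Finset (E d)) : Set (E d)) = ⊤ from htop, finrank_top,
      finrank_euclideanSpace_fin] at h3
    have h4 : (T.image y).card ≤ T.card := Finset.card_image_le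
    omega
  have h2 := Subspace.biUnion_ne_univ_of_top_notMem hs
  rw [Set.ne_univ_iff_exists_notMem] at h2
  obtain ⟨v, hv⟩ := h2
  refine ⟨v, fun T hT hvT => hv ?_⟩
  rw [Set.mem_iUnion₂]
  refine ⟨Submodule.span ℝ ((T.image y : Finset (E d)) : Set (E d)), ?_, hvT⟩
  rw [Finset.mem_image]
  exact ⟨T, Finset.mem_filter.mpr ⟨Finset.mem_univ _, hT⟩, rfl⟩

/-- Points in general position near given points.
PROOF. Induction on `n` (`Fin.snoc`, `Fin.sum_univ_castSucc`). Given `y' : Fin n → E d` in general position near
`x ∘ castSucc`, there are finitely many proper subspaces `span {y'_i : i ∈ T}`, `T.card < d`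
(`finrank_span_finset_le_card`, as in `exists_generic` in `LP.lean`);
`Subspace.biUnion_ne_univ_of_top_notMem` gives a vector `v` in none of them. For each subspace
`U` there is at most one real `t` with `x_n + t • v ∈ U`; so some `t ∈ (0, δ / (‖v‖ + 1))` avoids
all (`Set.Ioo_infinite`, finite set removed). Put `y = snoc y' (x_n + t • v)`. General position:
let `∑ z_i y_i = 0`, `z = 0` off `T`, `T.card ≤ d`. If `z_n = 0` it is a relation of `y'`
supported on the `castSucc`-preimage of `T` (card `≤ d`), so `z = 0`. If `z_n ≠ 0` then `n ∈ T` and `y_n` lies in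
the span of the `y'_i`, `castSucc i ∈ T`, fewer than `d` points: contradiction. -/
theorem exists_gp {d n : ℕ} (x : Fin n → E d) (δ : ℝ) (hδ : 0 < δ) :
    ∃ y : Fin n → E d, (∀ i, ‖y i - x i‖ < δ) ∧ GP y := by
  classical
  induction n with
  | zero => exact ⟨x, fun i => i.elim0, fun z _ T _ _ i => i.elim0⟩
  | succ n ih =>
    obtain ⟨y', hy', hgp⟩ := ih fun i => x i.castSucc
    obtain ⟨v, hv⟩ := gpEx_vector y'
    have hfin : (⋃ T ∈ ((Finset.univ : Finset (Finset (Fin n))).filter fun T => T.card < d),
        {t : ℝ | x (Fin.last n) + t • v ∈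
          Submodule.span ℝ ((T.image y' : Finset (E d)) : Set (E d))}).Finite := by
      refine Set.Finite.biUnion (Finset.finite_toSet _) fun T hT => ?_
      exact (gpEx_subsingleton _ _ _ (hv T (Finset.mem_filter.1 hT).2)).finite
    have hv0 : 0 < ‖v‖ + 1 := by positivity
    have hlt : (0 : ℝ) < δ / (‖v‖ + 1) := div_pos hδ hv0
    obtain ⟨t, ⟨ht1, ht2⟩, ht3⟩ := ((Set.Ioo_infinite hlt).sdiff hfin).nonempty
    have ht4 : ∀ T : Finset (Fin n), T.card < d → x (Fin.last n) + t • v ∉
        Submodule.span ℝ ((T.image y' : Finset (E d)) : Set (E d)) := by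
      intro T hT hmem
      refine ht3 ?_
      rw [Set.mem_iUnion₂]
      exact ⟨T, Finset.mem_filter.2 ⟨Finset.mem_univ _, hT⟩, hmem⟩
    refine ⟨Fin.snoc (α := fun _ => E d) y' (x (Fin.last n) + t • v), fun i => ?_, ?_⟩
    · refine Fin.lastCases ?_ (fun i => ?_) i
      · rw [Fin.snoc_last, add_sub_cancel_left, norm_smul, Real.norm_eq_abs, abs_of_pos ht1]
        have h1 : t * (‖v‖ + 1) < δ := (lt_div_iff₀ hv0).1 ht2
        nlinarith
      · rw [Fin.snoc_castSucc]
        exact hy' i
    · intro z hz T hT hoff
      rw [Fin.sum_univ_castSucc] at hz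
      simp only [Fin.snoc_castSucc, Fin.snoc_last] at hz
      have hinj : Function.Injective (Fin.castSucc : Fin n → Fin (n + 1)) :=
        Fin.castSucc_injective n
      have hoff' : ∀ i : Fin n,
          i ∉ (Finset.univ.filter fun i : Fin n => i.castSucc ∈ T) → z i.castSucc = 0 := by
        intro i hi
        refine hoff _ fun h => hi ?_
        exact Finset.mem_filter.2 ⟨Finset.mem_univ _, h⟩
      by_cases hzn : z (Fin.last n) = 0
      · have hcard : (Finset.univ.filter fun i : Fin n => i.castSucc ∈ T).card ≤ T.card := by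
          rw [← Finset.card_image_of_injective _ hinj]
          refine Finset.card_le_card fun j hj => ?_
          obtain ⟨i, hi, rfl⟩ := Finset.mem_image.1 hj
          exact (Finset.mem_filter.1 hi).2
        rw [hzn, zero_smul, add_zero] at hz
        have h1 := hgp (fun i => z i.castSucc) hz _ (hcard.trans hT) hoff'
        intro i
        refine Fin.lastCases ?_ (fun i => ?_) i
        · exact hzn
        · exact h1 i
      · exfalso
        have hn : Fin.last n ∈ T := by
          by_contra h
          exact hzn (hoff _ h)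
        have hcard : (Finset.univ.filter fun i : Fin n => i.castSucc ∈ T).card ≤
            (T.erase (Fin.last n)).card := by
          rw [← Finset.card_image_of_injective _ hinj]
          refine Finset.card_le_card fun j hj => ?_
          obtain ⟨i, hi, rfl⟩ := Finset.mem_image.1 hj
          exact Finset.mem_erase.2 ⟨(Fin.castSucc_lt_last i).ne, (Finset.mem_filter.1 hi).2⟩
        rw [Finset.card_erase_of_mem hn] at hcard
        have hpos : 0 < T.card := Finset.card_pos.2 ⟨_, hn⟩
        have hsum : ∑ i : Fin n, z i.castSucc • y' i ∈ Submodule.span ℝ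
            (((Finset.univ.filter fun i : Fin n => i.castSucc ∈ T).image y' : Finset (E d)) :
              Set (E d)) := by
          refine Submodule.sum_mem _ fun i _ => ?_
          by_cases hi : i ∈ (Finset.univ.filter fun i : Fin n => i.castSucc ∈ T)
          · refine Submodule.smul_mem _ _ (Submodule.subset_span ?_)
            exact Finset.mem_coe.2 (Finset.mem_image_of_mem _ hi)
          · rw [hoff' i hi, zero_smul]
            exact Submodule.zero_mem _
        refine ht4 (Finset.univ.filter fun i : Fin n => i.castSucc ∈ T) (by omega) ?_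
        have h1 : x (Fin.last n) + t • v =
            (-(z (Fin.last n))⁻¹) • ∑ i : Fin n, z i.castSucc • y' i := by
          have h2 : ∑ i : Fin n, z i.castSucc • y' i =
              -(z (Fin.last n) • (x (Fin.last n) + t • v)) := eq_neg_of_add_eq_zero_left hz
          rw [h2, smul_neg, neg_smul, neg_neg, smul_smul, inv_mul_cancel₀ hzn, one_smul]
        rw [h1]
        exact Submodule.smul_mem _ _ hsum

end Pool.Agent.H.MP_4bcbbd_co.X
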