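import Mathlib

/-!
MP_4bcbbd_co, exponential gap: the path Ramsey lemma for systems of pairs.
-/

set_option autoImplicit false

namespace Pool.Agent.H.MP_4bcbbd_co.X

/-- Product path Ramsey lemma. PROOF. Induction on `m` (`m = 0`: `t = 1`, nothing to show,
`p = q = r = Fin.elim0`). Step `m + 1`: let `t₀` be the number for `m` (and `K`). Colour a pair
`x < y` of naturals `< T` by the FUNCTION
`F x y : (Fin m → Fin t₀ × Fin t₀) → K`,
`F x y X = f (Fin.snoc (fun a => ((X a).1.val, (X a).2.val)) (x, y))` (or `Fin.cons`), a finite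
type of colours. Let `T` be larger than the number of sets of such colours, and than `t₀`. For `y : Fin T` put
`Z y = {F x y : x < y}`. If there were no `x < y < z < T` with `F x y = F y z` then `Z` would be
injective: for `y < z`, `F y z ∈ Z z`, and `F y z ∉ Z y`. Pigeonhole contradiction.
So get `x < y < z < T` with `F x y = F y z`. Apply the induction hypothesis to
`f' X = f (Fin.snoc X (x, y))`: `p, q, r : Fin m → ℕ` with values `< t₀`. Take
`Fin.snoc p x, Fin.snoc q y, Fin.snoc r z`. -/
theorem path_ramsey (m : ℕ) (K : Type) [Finite K] : ∃ t : ℕ, 0 < t ∧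
    ∀ f : (Fin m → ℕ × ℕ) → K, ∃ p q r : Fin m → ℕ, (∀ a, p a < q a ∧ q a < r a ∧ r a < t) ∧
      ∀ a, f (fun b => (p b, q b)) = f (Function.update (fun b => (p b, q b)) a (q a, r a)) := by
  induction m with
  | zero =>
    exact ⟨1, Nat.one_pos, fun f => ⟨Fin.elim0, Fin.elim0, Fin.elim0, fun a => a.elim0,
      fun a => a.elim0⟩⟩
  | succ m ih =>
    obtain ⟨t₀, ht₀, ih⟩ := ih
    let C : Type := (Fin m → Fin t₀ × Fin t₀) → K
    have hC : Finite C := inferInstance
    have hSC : Finite (Set C) := inferInstance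
    refine ⟨max t₀ (Nat.card (Set C) + 1), lt_of_lt_of_le ht₀ (le_max_left _ _), fun f => ?_⟩
    set T := max t₀ (Nat.card (Set C) + 1) with hT
    let F : ℕ → ℕ → C := fun x y X =>
      f (Fin.snoc (α := fun _ => ℕ × ℕ) (fun a => (((X a).1 : ℕ), ((X a).2 : ℕ))) (x, y))
    obtain ⟨x, y, z, hxy, hyz, hzT, hF⟩ : ∃ x y z : ℕ, x < y ∧ y < z ∧ z < T ∧ F x y = F y z := by
      by_contra hcon
      push Not at hcon
      let Z : Fin T → Set C := fun y => {c | ∃ x : ℕ, x < (y : ℕ) ∧ c = F x y}
      have hZ : ∀ y z : Fin T, y < z → Z y ≠ Z z := by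
        intro y z hyz he
        have h1 : F y z ∈ Z z := ⟨y, hyz, rfl⟩
        rw [← he] at h1
        obtain ⟨x, hx, h2⟩ := h1
        exact hcon x y z hx hyz z.2 h2.symm
      have hinj : Function.Injective Z := by
        intro y z he
        by_contra hne
        rcases lt_or_gt_of_ne hne with h | h
        · exact hZ y z h he
        · exact hZ z y h he.symm
      have hcard := Nat.card_le_card_of_injective Z hinj
      rw [Nat.card_fin] at hcard
      have h3 : Nat.card (Set C) + 1 ≤ T := le_max_right _ _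
      omega
    obtain ⟨p, q, r, hpqr, hf⟩ := ih fun X => f (Fin.snoc (α := fun _ => ℕ × ℕ) X (x, y))
    have hle : t₀ ≤ T := le_max_left _ _
    have hfun : ∀ (u v : ℕ), (fun b : Fin (m + 1) =>
        ((Fin.snoc (α := fun _ => ℕ) p u b : ℕ), (Fin.snoc (α := fun _ => ℕ) q v b : ℕ))) =
        Fin.snoc (α := fun _ => ℕ × ℕ) (fun b => (p b, q b)) (u, v) := by
      intro u v
      funext b
      refine Fin.lastCases ?_ (fun b => ?_) b
      · simp only [Fin.snoc_last]
      · simp only [Fin.snoc_castSucc]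
    refine ⟨Fin.snoc (α := fun _ => ℕ) p x, Fin.snoc (α := fun _ => ℕ) q y,
      Fin.snoc (α := fun _ => ℕ) r z, fun a => ?_, fun a => ?_⟩
    · refine Fin.lastCases ?_ (fun a => ?_) a
      · simp only [Fin.snoc_last]
        exact ⟨hxy, hyz, hzT⟩
      · simp only [Fin.snoc_castSucc]
        exact ⟨(hpqr a).1, (hpqr a).2.1, lt_of_lt_of_le (hpqr a).2.2 hle⟩
    · rw [hfun]
      refine Fin.lastCases ?_ (fun a => ?_) a
      · simp only [Fin.snoc_last]
        rw [Fin.update_snoc_last]
        have h4 := congrFun hF fun a => (⟨p a, by have := hpqr a; omega⟩,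
          ⟨q a, by have := hpqr a; omega⟩)
        exact h4
      · simp only [Fin.snoc_castSucc]
        rw [← Fin.snoc_update]
        exact hf a

end Pool.Agent.H.MP_4bcbbd_co.X
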