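import Pool.Agent.H.MP_4bcbbd_co.X.Cher1

/-!
MP_4bcbbd_co, exponential gap: a Chernoff bound for random subsets.
-/

set_option autoImplicit false

namespace Pool.Agent.H.MP_4bcbbd_co.X

open scoped BigOperators

/-- PROOF. `X = Finset.univ`, `f j = exp (ℓ j)`: `∏_{j ∈ J} f j = exp (∑_J ℓ)` (`Real.exp_sum`). Markov:
`card(filter) * exp (7 s/100) ≤ ∑_J exp (∑_J ℓ) ≤ (∑_j exp (ℓ j))^s / s!` (`esymm_le`), and
`∑_j exp (ℓ j) ≤ (k + s) + 1.72 * 2 s = k + 4.44 s ≤ k (1 + 4.44 s/k) ≤ (k+1) exp (4.44 s / k)` (`exp_le_lin`,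
`Real.add_one_le_exp`). With `choose_ge`:
`(∑ exp)^s / s! ≤ (k+1)^s exp (4.44 s²/k) / s! ≤ exp (4.44 s²/k) C(k+s, s)`. Finally
`4.44 s²/k - 7 s/100 ≤ (0.0444 - 0.07) s ≤ -s/40` because `100 s ≤ k`. -/
theorem chernoff {k s : ℕ} (hk : 1 ≤ k) (h : 100 * s ≤ k)
    (ℓ : Fin (k + s) → ℝ) (h01 : ∀ j, 0 ≤ ℓ j ∧ ℓ j ≤ 1) (hsum : ∑ j, ℓ j ≤ 2 * s) :
    (((Finset.powersetCard s Finset.univ).filter fun J : Finset (Fin (k + s)) =>
      7 / 100 * (s : ℝ) < ∑ j ∈ J, ℓ j).card : ℝ) ≤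
      Real.exp (-(s : ℝ) / 40) * ((k + s).choose s : ℝ) := by
  have hk0 : (0 : ℝ) < k := by exact_mod_cast hk
  have hs0 : (0 : ℝ) ≤ s := Nat.cast_nonneg s
  have hsk : 100 * (s : ℝ) ≤ k := by exact_mod_cast h
  have h1 : ∑ j, Real.exp (ℓ j) ≤ (k : ℝ) + 4.44 * s := by
    have h2 : ∑ j, Real.exp (ℓ j) ≤ ∑ j, (1 + 1.72 * ℓ j) :=
      Finset.sum_le_sum fun j _ => exp_le_lin (h01 j).1 (h01 j).2
    rw [Finset.sum_add_distrib, ← Finset.mul_sum, Finset.sum_const, Finset.card_univ,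
      Fintype.card_fin, nsmul_eq_mul, mul_one] at h2
    push_cast at h2
    linarith
  obtain ⟨a, ha⟩ : ∃ a : ℝ, a = 4.44 * s / k := ⟨_, rfl⟩
  have ha0 : 0 ≤ a := by rw [ha]; positivity
  have hak : (k : ℝ) * a = 4.44 * s := by rw [ha]; field_simp
  have has : (s : ℝ) * a ≤ 0.0444 * s := by
    have h2 : (100 * (s : ℝ)) * a ≤ k * a := mul_le_mul_of_nonneg_right hsk ha0
    linarith
  have h2 : (k : ℝ) + 4.44 * s ≤ (k + 1) * Real.exp a := by
    have h3 := Real.add_one_le_exp a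
    have h4 : (k : ℝ) * (a + 1) ≤ k * Real.exp a := mul_le_mul_of_nonneg_left h3 hk0.le
    have h5 := Real.exp_pos a
    linarith
  have hpos : 0 ≤ ∑ j, Real.exp (ℓ j) := Finset.sum_nonneg fun j _ => (Real.exp_pos _).le
  have h3 : (∑ j, Real.exp (ℓ j)) ^ s ≤ ((k : ℝ) + 1) ^ s * Real.exp (s * a) := by
    refine (pow_le_pow_left₀ hpos (h1.trans h2) s).trans (le_of_eq ?_)
    rw [mul_pow, Real.exp_nat_mul]
  have h4 := esymm_le (fun j => Real.exp (ℓ j)) (fun _ => (Real.exp_pos _).le)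
    (Finset.univ : Finset (Fin (k + s))) s
  have h5 : ∑ J ∈ Finset.powersetCard s (Finset.univ : Finset (Fin (k + s))),
      ∏ j ∈ J, Real.exp (ℓ j) ≤ Real.exp (s * a) * ((k + s).choose s : ℝ) := by
    have hf : (0 : ℝ) < s.factorial := by exact_mod_cast Nat.factorial_pos s
    have h6 := choose_ge k s
    have h7 : ((k : ℝ) + 1) ^ s * Real.exp (s * a) ≤
        (s.factorial : ℝ) * ((k + s).choose s : ℝ) * Real.exp (s * a) :=
      mul_le_mul_of_nonneg_right h6 (Real.exp_pos _).le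
    refine le_of_mul_le_mul_left ?_ hf
    calc (s.factorial : ℝ) * ∑ J ∈ Finset.powersetCard s (Finset.univ : Finset (Fin (k + s))),
          ∏ j ∈ J, Real.exp (ℓ j) ≤ (∑ j, Real.exp (ℓ j)) ^ s := h4
      _ ≤ ((k : ℝ) + 1) ^ s * Real.exp (s * a) := h3
      _ ≤ (s.factorial : ℝ) * ((k + s).choose s : ℝ) * Real.exp (s * a) := h7
      _ = (s.factorial : ℝ) * (Real.exp (s * a) * ((k + s).choose s : ℝ)) := by ring
  have h6 : (((Finset.powersetCard s Finset.univ).filter fun J : Finset (Fin (k + s)) =>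
      7 / 100 * (s : ℝ) < ∑ j ∈ J, ℓ j).card : ℝ) * Real.exp (7 / 100 * s) ≤
      ∑ J ∈ Finset.powersetCard s (Finset.univ : Finset (Fin (k + s))),
        ∏ j ∈ J, Real.exp (ℓ j) := by
    rw [← nsmul_eq_mul, ← Finset.sum_const]
    refine (Finset.sum_le_sum fun J hJ => ?_).trans
      (Finset.sum_le_sum_of_subset_of_nonneg (Finset.filter_subset _ _) fun J _ _ =>
        Finset.prod_nonneg fun j _ => (Real.exp_pos _).le)
    rw [← Real.exp_sum]
    exact Real.exp_le_exp.2 (Finset.mem_filter.1 hJ).2.le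
  have h7 := h6.trans h5
  have hC : (0 : ℝ) ≤ ((k + s).choose s : ℝ) := Nat.cast_nonneg _
  have hE := Real.exp_pos (7 / 100 * (s : ℝ))
  refine le_of_mul_le_mul_right (h7.trans ?_) hE
  calc Real.exp (s * a) * ((k + s).choose s : ℝ)
      ≤ Real.exp (-(s : ℝ) / 40 + 7 / 100 * s) * ((k + s).choose s : ℝ) := by
        refine mul_le_mul_of_nonneg_right (Real.exp_le_exp.2 ?_) hC
        linarith
    _ = Real.exp (-(s : ℝ) / 40) * ((k + s).choose s : ℝ) * Real.exp (7 / 100 * s) := by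
        rw [Real.exp_add]
        ring

end Pool.Agent.H.MP_4bcbbd_co.X
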