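import Pool.Agent.H.MP_4bcbbd_co.X.PerS
import Pool.Agent.H.MP_4bcbbd_co.X.Cher

/-!
MP_4bcbbd_co, exponential gap: the abstract lemma.
-/

set_option autoImplicit false

namespace Pool.Agent.H.MP_4bcbbd_co.X

open scoped BigOperators

/-- the abstract bound: sum over the sets `S`. -/
theorem abstract_bound {k s : ℕ} (hk : 1 ≤ k) (h : 100 * s ≤ k)
    (Φ : Finset (Finset (Fin (k + s)) × Finset (Fin (k + s))))
    (hΦ : Φ ⊆ pats (k + s) k) (W : Submodule ℝ (EuclideanSpace ℝ (Fin (k + s))))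
    (hW : Module.finrank ℝ W ≤ 2 * s) (hA : Abs k s Φ W) :
    (Φ.card : ℝ) ≤ 2 * Real.exp (-(s : ℝ) / 40) * 2 ^ k * ((k + s).choose k : ℝ) := by
  classical
  obtain ⟨ℓ, hℓ1, hℓ2, hℓ3⟩ := exists_leverage W
  obtain ⟨e, he⟩ : ∃ e : ℝ, e = Real.exp (-(s : ℝ) / 40) := ⟨_, rfl⟩
  have he0 : 0 < e := by rw [he]; exact Real.exp_pos _
  obtain ⟨X, hX⟩ : ∃ X : Finset (Finset (Fin (k + s))), X = Finset.powersetCard k Finset.univ :=
    ⟨_, rfl⟩
  obtain ⟨𝒜, h𝒜⟩ : ∃ 𝒜 : Finset (Fin (k + s)) → Finset (Finset (Fin (k + s))),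
      ∀ S, 𝒜 S = Finset.univ.filter fun A => (S, A) ∈ Φ := ⟨_, fun _ => rfl⟩
  have hmem : ∀ S A, A ∈ 𝒜 S ↔ (S, A) ∈ Φ := by
    intro S A
    rw [h𝒜, Finset.mem_filter]
    simp
  have hcard : Φ.card = ∑ S ∈ X, (𝒜 S).card := by
    rw [Finset.card_eq_sum_card_fiberwise (f := Prod.fst) (t := X)]
    · refine Finset.sum_congr rfl fun S _ => ?_
      have h1 : (Φ.filter fun P => P.1 = S) = (𝒜 S).image fun A => (S, A) := by
        ext ⟨S', A⟩
        rw [Finset.mem_filter, Finset.mem_image]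
        constructor
        · rintro ⟨h2, h3⟩
          have h3' : S' = S := h3
          subst h3'
          exact ⟨A, (hmem _ _).2 h2, rfl⟩
        · rintro ⟨A', h2, h3⟩
          have h4 := Prod.mk.inj h3
          obtain ⟨rfl, rfl⟩ := h4
          exact ⟨(hmem _ _).1 h2, rfl⟩
      rw [h1, Finset.card_image_of_injective _ (fun A B hAB => (Prod.mk.inj hAB).2)]
    · intro P hP
      have h1 := mem_pats.1 (hΦ hP)
      rw [hX]
      exact Finset.mem_coe.2 (Finset.mem_powersetCard.2 ⟨Finset.subset_univ _, h1.1⟩)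
  obtain ⟨bad, hbad⟩ : ∃ bad : Finset (Finset (Fin (k + s))),
      bad = X.filter fun S => 7 / 100 * (s : ℝ) < ∑ a ∈ Sᶜ, ℓ a := ⟨_, rfl⟩
  have hcompl : ∀ S ∈ X, Sᶜ.card = s := by
    intro S hS
    rw [hX, Finset.mem_powersetCard] at hS
    rw [Finset.card_compl, Fintype.card_fin, hS.2]
    omega
  have hch : ((k + s).choose s : ℝ) = ((k + s).choose k : ℝ) := by
    rw [Nat.choose_symm_add]
  have hbadc : (bad.card : ℝ) ≤ e * ((k + s).choose k : ℝ) := by
    have h1 : bad.card ≤ ((Finset.powersetCard s Finset.univ).filter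
        fun J : Finset (Fin (k + s)) => 7 / 100 * (s : ℝ) < ∑ j ∈ J, ℓ j).card := by
      refine Finset.card_le_card_of_injOn (fun S => Sᶜ) ?_ ?_
      · intro S hS
        have hS' : S ∈ bad := hS
        rw [hbad, Finset.mem_filter] at hS'
        exact Finset.mem_coe.2 (Finset.mem_filter.2 ⟨Finset.mem_powersetCard.2
          ⟨Finset.subset_univ _, hcompl S hS'.1⟩, hS'.2⟩)
      · intro S _ T _ hST
        exact compl_injective hST
    have h2 : ∑ j, ℓ j ≤ 2 * s := by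
      rw [hℓ2]
      exact_mod_cast hW
    have h3 := chernoff hk h ℓ hℓ1 h2
    rw [← he, hch] at h3
    exact (Nat.cast_le.2 h1).trans h3
  have hterm : ∀ S ∈ X, ((𝒜 S).card : ℝ) ≤ (if S ∈ bad then (2 : ℝ) ^ k else 0) + 2 ^ k * e := by
    intro S hS
    have hSc : S.card = k := by
      rw [hX, Finset.mem_powersetCard] at hS
      exact hS.2
    by_cases hb : S ∈ bad
    · rw [if_pos hb]
      have h1 : 𝒜 S ⊆ S.powerset := by
        intro A hAS
        exact Finset.mem_powerset.2 (mem_pats.1 (hΦ ((hmem _ _).1 hAS))).2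
      have h2 := Finset.card_le_card h1
      rw [Finset.card_powerset, hSc] at h2
      have h3 : ((𝒜 S).card : ℝ) ≤ 2 ^ k := by exact_mod_cast h2
      have h4 : (0 : ℝ) ≤ 2 ^ k * e := by positivity
      linarith
    · rw [if_neg hb, zero_add]
      obtain ⟨U, hU1, hU2, hU3⟩ := hA S hSc
      have h1 : ∑ a ∈ Sᶜ, ℓ a ≤ 7 / 100 * s := by
        by_contra hcon
        push Not at hcon
        apply hb
        rw [hbad]
        exact Finset.mem_filter.2 ⟨hS, hcon⟩
      have h2 := perS W ℓ hℓ3 S (hcompl S hS) U hU1 hU2 (𝒜 S) (fun A hAS =>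
        ⟨(mem_pats.1 (hΦ ((hmem _ _).1 hAS))).2, fun w hw => hU3 w hw A ((hmem _ _).1 hAS)⟩) h1
      rw [hSc, ← he] at h2
      exact h2
  have hXc : (X.card : ℝ) = ((k + s).choose k : ℝ) := by
    rw [hX, Finset.card_powersetCard, Finset.card_univ, Fintype.card_fin]
  have hsum : (Φ.card : ℝ) ≤ ∑ S ∈ X, ((if S ∈ bad then (2 : ℝ) ^ k else 0) + 2 ^ k * e) := by
    rw [hcard, Nat.cast_sum]
    exact Finset.sum_le_sum hterm
  have hsub : X.filter (fun S => S ∈ bad) = bad := by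
    ext S
    rw [Finset.mem_filter]
    constructor
    · exact fun h => h.2
    · intro h1
      refine ⟨?_, h1⟩
      rw [hbad] at h1
      exact (Finset.mem_filter.1 h1).1
  rw [Finset.sum_add_distrib, ← Finset.sum_filter, hsub, Finset.sum_const, Finset.sum_const,
    nsmul_eq_mul, nsmul_eq_mul, hXc] at hsum
  rw [← he]
  have h5 : (bad.card : ℝ) * 2 ^ k ≤ e * ((k + s).choose k : ℝ) * 2 ^ k :=
    mul_le_mul_of_nonneg_right hbadc (by positivity)
  calc (Φ.card : ℝ) ≤ (bad.card : ℝ) * 2 ^ k + ((k + s).choose k : ℝ) * (2 ^ k * e) := hsum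
    _ ≤ e * ((k + s).choose k : ℝ) * 2 ^ k + ((k + s).choose k : ℝ) * (2 ^ k * e) := by linarith
    _ = _ := by ring

end Pool.Agent.H.MP_4bcbbd_co.X
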