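import Pool.Agent.H.MP_4bcbbd_co.X.Avg1

/-!
MP_4bcbbd_co, exponential gap: a dense pattern which occurs with positive density.
-/

set_option autoImplicit false

namespace Pool.Agent.H.MP_4bcbbd_co.X

open scoped BigOperators

/-- PROOF. For `M ∈ powersetCard m univ` let `τ_M : Fin m → Fin n` be the increasing enumeration
(`Finset.orderEmbOfFin M h`, range `= M`), and `Φ_M = pull k 𝓕 τ_M`, so
`|Φ_M| = #{P ∈ 𝓕 : P.1 ⊆ M}` (`card_pull`). Double counting (`Finset.sum_card_bipartiteAbove_eq...`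
or `Finset.sum_comm`) and `card_super`: `∑_M |Φ_M| = |𝓕| C(n-k, m-k)`, and
`C(n,k) C(n-k,m-k) = C(n,m) C(m,k)` (`Nat.choose_mul`). With `D = 2^k C(m,k) = (pats m k).card`,
`|𝓕| > θ' 2^k C(n,k)` gives `∑_M |Φ_M| > θ' D C(n,m)` (if `n ≥ m`, so that the binomials are positive).
Let `X` be the set of `M` with `|Φ_M| > θ D`. As `|Φ_M| ≤ D`:
`θ' D C(n,m) < |X| D + θ D C(n,m)`, so `|X| ≥ (θ' - θ) C(n,m)`. By the pigeonhole principle
(`Φ_M` takes at most `L = 2^{|pats m k|}` values, `(pats m k).powerset`), some `Φ` with `|Φ| > θ D` equals `Φ_M` for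
at least `(θ' - θ) C(n,m) / L` sets `M`. `T` = the set of these `τ_M` (the map `M ↦ τ_M` is
injective since the range of `τ_M` is `M`). Finally `C(n,m) ≥ (n/m)^m` (`Nat.pow_le_choose`) or `≥ n^m/(2^m m!)` for `n ≥ 2m`, so
`δ = (θ' - θ) / (L * m^m)` (or `/(L 2^m m!)`) works, `N = 2 m + 1`. -/
theorem avg (m k : ℕ) (hkm : k ≤ m) (θ θ' : ℝ) (h0 : 0 ≤ θ) (hθ : θ < θ') :
    ∃ δ : ℝ, 0 < δ ∧ ∃ N : ℕ, ∀ n : ℕ, N ≤ n →
      ∀ 𝓕 : Finset (Finset (Fin n) × Finset (Fin n)), 𝓕 ⊆ pats n k →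
        θ' * 2 ^ k * (n.choose k : ℝ) < (𝓕.card : ℝ) →
        ∃ Φ : Finset (Finset (Fin m) × Finset (Fin m)), Φ ⊆ pats m k ∧
          θ * 2 ^ k * (m.choose k : ℝ) < (Φ.card : ℝ) ∧
          ∃ T : Finset (Fin m → Fin n), δ * (n : ℝ) ^ m ≤ (T.card : ℝ) ∧
            ∀ τ ∈ T, Function.Injective τ ∧ ∀ P ∈ Φ, (P.1.image τ, P.2.image τ) ∈ 𝓕 := by
  classical
  set L : ℝ := (2 : ℝ) ^ (pats m k).card with hL
  have hLpos : 0 < L := by positivity
  have hDpos : (0 : ℝ) < 2 ^ k * (m.choose k : ℝ) := by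
    have := Nat.choose_pos hkm
    positivity
  have hfac : (0 : ℝ) < m.factorial := by exact_mod_cast m.factorial_pos
  have hsub : 0 < θ' - θ := sub_pos.2 hθ
  refine ⟨(θ' - θ) / (L * (2 ^ m * m.factorial)), by positivity, 2 * m + 1, ?_⟩
  intro n hn 𝓕 h𝓕 hcard
  set 𝓜 : Finset (Finset (Fin n)) := Finset.powersetCard m Finset.univ with h𝓜
  have h𝓜card : (𝓜.card : ℝ) = n.choose m := by
    rw [h𝓜, Finset.card_powersetCard, Finset.card_univ, Fintype.card_fin]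
  have hex : ∀ M : Finset (Fin n), ∃ τ : Fin m → Fin n, M ∈ 𝓜 →
      Function.Injective τ ∧ ∀ i, i ∈ M ↔ ∃ a, τ a = i := by
    intro M
    by_cases hM : M ∈ 𝓜
    · have hc : M.card = m := (Finset.mem_powersetCard.1 hM).2
      refine ⟨M.orderEmbOfFin hc, fun _ => ⟨(M.orderEmbOfFin hc).injective, fun i => ?_⟩⟩
      have h1 := Finset.range_orderEmbOfFin M hc
      rw [← Finset.mem_coe, ← h1, Set.mem_range]
    · exact ⟨fun _ => ⟨0, by omega⟩, fun h => absurd h hM⟩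
  choose τ hτ using hex
  have hpc : ∀ M ∈ 𝓜, (pull k 𝓕 (τ M)).card = (𝓕.filter fun P => P.1 ⊆ M).card := fun M hM =>
    card_pull h𝓕 (τ M) (hτ M hM).1 M (hτ M hM).2
  have hle : ∀ M, ((pull k 𝓕 (τ M)).card : ℝ) ≤ 2 ^ k * (m.choose k : ℝ) := by
    intro M
    have h1 : (pull k 𝓕 (τ M)).card ≤ (pats m k).card := Finset.card_filter_le _ _
    rw [card_pats] at h1
    exact_mod_cast h1
  -- double counting
  have hsum : ∑ M ∈ 𝓜, (pull k 𝓕 (τ M)).card = 𝓕.card * (n - k).choose (m - k) := by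
    rw [Finset.sum_congr rfl hpc]
    have h1 : ∑ M ∈ 𝓜, (𝓕.filter fun P => P.1 ⊆ M).card =
        ∑ P ∈ 𝓕, (𝓜.filter fun M => P.1 ⊆ M).card := by
      simp only [Finset.card_filter]
      exact Finset.sum_comm
    rw [h1, Finset.sum_congr rfl (g := fun _ => (n - k).choose (m - k)) ?_, Finset.sum_const,
      smul_eq_mul]
    intro P hP
    exact card_super P.1 (mem_pats.1 (h𝓕 hP)).1 hkm
  have hsumR : ∑ M ∈ 𝓜, ((pull k 𝓕 (τ M)).card : ℝ) =
      (𝓕.card : ℝ) * ((n - k).choose (m - k) : ℝ) := by exact_mod_cast hsum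
  have hch : (n.choose k : ℝ) * ((n - k).choose (m - k) : ℝ) = n.choose m * m.choose k := by
    have h1 := Nat.choose_mul (n := n) hkm
    exact_mod_cast h1.symm
  have hcpos : (0 : ℝ) < ((n - k).choose (m - k) : ℝ) := by
    have : 0 < (n - k).choose (m - k) := Nat.choose_pos (by omega)
    exact_mod_cast this
  have hlow : θ' * (2 ^ k * (m.choose k : ℝ)) * n.choose m <
      ∑ M ∈ 𝓜, ((pull k 𝓕 (τ M)).card : ℝ) := by
    rw [hsumR]
    have h1 := mul_lt_mul_of_pos_right hcard hcpos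
    calc θ' * (2 ^ k * (m.choose k : ℝ)) * n.choose m
        = θ' * 2 ^ k * ((n.choose m : ℝ) * m.choose k) := by ring
      _ = θ' * 2 ^ k * (n.choose k : ℝ) * ((n - k).choose (m - k) : ℝ) := by
          rw [← hch]
          ring
      _ < _ := h1
  set X : Finset (Finset (Fin n)) := 𝓜.filter fun M =>
    θ * (2 ^ k * (m.choose k : ℝ)) < ((pull k 𝓕 (τ M)).card : ℝ) with hX
  have hup : ∑ M ∈ 𝓜, ((pull k 𝓕 (τ M)).card : ℝ) ≤
      X.card * (2 ^ k * (m.choose k : ℝ)) + θ * (2 ^ k * (m.choose k : ℝ)) * n.choose m := by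
    have h1 : ∀ M ∈ 𝓜, ((pull k 𝓕 (τ M)).card : ℝ) ≤
        (if θ * (2 ^ k * (m.choose k : ℝ)) < ((pull k 𝓕 (τ M)).card : ℝ) then
          (2 ^ k * (m.choose k : ℝ)) else 0) + θ * (2 ^ k * (m.choose k : ℝ)) := by
      intro M _
      have h2 : 0 ≤ θ * (2 ^ k * (m.choose k : ℝ)) := mul_nonneg h0 hDpos.le
      split_ifs with h
      · linarith [hle M]
      · linarith [not_lt.1 h]
    refine (Finset.sum_le_sum h1).trans (le_of_eq ?_)
    rw [Finset.sum_add_distrib, ← Finset.sum_filter, Finset.sum_const, Finset.sum_const,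
      nsmul_eq_mul, nsmul_eq_mul, h𝓜card, ← hX]
    ring
  have hXcard : (θ' - θ) * n.choose m < X.card := by
    have h1 : (θ' - θ) * n.choose m * (2 ^ k * (m.choose k : ℝ)) <
        X.card * (2 ^ k * (m.choose k : ℝ)) := by
      have h2 := hlow.trans_le hup
      linarith
    exact lt_of_mul_lt_mul_right h1 hDpos.le
  have hchn : (n : ℝ) ^ m / (2 ^ m * m.factorial) ≤ n.choose m := by
    have h1 : (((n + 1 - m : ℕ) : ℝ) ^ m) / m.factorial ≤ n.choose m := Nat.pow_le_choose m n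
    refine le_trans ?_ h1
    rw [← div_div, ← div_pow]
    refine div_le_div_of_nonneg_right ?_ hfac.le
    refine pow_le_pow_left₀ (by positivity) ?_ m
    have h2 : n ≤ 2 * (n + 1 - m) := by omega
    have h3 : (n : ℝ) ≤ 2 * ((n + 1 - m : ℕ) : ℝ) := by exact_mod_cast h2
    linarith
  have hcn : (0 : ℝ) ≤ n.choose m := Nat.cast_nonneg _
  have hXpos : (0 : ℝ) < X.card := lt_of_le_of_lt (mul_nonneg hsub.le hcn) hXcard
  -- pigeonhole
  obtain ⟨Φ, hΦ, hfib⟩ := Finset.exists_le_card_fiber_of_nsmul_le_card_of_maps_to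
    (s := X) (t := (pats m k).powerset) (f := fun M => pull k 𝓕 (τ M)) (b := (X.card : ℝ) / L)
    (fun M _ => Finset.mem_powerset.2 (Finset.filter_subset _ _)) ⟨∅, Finset.empty_mem_powerset _⟩
    (by
      rw [Finset.card_powerset, nsmul_eq_mul, Nat.cast_pow, Nat.cast_ofNat, ← hL]
      exact (mul_div_cancel₀ _ hLpos.ne').le)
  set Z : Finset (Finset (Fin n)) := X.filter fun M => pull k 𝓕 (τ M) = Φ with hZ
  have hZpos : (0 : ℝ) < Z.card := lt_of_lt_of_le (div_pos hXpos hLpos) hfib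
  refine ⟨Φ, Finset.mem_powerset.1 hΦ, ?_, Z.image τ, ?_, ?_⟩
  · have h1 : 0 < Z.card := by exact_mod_cast hZpos
    obtain ⟨M, hM⟩ := Finset.card_pos.1 h1
    obtain ⟨hMX, hMΦ⟩ := Finset.mem_filter.1 hM
    have h2 := (Finset.mem_filter.1 hMX).2
    rw [hMΦ] at h2
    rw [mul_assoc]
    exact h2
  · have h1 : (Z.image τ).card = Z.card := by
      refine Finset.card_image_of_injOn fun M hM M' hM' h => ?_
      have hM1 := (Finset.mem_filter.1 (Finset.mem_filter.1 hM).1).1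
      have hM1' := (Finset.mem_filter.1 (Finset.mem_filter.1 hM').1).1
      ext i
      rw [(hτ M hM1).2 i, (hτ M' hM1').2 i, h]
    rw [h1]
    refine le_trans ?_ hfib
    calc (θ' - θ) / (L * (2 ^ m * m.factorial)) * (n : ℝ) ^ m
        = (θ' - θ) / L * ((n : ℝ) ^ m / (2 ^ m * m.factorial)) := by
          field_simp
      _ ≤ (θ' - θ) / L * n.choose m :=
          mul_le_mul_of_nonneg_left hchn (div_nonneg hsub.le hLpos.le)
      _ = (θ' - θ) * n.choose m / L := by ring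
      _ ≤ X.card / L := div_le_div_of_nonneg_right hXcard.le hLpos.le
  · intro t ht
    obtain ⟨M, hM, rfl⟩ := Finset.mem_image.1 ht
    obtain ⟨hMX, hMΦ⟩ := Finset.mem_filter.1 hM
    refine ⟨(hτ M (Finset.mem_filter.1 hMX).1).1, fun P hP => ?_⟩
    rw [← hMΦ] at hP
    exact (Finset.mem_filter.1 hP).2

end Pool.Agent.H.MP_4bcbbd_co.X
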