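import Pool.Agent.H.MP_4bcbbd_co.X.Defs

/-!
MP_4bcbbd_co, exponential gap: counting supersets and patterns.
-/

set_option autoImplicit false

namespace Pool.Agent.H.MP_4bcbbd_co.X

open scoped BigOperators

/-- the number of `m`-sets containing a given `k`-set. PROOF: bijection `M ↦ M \ S` with
`powersetCard (m - k) Sᶜ` (`Finset.card_bij` or `card_nbij'`, inverse `R ↦ S ∪ R`). -/
theorem card_super {n m k : ℕ} (S : Finset (Fin n)) (hS : S.card = k) (hkm : k ≤ m) :
    ((Finset.powersetCard m (Finset.univ : Finset (Fin n))).filter fun M => S ⊆ M).card =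
      (n - k).choose (m - k) := by
  classical
  have h1 : (Finset.powersetCard (m - k) Sᶜ).card = (n - k).choose (m - k) := by
    rw [Finset.card_powersetCard, Finset.card_compl, Fintype.card_fin, hS]
  rw [← h1]
  have hdis : ∀ R ∈ Finset.powersetCard (m - k) Sᶜ, Disjoint S R := by
    intro R hR
    rw [Finset.mem_powersetCard] at hR
    rw [Finset.disjoint_left]
    intro i hi hi'
    exact (Finset.mem_compl.1 (hR.1 hi')) hi
  refine Finset.card_nbij' (fun M => M \ S) (fun R => S ∪ R) ?_ ?_ ?_ ?_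
  · intro M hM
    rw [Finset.mem_coe, Finset.mem_filter, Finset.mem_powersetCard] at hM
    rw [Finset.mem_coe, Finset.mem_powersetCard]
    refine ⟨fun i hi => ?_, ?_⟩
    · rw [Finset.mem_compl]
      exact (Finset.mem_sdiff.1 hi).2
    · rw [Finset.card_sdiff_of_subset hM.2, hM.1.2, hS]
  · intro R hR
    have hd := hdis R hR
    rw [Finset.mem_coe, Finset.mem_powersetCard] at hR
    rw [Finset.mem_coe, Finset.mem_filter, Finset.mem_powersetCard]
    refine ⟨⟨Finset.subset_univ _, ?_⟩, Finset.subset_union_left⟩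
    rw [Finset.card_union_of_disjoint hd, hS, hR.2]
    omega
  · intro M hM
    rw [Finset.mem_coe, Finset.mem_filter] at hM
    exact Finset.union_sdiff_of_subset hM.2
  · intro R hR
    exact Finset.union_sdiff_cancel_left (hdis R hR)

/-- the pattern of a family along a map. -/
def pull {m n : ℕ} (k : ℕ) (𝓕 : Finset (Finset (Fin n) × Finset (Fin n))) (τ : Fin m → Fin n) :
    Finset (Finset (Fin m) × Finset (Fin m)) :=
  (pats m k).filter fun P => (P.1.image τ, P.2.image τ) ∈ 𝓕

/-- PROOF: `(S, A) ↦ (τ S, τ A)` is injective (`Finset.image_injective`), and onto the members `(S', A')` of `𝓕`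
with `S' ⊆ range τ = M`: take preimages (`Finset.preimage` or `univ.filter fun a => τ a ∈ S'`); use `𝓕 ⊆ pats n k`
for `A' ⊆ S'`, `card S' = k`, and `card_image_of_injective`. -/
theorem card_pull {m n k : ℕ} {𝓕 : Finset (Finset (Fin n) × Finset (Fin n))}
    (h𝓕 : 𝓕 ⊆ pats n k) (τ : Fin m → Fin n) (hτ : Function.Injective τ) (M : Finset (Fin n))
    (hM : ∀ i, i ∈ M ↔ ∃ a, τ a = i) :
    (pull k 𝓕 τ).card = (𝓕.filter fun P => P.1 ⊆ M).card := by
  classical
  have hrange : ∀ T : Finset (Fin n), T ⊆ M → (Finset.univ.filter fun a => τ a ∈ T).image τ = T := by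
    intro T hT
    ext i
    rw [Finset.mem_image]
    constructor
    · rintro ⟨a, ha, rfl⟩
      exact (Finset.mem_filter.1 ha).2
    · intro hi
      obtain ⟨a, rfl⟩ := (hM i).1 (hT hi)
      exact ⟨a, Finset.mem_filter.2 ⟨Finset.mem_univ _, hi⟩, rfl⟩
  refine Finset.card_bij (fun P _ => (P.1.image τ, P.2.image τ)) ?_ ?_ ?_
  · intro P hP
    unfold pull at hP
    rw [Finset.mem_filter] at hP
    rw [Finset.mem_filter]
    refine ⟨hP.2, ?_⟩
    intro i hi
    rw [Finset.mem_image] at hi
    obtain ⟨a, _, ha⟩ := hi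
    exact (hM i).2 ⟨a, ha⟩
  · intro P _ P' _ h
    have h1 := (Prod.mk.inj h).1
    have h2 := (Prod.mk.inj h).2
    exact Prod.ext (Finset.image_injective hτ h1) (Finset.image_injective hτ h2)
  · intro P hP
    rw [Finset.mem_filter] at hP
    obtain ⟨hc, hs⟩ := mem_pats.1 (h𝓕 hP.1)
    have e1 := hrange P.1 hP.2
    have e2 := hrange P.2 (hs.trans hP.2)
    refine ⟨(Finset.univ.filter fun a => τ a ∈ P.1, Finset.univ.filter fun a => τ a ∈ P.2), ?_, ?_⟩
    · unfold pull
      rw [Finset.mem_filter, mem_pats]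
      refine ⟨⟨?_, ?_⟩, ?_⟩
      · show (Finset.univ.filter fun a => τ a ∈ P.1).card = k
        rw [← Finset.card_image_of_injective _ hτ, e1, hc]
      · intro a ha
        simp only [Finset.mem_filter, Finset.mem_univ, true_and] at ha ⊢
        exact hs ha
      · show ((Finset.univ.filter fun a => τ a ∈ P.1).image τ,
          (Finset.univ.filter fun a => τ a ∈ P.2).image τ) ∈ 𝓕
        rw [e1, e2]
        exact hP.1
    · show ((Finset.univ.filter fun a => τ a ∈ P.1).image τ,
          (Finset.univ.filter fun a => τ a ∈ P.2).image τ) = P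
      rw [e1, e2]

end Pool.Agent.H.MP_4bcbbd_co.X
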