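import Pool.Agent.H.MP_4bcbbd_co.X.BlowF
import Pool.Agent.H.MP_4bcbbd_co.X.Gp

/-!
MP_4bcbbd_co, exponential gap: from the blown up configuration to the abstract condition.
-/

set_option autoImplicit false

namespace Pool.Agent.H.MP_4bcbbd_co.X

open scoped BigOperators

/-- PROOF. `W` = image of the kernel `K` of `L : (Fin m × Bool → ℝ) →ₗ E d`, `z ↦ ∑ z_i Y_i` under
`σ z a = z (a, false) + z (a, true)` (as element of `EuclideanSpace`, e.g. compose with
`(WithLp.linearEquiv 2 ℝ (Fin m → ℝ)).symm`). `finrank W ≤ finrank K = 2 m - d ≤ 2 s` by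
`Submodule.finrank_map_le` and `GP.finrank_ker` (`d ≤ 2 m` because `d = 2k + r`, `m = k + s`,
`r ≤ s`). `Abs`: given `S`, let `K_S` be the submodule of `K` of all `z` with `z (a, true) = 0` for
`a ∉ S`, and `U = K_S.map σ ≤ W`. `finrank K_S ≥ (m + k) - d = s - r`: `K_S` is the kernel of the
linear map `z ↦ (L z, (z (a, true))_{a ∉ S})` from a space of dimension `2 m` to a space of
dimension `d + s` (`LinearMap.finrank_range_add_finrank_ker`, `Submodule.finrank_le`; `Sᶜ.card = s`).
`σ` is injective on `K_S`: if `σ z = 0` then for `a ∉ S` `z (a, false) = 0`, for `a ∈ S` `z (a, true) = - z (a, false)`, so `z` is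
supported on `S ×ˢ univ` with `2 k ≤ d` elements and `z = 0` by `gp`; so
`finrank U = finrank K_S ≥ s - r ≥ (9/10) s` (`10 r ≤ s`). For `w = σ z`, `z ∈ K_S`: `w a = z (a, false)` for `a ∉ S`, and `blow_F` with
`P = (S, A)`. -/
theorem blow_abs {d m k r s : ℕ} (hd : d = 2 * k + r) (hm : m = k + s) (hs : 10 * r ≤ s)
    {Φ : Finset (Finset (Fin m) × Finset (Fin m))} {Y : Fin m × Bool → E d}
    (hB : Blow Φ Y) :
    ∃ W : Submodule ℝ (EuclideanSpace ℝ (Fin m)), Module.finrank ℝ W ≤ 2 * s ∧ Abs k s Φ W := by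
  classical
  set L : (Fin m × Bool → ℝ) →ₗ[ℝ] E d := Fintype.linearCombination ℝ Y with hLdef
  have hL : ∀ z, L z = ∑ i, z i • Y i := fun z => Fintype.linearCombination_apply ℝ Y z
  let pr : (Fin m × Bool) → (Fin m × Bool → ℝ) →ₗ[ℝ] ℝ := fun i => LinearMap.proj i
  set σ : (Fin m × Bool → ℝ) →ₗ[ℝ] EuclideanSpace ℝ (Fin m) :=
    (WithLp.linearEquiv 2 ℝ (Fin m → ℝ)).symm.toLinearMap ∘ₗ
      (LinearMap.pi fun a => pr (a, false) + pr (a, true)) with hσdef
  have hσ : ∀ z a, σ z a = z (a, false) + z (a, true) := fun z a => rfl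
  have hcard : Fintype.card (Fin m × Bool) = 2 * m := by
    rw [Fintype.card_prod, Fintype.card_fin, Fintype.card_bool, mul_comm]
  have hker := GP.finrank_ker hB.gp (by rw [hcard]; omega) L hL
  rw [hcard] at hker
  refine ⟨(LinearMap.ker L).map σ, ?_, ?_⟩
  · have h1 := Submodule.finrank_map_le σ (LinearMap.ker L)
    omega
  · intro S hS
    set M : (Fin m × Bool → ℝ) →ₗ[ℝ] E d × ({a : Fin m // a ∉ S} → ℝ) :=
      L.prod (LinearMap.pi fun a => pr (a.1, true)) with hMdef
    have hM : ∀ z, z ∈ LinearMap.ker M ↔ L z = 0 ∧ ∀ a, a ∉ S → z (a, true) = 0 := by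
      intro z
      rw [LinearMap.mem_ker]
      constructor
      · intro h
        refine ⟨congrArg Prod.fst h, fun a ha => ?_⟩
        exact congrFun (congrArg Prod.snd h) (⟨a, ha⟩ : {a : Fin m // a ∉ S})
      · rintro ⟨h1, h2⟩
        refine Prod.ext h1 ?_
        funext a
        exact h2 a.1 a.2
    have hcS : Fintype.card {a : Fin m // a ∉ S} = s := by
      rw [Fintype.card_subtype_compl, Fintype.card_fin, Fintype.card_coe, hS]
      omega
    have hrn := LinearMap.finrank_range_add_finrank_ker M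
    rw [Module.finrank_pi, hcard] at hrn
    have hrange : Module.finrank ℝ (LinearMap.range M) ≤ d + s := by
      refine (Submodule.finrank_le _).trans ?_
      rw [Module.finrank_prod, Module.finrank_pi, hcS, finrank_euclideanSpace_fin]
    have hinj : Function.Injective (σ.domRestrict (LinearMap.ker M)) := by
      rw [← LinearMap.ker_eq_bot, LinearMap.ker_eq_bot']
      rintro ⟨z, hz⟩ h0
      have hzM := (hM z).1 hz
      have h1 : ∀ a, z (a, false) + z (a, true) = 0 := by
        intro a
        rw [← hσ]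
        have h2 : σ z = 0 := h0
        rw [h2]
        rfl
      apply Subtype.ext
      funext i
      refine hB.gp z (by rw [← hL]; exact hzM.1) (S ×ˢ Finset.univ) ?_ ?_ i
      · rw [Finset.card_product, hS, Finset.card_univ, Fintype.card_bool]
        omega
      · rintro ⟨a, b⟩ hab
        have ha : a ∉ S := fun ha => hab (Finset.mem_product.2 ⟨ha, Finset.mem_univ _⟩)
        have h2 := hzM.2 a ha
        cases b
        · have h3 := h1 a
          rw [h2, add_zero] at h3
          exact h3
        · exact h2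
    refine ⟨(LinearMap.ker M).map σ, ?_, ?_, ?_⟩
    · refine Submodule.map_mono fun z hz => ?_
      exact LinearMap.mem_ker.2 ((hM z).1 hz).1
    · have h1 := LinearMap.finrank_range_of_inj hinj
      rw [LinearMap.range_domRestrict] at h1
      rw [h1]
      have h2 : s ≤ Module.finrank ℝ (LinearMap.ker M) + r := by omega
      have h3 : (s : ℝ) ≤ Module.finrank ℝ (LinearMap.ker M) + r := by exact_mod_cast h2
      have h4 : (10 : ℝ) * r ≤ s := by exact_mod_cast hs
      linarith
    · rintro _ ⟨z, hz, rfl⟩ A hA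
      have hzM := (hM z).1 hz
      have h1 := blow_F hB hA z (by rw [← hL]; exact hzM.1) hzM.2
      refine h1.trans (le_of_eq ?_)
      refine Finset.sum_congr rfl fun a ha => ?_
      rw [hσ, hzM.2 a (Finset.mem_compl.1 ha), add_zero]

end Pool.Agent.H.MP_4bcbbd_co.X
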