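import Pool.Agent.H.MP_4bcbbd_co.X.Gp

/-!
MP_4bcbbd_co, exponential gap: conformal decomposition.
-/

set_option autoImplicit false

namespace Pool.Agent.H.MP_4bcbbd_co.X

open scoped BigOperators

private lemma conf_step {ι : Type} [DecidableEq ι] (z e : ι → ℝ) (T' : Finset ι)
    (he : ∀ i, i ∉ T' → e i = 0) (hex : ∃ i ∈ T', 0 < e i * z i) :
    ∃ α : ℝ, 0 < α ∧ (∃ i ∈ T', z i - α * e i = 0) ∧ ∀ i, 0 ≤ z i * (z i - α * e i) := by
  classical
  obtain ⟨j, hj, hj2⟩ := hex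
  obtain ⟨i₀, hi₀, hmin⟩ := Finset.exists_min_image (T'.filter fun i => 0 < e i * z i)
    (fun i => z i / e i) ⟨j, Finset.mem_filter.2 ⟨hj, hj2⟩⟩
  rw [Finset.mem_filter] at hi₀
  obtain ⟨hi₀T, hi₀p⟩ := hi₀
  have he0 : e i₀ ≠ 0 := by
    intro h
    rw [h, zero_mul] at hi₀p
    exact lt_irrefl _ hi₀p
  refine ⟨z i₀ / e i₀, ?_, ⟨i₀, hi₀T, ?_⟩, ?_⟩
  · have h1 : z i₀ / e i₀ = (e i₀ * z i₀) / (e i₀ * e i₀) := by
      field_simp
    rw [h1]
    exact div_pos hi₀p (mul_self_pos.2 he0)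
  · field_simp
    ring
  · intro i
    by_cases h : 0 < e i * z i
    · have hiT : i ∈ T' := by
        by_contra h2
        rw [he i h2, zero_mul] at h
        exact lt_irrefl _ h
      have hei : e i ≠ 0 := by
        intro h2
        rw [h2, zero_mul] at h
        exact lt_irrefl _ h
      have h3 := hmin i (Finset.mem_filter.2 ⟨hiT, h⟩)
      have h4 : z i₀ / e i₀ * (e i * z i) ≤ z i / e i * (e i * z i) :=
        mul_le_mul_of_nonneg_right h3 h.le
      have h5 : z i / e i * (e i * z i) = z i * z i := by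
        field_simp
      rw [h5] at h4
      nlinarith
    · have h1 : 0 < z i₀ / e i₀ := by
        have h1 : z i₀ / e i₀ = (e i₀ * z i₀) / (e i₀ * e i₀) := by
          field_simp
        rw [h1]
        exact div_pos hi₀p (mul_self_pos.2 he0)
      have h2 : z i₀ / e i₀ * (e i * z i) ≤ 0 :=
        mul_nonpos_of_nonneg_of_nonpos h1.le (not_lt.1 h)
      nlinarith [mul_self_nonneg (z i)]

private lemma conf_smul_add {ι : Type} [Fintype ι] {d : ℕ} (Y : ι → E d) (z e : ι → ℝ) (α : ℝ)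
    (hz : ∑ i, z i • Y i = 0) (he : ∑ i, e i • Y i = 0) :
    ∑ i, (z i - α * e i) • Y i = 0 := by
  have h1 : ∑ i, (z i - α * e i) • Y i = ∑ i, z i • Y i - α • ∑ i, e i • Y i := by
    rw [Finset.smul_sum, ← Finset.sum_sub_distrib]
    refine Finset.sum_congr rfl fun i _ => ?_
    rw [sub_smul, mul_smul]
  rw [h1, hz, he, smul_zero, sub_zero]

private lemma conf_main {ι : Type} [Fintype ι] [DecidableEq ι] {d : ℕ} {Y : ι → E d}
    (z : ι → ℝ) (hz : ∑ i, z i • Y i = 0) (T : Finset ι) (hT : ∀ i, i ∈ T ↔ z i ≠ 0)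
    (T' : Finset ι) (hTT : T' ⊆ T) (hout : ∃ i ∈ T, i ∉ T') (e : ι → ℝ)
    (he : ∑ i, e i • Y i = 0) (he0 : ∀ i, i ∉ T' → e i = 0) (hne : ∀ i ∈ T', e i ≠ 0)
    (hex : ∃ i ∈ T', 0 < e i * z i) :
    ∃ (u v : ι → ℝ) (x y : ℝ), 0 ≤ x ∧ 0 ≤ y ∧ (∀ i, z i = x * u i + y * v i) ∧
      ∑ i, u i • Y i = 0 ∧ ∑ i, v i • Y i = 0 ∧ (∀ i, 0 ≤ z i * u i) ∧ (∀ i, 0 ≤ z i * v i) ∧
      (∃ i ∈ T, u i = 0) ∧ (∃ i ∈ T, v i = 0) ∧ (∀ i, i ∉ T → u i = 0) ∧
      (∀ i, i ∉ T → v i = 0) := by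
  obtain ⟨α, hα, ⟨i₀, hi₀, hi₀z⟩, hαc⟩ := conf_step z e T' he0 hex
  have hzT : ∀ i, i ∉ T → z i = 0 := fun i hi => by
    by_contra h
    exact hi ((hT i).2 h)
  have heT : ∀ i, i ∉ T → e i = 0 := fun i hi => he0 i fun h => hi (hTT h)
  by_cases hall : ∀ i ∈ T', 0 < e i * z i
  · obtain ⟨j, hj, hjT⟩ := hout
    refine ⟨fun i => α * e i, fun i => z i - α * e i, 1, 1, zero_le_one, zero_le_one, ?_, ?_,
      conf_smul_add Y z e α hz he, ?_, hαc, ⟨j, hj, ?_⟩, ⟨i₀, hTT hi₀, hi₀z⟩, ?_, ?_⟩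
    · intro i
      ring
    · have h1 : ∑ i, (α * e i) • Y i = α • ∑ i, e i • Y i := by
        rw [Finset.smul_sum]
        exact Finset.sum_congr rfl fun i _ => mul_smul _ _ _
      rw [h1, he, smul_zero]
    · intro i
      by_cases hi : i ∈ T'
      · have := mul_pos hα (hall i hi)
        show 0 ≤ z i * (α * e i)
        nlinarith
      · show 0 ≤ z i * (α * e i)
        rw [he0 i hi, mul_zero, mul_zero]
    · show α * e j = 0
      rw [he0 j hjT, mul_zero]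
    · intro i hi
      show α * e i = 0
      rw [heT i hi, mul_zero]
    · intro i hi
      show z i - α * e i = 0
      rw [heT i hi, hzT i hi, mul_zero, sub_zero]
  · push Not at hall
    obtain ⟨j, hj, hj2⟩ := hall
    have hzj : z j ≠ 0 := (hT j).1 (hTT hj)
    have hlt : 0 < (-e j) * z j := by
      rcases lt_or_eq_of_le hj2 with h | h
      · nlinarith
      · exact absurd h (mul_ne_zero (hne j hj) hzj)
    obtain ⟨β, hβ, ⟨i₁, hi₁, hi₁z⟩, hβc⟩ := conf_step z (fun i => -e i) T'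
      (fun i hi => by simp [he0 i hi]) ⟨j, hj, hlt⟩
    have hne' : α + β ≠ 0 := (add_pos hα hβ).ne'
    have he' : ∑ i, (-e i) • Y i = 0 := by
      have h1 : ∑ i, (-e i) • Y i = -∑ i, e i • Y i := by
        rw [← Finset.sum_neg_distrib]
        exact Finset.sum_congr rfl fun i _ => neg_smul _ _
      rw [h1, he, neg_zero]
    refine ⟨fun i => z i - α * e i, fun i => z i - β * (-e i), β / (α + β), α / (α + β),
      (div_pos hβ (add_pos hα hβ)).le, (div_pos hα (add_pos hα hβ)).le, ?_,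
      conf_smul_add Y z e α hz he, conf_smul_add Y z (fun i => -e i) β hz he', hαc, hβc,
      ⟨i₀, hTT hi₀, hi₀z⟩, ⟨i₁, hTT hi₁, hi₁z⟩, ?_, ?_⟩
    · intro i
      field_simp
      ring
    · intro i hi
      show z i - α * e i = 0
      rw [heT i hi, hzT i hi, mul_zero, sub_zero]
    · intro i hi
      show z i - β * (-e i) = 0
      rw [heT i hi, hzT i hi, neg_zero, mul_zero, sub_zero]

/-- a relation `z` is a positive combination of two conformal relations of smaller support, if its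
support has at least `d + 2` elements. PROOF. Choose `T' ⊆ T = supp z` with `T'.card = d + 1` and `e` from `GP.rel`. Replacing
`e` by `-e` we may assume that `e_i z_i > 0` for some `i ∈ T'`. Let `α > 0` be the minimum of
`z_i / e_i` over `i ∈ T'` with `e_i z_i > 0` (attained at `i₀`; `Finset.exists_min_image`): `z - α e` is conformal to
`z` and vanishes at `i₀`. Case 1: `e_i z_i > 0` for all `i ∈ T'`. Then take `u = α e`,
`v = z - α e` and `x = y = 1`. Case 2: otherwise let `β > 0` be the minimum of `-z_i / e_i` over the `i ∈ T'` with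
`e_i z_i < 0`; take `u = z - α e`, `v = z + β e`, `x = β/(α+β)`, `y = α/(α+β)`. -/
theorem conformal {ι : Type} [Fintype ι] [DecidableEq ι] {d : ℕ} {Y : ι → E d} (hY : GP Y)
    (z : ι → ℝ) (hz : ∑ i, z i • Y i = 0) (T : Finset ι) (hT : ∀ i, i ∈ T ↔ z i ≠ 0)
    (hc : d + 2 ≤ T.card) :
    ∃ (u v : ι → ℝ) (x y : ℝ), 0 ≤ x ∧ 0 ≤ y ∧ (∀ i, z i = x * u i + y * v i) ∧
      ∑ i, u i • Y i = 0 ∧ ∑ i, v i • Y i = 0 ∧ (∀ i, 0 ≤ z i * u i) ∧ (∀ i, 0 ≤ z i * v i) ∧
      (∃ i ∈ T, u i = 0) ∧ (∃ i ∈ T, v i = 0) ∧ (∀ i, i ∉ T → u i = 0) ∧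
      (∀ i, i ∉ T → v i = 0) := by
  classical
  obtain ⟨T', hTT, hcard⟩ := Finset.exists_subset_card_eq (show d + 1 ≤ T.card by omega)
  obtain ⟨e, he, he0, hne⟩ := hY.rel T' hcard
  have hout : ∃ i ∈ T, i ∉ T' := by
    by_contra h
    push Not at h
    have := Finset.card_le_card (show T ⊆ T' from h)
    omega
  obtain ⟨j, hj⟩ : T'.Nonempty := by
    rw [← Finset.card_pos]
    omega
  have hzj : z j ≠ 0 := (hT j).1 (hTT hj)
  rcases lt_or_gt_of_ne (mul_ne_zero (hne j hj) hzj) with h | h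
  · refine conf_main z hz T hT T' hTT hout (fun i => -e i) ?_ (fun i hi => by simp [he0 i hi])
      (fun i hi => neg_ne_zero.2 (hne i hi)) ⟨j, hj, ?_⟩
    · have h1 : ∑ i, (-e i) • Y i = -∑ i, e i • Y i := by
        rw [← Finset.sum_neg_distrib]
        exact Finset.sum_congr rfl fun i _ => neg_smul _ _
      rw [h1, he, neg_zero]
    · show 0 < -e j * z j
      linarith
  · exact conf_main z hz T hT T' hTT hout e he he0 hne ⟨j, hj, h⟩

end Pool.Agent.H.MP_4bcbbd_co.X
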