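import Pool.Agent.H.MP_4bcbbd_co.X.BlowL
import Pool.Agent.H.MP_4bcbbd_co.X.Conf

/-!
MP_4bcbbd_co, exponential gap: the inequality for all relations.
-/

set_option autoImplicit false

namespace Pool.Agent.H.MP_4bcbbd_co.X

open scoped BigOperators

/-- (F'). PROOF: strong induction on the number of elements of the support of `z`. If
`z (a, false) * z (a, true) ≤ 0` for all `a ∈ P.1` use `blow_L`. Otherwise `z (a, false) * z (a, true) > 0` for some `a ∈ P.1`. The
support `T` has at least `d + 2` elements: if `T.card ≤ d` then `z = 0` by `gp`; if `T.card = d + 1` then `opp` with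
`T \ {(a,false), (a,true)}` gives a contradiction. Use `conformal` and the induction hypothesis for
`u` and `v` (smaller supports; `u (b, true) = 0` for `b ∉ P.1`):
`|Σ(z)| ≤ x |Σ(u)| + y |Σ(v)| ≤ ∑_{P.1ᶜ} (x |u (a, false)| + y |v (a, false)|) = ∑ |z (a, false)|`, the last equality because
`u`, `v` have the sign of `z` (weakly): `|z i| = x |u i| + y |v i|`: if `z i > 0` then `u i, v i ≥ 0`; `z i = 0` then `i ∉ T`. -/
theorem blow_F {d m : ℕ} {Φ : Finset (Finset (Fin m) × Finset (Fin m))}
    {Y : Fin m × Bool → E d} (hB : Blow Φ Y) {P : Finset (Fin m) × Finset (Fin m)}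
    (hP : P ∈ Φ) (z : Fin m × Bool → ℝ) (hz : ∑ i, z i • Y i = 0)
    (hsupp : ∀ a, a ∉ P.1 → z (a, true) = 0) :
    |∑ a ∈ P.1, sg P.2 a * (z (a, false) + z (a, true))| ≤ ∑ a ∈ P.1ᶜ, |z (a, false)| := by
  classical
  suffices H : ∀ (n : ℕ) (z : Fin m × Bool → ℝ), ∑ i, z i • Y i = 0 →
      (∀ a, a ∉ P.1 → z (a, true) = 0) → (Finset.univ.filter fun i => z i ≠ 0).card = n →
      |∑ a ∈ P.1, sg P.2 a * (z (a, false) + z (a, true))| ≤ ∑ a ∈ P.1ᶜ, |z (a, false)| from
    H _ z hz hsupp rfl
  intro n
  induction n using Nat.strong_induction_on with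
  | _ n ih =>
    intro z hz hsupp hn
    by_cases hopp : ∀ a ∈ P.1, z (a, false) * z (a, true) ≤ 0
    · exact blow_L hB hP z hz hsupp hopp
    · push Not at hopp
      obtain ⟨a₀, ha₀, hpos⟩ := hopp
      obtain ⟨T, hT⟩ : ∃ T : Finset (Fin m × Bool), T = Finset.univ.filter fun i => z i ≠ 0 :=
        ⟨_, rfl⟩
      rw [← hT] at hn
      have hTz : ∀ i, i ∈ T ↔ z i ≠ 0 := by
        intro i
        rw [hT, Finset.mem_filter]
        exact ⟨fun h => h.2, fun h => ⟨Finset.mem_univ _, h⟩⟩
      have hTn : ∀ i, i ∉ T → z i = 0 := by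
        intro i hi
        by_contra h
        exact hi ((hTz i).2 h)
      have hne1 : z (a₀, false) ≠ 0 := by
        intro h
        rw [h, zero_mul] at hpos
        exact lt_irrefl _ hpos
      have hne2 : z (a₀, true) ≠ 0 := by
        intro h
        rw [h, mul_zero] at hpos
        exact lt_irrefl _ hpos
      have hcard : d + 2 ≤ T.card := by
        by_contra hlt
        push Not at hlt
        rcases Nat.lt_or_ge T.card (d + 1) with h | h
        · exact hne1 (hB.gp z hz T (by omega) hTn _)
        · obtain ⟨T', hT'⟩ : ∃ T' : Finset (Fin m × Bool),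
              T' = (T.erase (a₀, false)).erase (a₀, true) := ⟨_, rfl⟩
          have h1 : (a₀, false) ∈ T := (hTz _).2 hne1
          have h2 : (a₀, true) ∈ T.erase (a₀, false) := by
            rw [Finset.mem_erase]
            exact ⟨by simp, (hTz _).2 hne2⟩
          have h3 := Finset.card_erase_add_one h1
          have h4 := Finset.card_erase_add_one h2
          have hc' : T'.card + 1 = d := by
            rw [hT']
            omega
          have h5 := hB.opp a₀ T' hc' (by rw [hT']; simp) (by rw [hT']; simp) z hz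
            (fun i h6 h7 h8 => hTn i fun h9 => h6 (by
              rw [hT', Finset.mem_erase, Finset.mem_erase]
              exact ⟨h8, h7, h9⟩)) ⟨_, hne1⟩
          linarith
      obtain ⟨u, v, x, y, hx, hy, hxy, hu, hv, hzu, hzv, ⟨i₁, hi₁, hu₁⟩, ⟨i₂, hi₂, hv₁⟩, huT, hvT⟩ :=
        conformal hB.gp z hz T hTz hcard
      have hsm : ∀ w : Fin m × Bool → ℝ, (∀ i, i ∉ T → w i = 0) → (∃ i ∈ T, w i = 0) →
          (Finset.univ.filter fun i => w i ≠ 0).card < n := by
        rintro w hw ⟨i, hi, hwi⟩
        rw [← hn]
        refine Finset.card_lt_card ?_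
        rw [Finset.ssubset_iff_of_subset]
        · refine ⟨i, hi, ?_⟩
          rw [Finset.mem_filter]
          exact fun h => h.2 hwi
        · intro j hj
          rw [Finset.mem_filter] at hj
          by_contra h
          exact hj.2 (hw j h)
      have hb : ∀ w : Fin m × Bool → ℝ, (∀ i, i ∉ T → w i = 0) →
          ∀ a, a ∉ P.1 → w (a, true) = 0 := by
        intro w hw a ha
        exact hw _ fun h => (hTz _).1 h (hsupp a ha)
      have h1 := ih _ (hsm u huT ⟨i₁, hi₁, hu₁⟩) u hu (hb u huT) rfl
      have h2 := ih _ (hsm v hvT ⟨i₂, hi₂, hv₁⟩) v hv (hb v hvT) rfl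
      have habs : ∀ i, |z i| = x * |u i| + y * |v i| := by
        intro i
        rcases lt_trichotomy (z i) 0 with h | h | h
        · have h3 : u i ≤ 0 := by
            by_contra h4
            push Not at h4
            have := hzu i
            nlinarith [mul_pos (neg_pos.2 h) h4]
          have h5 : v i ≤ 0 := by
            by_contra h4
            push Not at h4
            have := hzv i
            nlinarith [mul_pos (neg_pos.2 h) h4]
          rw [abs_of_neg h, abs_of_nonpos h3, abs_of_nonpos h5, hxy i]
          ring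
        · have h3 : i ∉ T := fun h4 => (hTz i).1 h4 h
          rw [h, huT i h3, hvT i h3]
          simp
        · have h3 : 0 ≤ u i := by
            by_contra h4
            push Not at h4
            have := hzu i
            nlinarith [mul_pos h (neg_pos.2 h4)]
          have h5 : 0 ≤ v i := by
            by_contra h4
            push Not at h4
            have := hzv i
            nlinarith [mul_pos h (neg_pos.2 h4)]
          rw [abs_of_pos h, abs_of_nonneg h3, abs_of_nonneg h5]
          exact hxy i
      have hL : ∑ a ∈ P.1, sg P.2 a * (z (a, false) + z (a, true)) =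
          x * (∑ a ∈ P.1, sg P.2 a * (u (a, false) + u (a, true))) +
            y * (∑ a ∈ P.1, sg P.2 a * (v (a, false) + v (a, true))) := by
        rw [Finset.mul_sum, Finset.mul_sum, ← Finset.sum_add_distrib]
        refine Finset.sum_congr rfl fun a _ => ?_
        rw [hxy (a, false), hxy (a, true)]
        ring
      have hR : ∑ a ∈ P.1ᶜ, |z (a, false)| = x * (∑ a ∈ P.1ᶜ, |u (a, false)|) +
          y * (∑ a ∈ P.1ᶜ, |v (a, false)|) := by
        rw [Finset.mul_sum, Finset.mul_sum, ← Finset.sum_add_distrib]
        exact Finset.sum_congr rfl fun a _ => habs _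
      rw [hL, hR]
      refine (abs_add_le _ _).trans ?_
      rw [abs_mul, abs_mul, abs_of_nonneg hx, abs_of_nonneg hy]
      exact add_le_add (mul_le_mul_of_nonneg_left h1 hx) (mul_le_mul_of_nonneg_left h2 hy)

end Pool.Agent.H.MP_4bcbbd_co.X
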