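import Pool.Agent.H.MP_4bcbbd_co.X.Defs

/-!
MP_4bcbbd_co, exponential gap: the inequality (L).
-/

set_option autoImplicit false

namespace Pool.Agent.H.MP_4bcbbd_co.X

open scoped BigOperators

private lemma blowL_compl {m : ℕ} (S : Finset (Fin m)) (c : Fin m → Bool) (z : Fin m × Bool → ℝ)
    (hsupp : ∀ a, a ∉ S → z (a, true) = 0) :
    ∑ i ∈ (S.image fun a => (a, c a))ᶜ, |z i| =
      ∑ a ∈ S, |z (a, !c a)| + ∑ a ∈ Sᶜ, |z (a, false)| := by
  have h1 := Finset.sum_compl_add_sum (S.image fun a => (a, c a)) fun i => |z i|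
  rw [Finset.sum_image (fun a _ b _ h => (Prod.mk.inj h).1), Fintype.sum_prod_type] at h1
  have h2 : ∀ a, ∑ b : Bool, |z (a, b)| = |z (a, c a)| + |z (a, !c a)| := by
    intro a
    rw [Fintype.sum_bool]
    cases c a <;> simp [add_comm]
  have h3 := Finset.sum_add_sum_compl S fun a => ∑ b : Bool, |z (a, b)|
  have h4 : ∑ a ∈ S, ∑ b : Bool, |z (a, b)| = ∑ a ∈ S, |z (a, c a)| + ∑ a ∈ S, |z (a, !c a)| := by
    rw [← Finset.sum_add_distrib]
    exact Finset.sum_congr rfl fun a _ => h2 a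
  have h5 : ∑ a ∈ Sᶜ, ∑ b : Bool, |z (a, b)| = ∑ a ∈ Sᶜ, |z (a, false)| := by
    refine Finset.sum_congr rfl fun a ha => ?_
    rw [Fintype.sum_bool, hsupp a (Finset.mem_compl.1 ha), abs_zero, zero_add]
  linarith

private lemma blowL_one {d m : ℕ} {Φ : Finset (Finset (Fin m) × Finset (Fin m))}
    {Y : Fin m × Bool → E d} (hB : Blow Φ Y) {P : Finset (Fin m) × Finset (Fin m)}
    (hP : P ∈ Φ) (z : Fin m × Bool → ℝ) (hz : ∑ i, z i • Y i = 0)
    (hsupp : ∀ a, a ∉ P.1 → z (a, true) = 0)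
    (hopp : ∀ a ∈ P.1, z (a, false) * z (a, true) ≤ 0) (t : ℝ) (ht : t * t = 1)
    (hle : ∀ x : ℝ, t * x ≤ |x|) :
    t * ∑ a ∈ P.1, sg P.2 a * (z (a, false) + z (a, true)) ≤ ∑ a ∈ P.1ᶜ, |z (a, false)| := by
  classical
  obtain ⟨c, hc⟩ : ∃ c : Fin m → Bool, ∀ a ∈ P.1, t * (sg P.2 a * z (a, !c a)) ≤ 0 := by
    refine ⟨fun a => if 0 < t * (sg P.2 a * z (a, false)) then false else true, ?_⟩
    intro a ha
    by_cases h : 0 < t * (sg P.2 a * z (a, false))
    · simp only [if_pos h, Bool.not_false]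
      by_contra h2
      have h3 : 0 < t * (sg P.2 a * z (a, false)) * (t * (sg P.2 a * z (a, true))) :=
        mul_pos h (not_le.1 h2)
      have h4 : t * (sg P.2 a * z (a, false)) * (t * (sg P.2 a * z (a, true))) =
          (t * t) * (sg P.2 a * sg P.2 a) * (z (a, false) * z (a, true)) := by ring
      rw [h4, ht, sg_mul_self, one_mul, one_mul] at h3
      exact absurd h3 (not_lt.2 (hopp a ha))
    · simp only [if_neg h, Bool.not_true]
      exact not_lt.1 h
  have hc2 : ∀ a ∈ P.1, t * (sg P.2 a * z (a, !c a)) = -|z (a, !c a)| := by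
    intro a ha
    have h1 : |t * (sg P.2 a * z (a, !c a))| = |z (a, !c a)| := by
      have h2 : |t| = 1 := by
        have h3 : |t| * |t| = 1 := by rw [← abs_mul, ht, abs_one]
        nlinarith [abs_nonneg t]
      rw [abs_mul, abs_mul, abs_sg, h2, one_mul, one_mul]
    rw [← h1, abs_of_nonpos (hc a ha), neg_neg]
  have h1 := hB.ineq P hP c z hz
  rw [blowL_compl P.1 c z hsupp] at h1
  have h2 := hle (∑ a ∈ P.1, sg P.2 a * z (a, c a))
  have h3 : t * ∑ a ∈ P.1, sg P.2 a * (z (a, false) + z (a, true)) =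
      t * ∑ a ∈ P.1, sg P.2 a * z (a, c a) - ∑ a ∈ P.1, |z (a, !c a)| := by
    rw [Finset.mul_sum, Finset.mul_sum, ← Finset.sum_sub_distrib]
    refine Finset.sum_congr rfl fun a ha => ?_
    have h4 := hc2 a ha
    have h5 : z (a, false) + z (a, true) = z (a, c a) + z (a, !c a) := by
      cases c a <;> simp [add_comm]
    rw [h5, mul_add, mul_add, h4]
    ring
  rw [h3]
  linarith

/-- the inequality (L). PROOF. Let `ϑ = 1` or `-1` with `ϑ * Σ = |Σ|` for the left sum `Σ`. For `a ∈ P.1` let `c a = false` if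
`0 < ϑ * sg P.2 a * z (a, false)`, otherwise `c a = true`. In both cases
`ϑ * sg P.2 a * z (a, !c a) ≤ 0` (first case: `hopp`), so it equals `-|z (a, !c a)|`. `hB.ineq` with
this `c`: `∑_{P.1} ϑ sg z (a, c a) ≤ ∑_{a ∈ P.1} |z (a, !c a)| + ∑_{a ∉ P.1} |z (a, false)|` (the
complement of the image consists of `(a, !c a)`, `a ∈ P.1`, and the `(a, b)` with `a ∉ P.1`, where
`z (a, true) = 0`). Hence `|Σ| = ∑_{P.1} (ϑ sg z (a, c a) - |z (a, !c a)|) ≤ ∑_{a ∉ P.1} |z (a, false)|`. -/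
theorem blow_L {d m : ℕ} {Φ : Finset (Finset (Fin m) × Finset (Fin m))}
    {Y : Fin m × Bool → E d} (hB : Blow Φ Y) {P : Finset (Fin m) × Finset (Fin m)}
    (hP : P ∈ Φ) (z : Fin m × Bool → ℝ) (hz : ∑ i, z i • Y i = 0)
    (hsupp : ∀ a, a ∉ P.1 → z (a, true) = 0)
    (hopp : ∀ a ∈ P.1, z (a, false) * z (a, true) ≤ 0) :
    |∑ a ∈ P.1, sg P.2 a * (z (a, false) + z (a, true))| ≤ ∑ a ∈ P.1ᶜ, |z (a, false)| := by
  rw [abs_le]
  have h1 := blowL_one hB hP z hz hsupp hopp 1 (by norm_num) fun x => by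
    rw [one_mul]; exact le_abs_self x
  have h2 := blowL_one hB hP z hz hsupp hopp (-1) (by norm_num) fun x => by
    rw [neg_one_mul]; exact neg_le_abs x
  constructor <;> linarith

end Pool.Agent.H.MP_4bcbbd_co.X
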