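import Mathlib

/-!
MP_4bcbbd_co, exponential gap: Erdős' box theorem.
-/

set_option autoImplicit false

namespace Pool.Agent.H.MP_4bcbbd_co.X

/-- The first coordinates which complete `x` to an element of `T`. -/
private def boxN {m n : ℕ} (T : Finset (Fin (m + 1) → Fin n)) (x : Fin m → Fin n) :
    Finset (Fin n) :=
  Finset.univ.filter fun y => Fin.cons (α := fun _ => Fin n) y x ∈ T

private theorem box_sum {m n : ℕ} (T : Finset (Fin (m + 1) → Fin n)) :
    ∑ x : Fin m → Fin n, (boxN T x).card = T.card := by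
  classical
  rw [Finset.card_eq_sum_card_fiberwise (f := fun f : Fin (m + 1) → Fin n => (Fin.tail f))
    (t := Finset.univ) (fun _ _ => Finset.mem_coe.2 (Finset.mem_univ _))]
  refine Finset.sum_congr rfl fun x _ => ?_
  refine Finset.card_bij (fun y _ => Fin.cons (α := fun _ => Fin n) y x) ?_ ?_ ?_
  · intro y hy
    have hy' := (Finset.mem_filter.1 hy).2
    exact Finset.mem_filter.2 ⟨hy', Fin.tail_cons _ _⟩
  · intro y _ y' _ h
    have := congrFun h 0
    simpa using this
  · intro f hf
    obtain ⟨h1, h2⟩ := Finset.mem_filter.1 hf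
    refine ⟨f 0, ?_, ?_⟩
    · refine Finset.mem_filter.2 ⟨Finset.mem_univ _, ?_⟩
      rw [← h2, Fin.cons_self_tail]
      exact h1
    · rw [← h2, Fin.cons_self_tail]

private theorem box_emb {n t : ℕ} (A : Finset (Fin n)) :
    A.card.descFactorial t ≤
      (Finset.univ.filter fun g : Fin t ↪ Fin n => ∀ i, g i ∈ A).card := by
  classical
  have h1 : Fintype.card (Fin t ↪ A) = A.card.descFactorial t := by
    rw [Fintype.card_embedding_eq, Fintype.card_coe, Fintype.card_fin]
  rw [← h1, ← Finset.card_univ]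
  refine Finset.card_le_card_of_injOn (fun g => g.trans (Function.Embedding.subtype _)) ?_ ?_
  · intro g _
    refine Finset.mem_coe.2 (Finset.mem_filter.2 ⟨Finset.mem_univ _, fun i => ?_⟩)
    exact (g i).2
  · intro g _ g' _ h
    ext i
    have := congrArg (fun e : Fin t ↪ Fin n => e i) h
    exact congrArg Fin.val this

/-- A dense subset of `[n]^m` contains a box with injective sides of length `t`.
PROOF. Induction on `m`. `m = 0`: `N = 0`; `δ ≤ |T|` so `T` is nonempty, and there is only one
function on `Fin 0`. Step `m + 1`: for `x : Fin m → Fin n` let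
`N x = {y | Fin.cons y x ∈ T}`, `∑_x |N x| = |T| ≥ δ n^{m+1}`.
The set `X` of `x` with `|N x| ≥ (δ/2) n` has `|X| ≥ (δ/2) n^m`, so the number of pairs `(x, g)`,
`g : Fin t → Fin n` injective with all `g i ∈ N x`, is `≥ (δ/2) n^m ((δ/4) n)^t` if `t ≤ (δ/4) n`;
hence (average over `g`) some injective `g` belongs to at least `(δ/2) (δ/4)^t n^m` values `x`.
Apply the induction hypothesis to this set of `x`, and put `C = Fin.cons g C'`. -/
theorem box (m t : ℕ) (δ : ℝ) (hδ : 0 < δ) : ∃ N : ℕ, ∀ n : ℕ, N ≤ n →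
    ∀ T : Finset (Fin m → Fin n), δ * (n : ℝ) ^ m ≤ (T.card : ℝ) →
      ∃ C : Fin m → Fin t → Fin n, (∀ a, Function.Injective (C a)) ∧
        ∀ φ : Fin m → Fin t, (fun a => C a (φ a)) ∈ T := by
  classical
  induction m generalizing δ with
  | zero =>
    refine ⟨0, fun n _ T hT => ?_⟩
    have h1 : (0 : ℝ) < T.card := by
      have : δ * (n : ℝ) ^ 0 = δ := by simp
      linarith
    have h2 : 0 < T.card := by exact_mod_cast h1
    obtain ⟨x, hx⟩ := Finset.card_pos.1 h2
    refine ⟨fun a => a.elim0, fun a => a.elim0, fun φ => ?_⟩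
    have : (fun a : Fin 0 => (a.elim0 : Fin t → Fin n) (φ a)) = x := Subsingleton.elim _ _
    rw [this]
    exact hx
  | succ m ih =>
    have hδ1 : 0 < δ / 2 * (δ / 4) ^ t := by positivity
    obtain ⟨N₁, hN₁⟩ := ih (δ / 2 * (δ / 4) ^ t) hδ1
    obtain ⟨N₂, hN₂⟩ := exists_nat_ge (4 * t / δ)
    refine ⟨max N₁ (max N₂ 1), fun n hn T hT => ?_⟩
    have hn1 : N₁ ≤ n := le_trans (le_max_left _ _) hn
    have hn2 : N₂ ≤ n := le_trans (le_trans (le_max_left _ _) (le_max_right _ _)) hn
    have hn3 : 1 ≤ n := le_trans (le_trans (le_max_right _ _) (le_max_right _ _)) hn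
    have hn0 : (0 : ℝ) < n := by exact_mod_cast hn3
    have ht : (t : ℝ) ≤ δ / 4 * n := by
      have h1 : 4 * (t : ℝ) / δ ≤ n := le_trans hN₂ (by exact_mod_cast hn2)
      rw [div_le_iff₀ hδ] at h1
      nlinarith
    -- the set of good points
    set X : Finset (Fin m → Fin n) :=
      Finset.univ.filter fun x => δ / 2 * n ≤ ((boxN T x).card : ℝ) with hX
    have hXc : δ / 2 * (n : ℝ) ^ m ≤ X.card := by
      have h1 : (T.card : ℝ) = ∑ x : Fin m → Fin n, ((boxN T x).card : ℝ) := by
        rw [← box_sum T]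
        push_cast
        rfl
      have h2 : ∀ x : Fin m → Fin n, ((boxN T x).card : ℝ) ≤
          (if x ∈ X then (n : ℝ) else 0) + δ / 2 * n := by
        intro x
        by_cases hx : x ∈ X
        · rw [if_pos hx]
          have h3 : (boxN T x).card ≤ n := by
            have := Finset.card_le_univ (boxN T x)
            rwa [Fintype.card_fin] at this
          have h4 : ((boxN T x).card : ℝ) ≤ n := by exact_mod_cast h3
          have h5 : 0 ≤ δ / 2 * n := by positivity
          linarith
        · rw [if_neg hx, zero_add]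
          have h3 : ¬ (δ / 2 * n ≤ ((boxN T x).card : ℝ)) := fun h =>
            hx (Finset.mem_filter.2 ⟨Finset.mem_univ _, h⟩)
          exact (not_le.1 h3).le
      have h3 : (T.card : ℝ) ≤ X.card * n + (n : ℝ) ^ m * (δ / 2 * n) := by
        rw [h1]
        refine le_trans (Finset.sum_le_sum fun x _ => h2 x) ?_
        rw [Finset.sum_add_distrib, Finset.sum_const, Finset.card_univ, Fintype.card_fun,
          Fintype.card_fin, Fintype.card_fin, ← Finset.sum_filter, Finset.filter_mem_eq_inter,
          Finset.univ_inter, Finset.sum_const, nsmul_eq_mul, nsmul_eq_mul]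
        push_cast
        exact le_rfl
      have h4 : δ * (n : ℝ) ^ (m + 1) ≤ X.card * n + (n : ℝ) ^ m * (δ / 2 * n) := le_trans hT h3
      have h5 : δ / 2 * (n : ℝ) ^ m * n ≤ X.card * n := by
        have : δ * (n : ℝ) ^ (m + 1) = δ * (n : ℝ) ^ m * n := by ring
        rw [this] at h4
        nlinarith
      exact le_of_mul_le_mul_right h5 hn0
    -- embeddings with values in `N x`
    set P : (Fin m → Fin n) → (Fin t ↪ Fin n) → Prop := fun x g => ∀ i, g i ∈ boxN T x with hP
    have hemb : ∀ x ∈ X, (δ / 4 * n) ^ t ≤ ((Finset.univ.filter fun g => P x g).card : ℝ) := by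
      intro x hx
      have h1 : δ / 2 * n ≤ ((boxN T x).card : ℝ) := (Finset.mem_filter.1 hx).2
      have h2 := box_emb (t := t) (boxN T x)
      have h3 : ((boxN T x).card + 1 - t) ^ t ≤ (boxN T x).card.descFactorial t :=
        Nat.pow_sub_le_descFactorial _ _
      have h4 : (t : ℝ) ≤ (boxN T x).card := by
        have : δ / 4 * n ≤ δ / 2 * n := by nlinarith
        linarith
      have h4' : t ≤ (boxN T x).card + 1 := by
        have : t ≤ (boxN T x).card := by exact_mod_cast h4
        omega
      have h5 : δ / 4 * n ≤ (((boxN T x).card + 1 - t : ℕ) : ℝ) := by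
        rw [Nat.cast_sub h4']
        push_cast
        have : δ / 4 * n = δ / 2 * n - δ / 4 * n := by ring
        linarith
      calc (δ / 4 * n) ^ t ≤ (((boxN T x).card + 1 - t : ℕ) : ℝ) ^ t :=
            pow_le_pow_left₀ (by positivity) h5 t
        _ = ((((boxN T x).card + 1 - t) ^ t : ℕ) : ℝ) := by push_cast; rfl
        _ ≤ _ := by exact_mod_cast le_trans h3 h2
    -- average
    have hdc : ∑ g : Fin t ↪ Fin n, (Finset.univ.filter fun x => P x g).card =
        ∑ x : Fin m → Fin n, (Finset.univ.filter fun g => P x g).card := by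
      simp_rw [Finset.card_filter]
      exact Finset.sum_comm
    have hsum : δ / 2 * (n : ℝ) ^ m * (δ / 4 * n) ^ t ≤
        ∑ g : Fin t ↪ Fin n, ((Finset.univ.filter fun x => P x g).card : ℝ) := by
      have h1 : (∑ g : Fin t ↪ Fin n, ((Finset.univ.filter fun x => P x g).card : ℝ)) =
          ∑ x : Fin m → Fin n, ((Finset.univ.filter fun g => P x g).card : ℝ) := by
        exact_mod_cast hdc
      rw [h1]
      calc δ / 2 * (n : ℝ) ^ m * (δ / 4 * n) ^ t ≤ X.card * (δ / 4 * n) ^ t :=
            mul_le_mul_of_nonneg_right hXc (by positivity)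
        _ = ∑ x ∈ X, (δ / 4 * (n : ℝ)) ^ t := by rw [Finset.sum_const, nsmul_eq_mul]
        _ ≤ ∑ x ∈ X, ((Finset.univ.filter fun g => P x g).card : ℝ) :=
            Finset.sum_le_sum fun x hx => hemb x hx
        _ ≤ ∑ x : Fin m → Fin n, ((Finset.univ.filter fun g => P x g).card : ℝ) :=
            Finset.sum_le_sum_of_subset_of_nonneg (Finset.subset_univ _)
              fun _ _ _ => Nat.cast_nonneg _
    have hex : ∃ g : Fin t ↪ Fin n, δ / 2 * (δ / 4) ^ t * (n : ℝ) ^ m ≤
        ((Finset.univ.filter fun x => P x g).card : ℝ) := by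
      by_contra hcon
      push Not at hcon
      have hpos : (0 : ℝ) < δ / 2 * (n : ℝ) ^ m * (δ / 4 * n) ^ t := by positivity
      have hne : (Finset.univ : Finset (Fin t ↪ Fin n)).Nonempty := by
        by_contra h
        rw [Finset.not_nonempty_iff_eq_empty] at h
        rw [h, Finset.sum_empty] at hsum
        linarith
      have h1 : (∑ g : Fin t ↪ Fin n, ((Finset.univ.filter fun x => P x g).card : ℝ)) <
          ∑ _g : Fin t ↪ Fin n, δ / 2 * (δ / 4) ^ t * (n : ℝ) ^ m :=
        Finset.sum_lt_sum_of_nonempty hne fun g _ => hcon g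
      have h2 : (∑ _g : Fin t ↪ Fin n, δ / 2 * (δ / 4) ^ t * (n : ℝ) ^ m) ≤
          (n : ℝ) ^ t * (δ / 2 * (δ / 4) ^ t * (n : ℝ) ^ m) := by
        rw [Finset.sum_const, nsmul_eq_mul]
        refine mul_le_mul_of_nonneg_right ?_ (by positivity)
        have h3 : Fintype.card (Fin t ↪ Fin n) ≤ n ^ t := by
          rw [Fintype.card_embedding_eq, Fintype.card_fin, Fintype.card_fin]
          exact Nat.descFactorial_le_pow _ _
        rw [Finset.card_univ]
        exact_mod_cast h3
      have h4 : δ / 2 * (n : ℝ) ^ m * (δ / 4 * n) ^ t =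
          (n : ℝ) ^ t * (δ / 2 * (δ / 4) ^ t * (n : ℝ) ^ m) := by
        rw [mul_pow]
        ring
      linarith
    obtain ⟨g, hg⟩ := hex
    obtain ⟨C, hC1, hC2⟩ := hN₁ n hn1 _ hg
    refine ⟨Fin.cons (α := fun _ => Fin t → Fin n) (fun i => g i) C, ?_, ?_⟩
    · intro a
      refine Fin.cases ?_ (fun b => ?_) a
      · rw [Fin.cons_zero]
        exact g.injective
      · rw [Fin.cons_succ]
        exact hC1 b
    · intro φ
      have h1 := hC2 (fun a => φ a.succ)
      have h2 : P (fun a => C a (φ a.succ)) g := (Finset.mem_filter.1 h1).2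
      have h3 := (Finset.mem_filter.1 (h2 (φ 0))).2
      have h4 : (fun a => Fin.cons (α := fun _ => Fin t → Fin n) (fun i => g i) C a (φ a)) =
          Fin.cons (α := fun _ => Fin n) (g (φ 0)) (fun a => C a (φ a.succ)) := by
        funext a
        refine Fin.cases ?_ (fun b => ?_) a
        · simp
        · simp
      rw [h4]
      exact h3

end Pool.Agent.H.MP_4bcbbd_co.X
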