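import Pool.Agent.H.MP_4bcbbd_co.X.Gp
import Pool.Agent.H.MP_4bcbbd_co.X.Ramsey

/-!
MP_4bcbbd_co, exponential gap: the blown up configuration exists.
-/

set_option autoImplicit false

namespace Pool.Agent.H.MP_4bcbbd_co.X

open scoped BigOperators

/-- pushing a relation forward along an injective map. -/
private theorem exBlow_push {ι κ : Type} [Fintype ι] [Fintype κ] [DecidableEq ι] {d : ℕ}
    (y : ι → E d) (f : κ → ι) (hf : Function.Injective f) (z : κ → ℝ)
    (hz : ∑ i, z i • y (f i) = 0) :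
    ∃ z' : ι → ℝ, (∀ i, z' (f i) = z i) ∧ ∑ j, z' j • y j = 0 ∧ ∑ j, |z' j| = ∑ i, |z i| := by
  classical
  have h1 : ∀ i, (if h : ∃ i', f i' = f i then z h.choose else 0) = z i := by
    intro i
    have h : ∃ i', f i' = f i := ⟨i, rfl⟩
    rw [dif_pos h, hf h.choose_spec]
  refine ⟨fun j => if h : ∃ i, f i = j then z h.choose else 0, h1, ?_, ?_⟩
  · rw [← hz]
    symm
    refine Fintype.sum_of_injective f hf _ _ ?_ ?_
    · intro j hj
      have h : ¬ ∃ i, f i = j := fun ⟨i, hi⟩ => hj ⟨i, hi⟩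
      simp only [dif_neg h, zero_smul]
    · intro i
      simp only [h1 i]
  · symm
    refine Fintype.sum_of_injective f hf _ _ ?_ ?_
    · intro j hj
      have h : ¬ ∃ i, f i = j := fun ⟨i, hi⟩ => hj ⟨i, hi⟩
      simp only [dif_neg h, abs_zero]
    · intro i
      simp only [h1 i]

private theorem exBlow_sign {a b u v : ℝ} (h : a * u + b * v = 0) (hu : u ≠ 0) (hv : v ≠ 0)
    (hs : 0 < u ↔ 0 < v) (ha : a ≠ 0) : a * b < 0 := by
  have huv : 0 < u * v := by
    rcases lt_or_gt_of_ne hu with h1 | h1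
    · have h2 : v < 0 := by
        rcases lt_or_gt_of_ne hv with h3 | h3
        · exact h3
        · exact absurd (hs.2 h3) (not_lt.2 h1.le)
      exact mul_pos_of_neg_of_neg h1 h2
    · exact mul_pos h1 (hs.1 h1)
  have h1 : (a * b) * (u * v) = -((a * u) * (a * u)) := by
    have h2 : b * v = -(a * u) := by linarith
    calc (a * b) * (u * v) = (a * u) * (b * v) := by ring
      _ = -((a * u) * (a * u)) := by rw [h2]; ring
  have h2 : 0 < (a * u) * (a * u) := mul_self_pos.2 (mul_ne_zero ha hu)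
  by_contra hcon
  push Not at hcon
  have := mul_nonneg hcon huv.le
  linarith

/-- PROOF. `K := Finset (Fin m × Bool) × Fin m → Bool` (finite), `t` from
`path_ramsey m K`. -/
theorem exists_blow (d m : ℕ) : ∃ t : ℕ,
    ∀ {n : ℕ} (y : Fin n → E d), GP y →
    ∀ (Φ : Finset (Finset (Fin m) × Finset (Fin m))) (𝓕 : Finset (Finset (Fin n) × Finset (Fin n))),
    (∀ P ∈ 𝓕, Ineq y P.1 P.2) → ∀ C : Fin m → Fin t → Fin n, (∀ a, Function.Injective (C a)) →
    (∀ φ : Fin m → Fin t, Function.Injective (fun a => C a (φ a)) ∧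
      ∀ P ∈ Φ, (P.1.image (fun a => C a (φ a)), P.2.image (fun a => C a (φ a))) ∈ 𝓕) →
    ∃ Y : Fin m × Bool → E d, Blow Φ Y := by
  classical
  obtain ⟨t, ht0, ht⟩ := path_ramsey m (Finset (Fin m × Bool) × Fin m → Bool)
  refine ⟨t, ?_⟩
  intro n y hy Φ 𝓕 hF C hCinj hT
  have hφ : ∀ T : Finset (Fin n), ∃ φ : E d →ₗ[ℝ] ℝ, T.card + 1 = d →
      (∀ i ∈ T, φ (y i) = 0) ∧ ∀ i, i ∉ T → φ (y i) ≠ 0 := by
    intro T
    by_cases h : T.card + 1 = d
    · obtain ⟨φ, h1, h2⟩ := hy.functional T h
      exact ⟨φ, fun _ => ⟨h1, h2⟩⟩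
    · exact ⟨0, fun h' => absurd h' h⟩
  choose φ hφ using hφ
  obtain ⟨C', hC'⟩ : ∃ C' : Fin m → ℕ → Fin n,
      ∀ a j, C' a j = C a ⟨j % t, Nat.mod_lt _ ht0⟩ := ⟨_, fun _ _ => rfl⟩
  obtain ⟨pt, hpt⟩ : ∃ pt : (Fin m → ℕ × ℕ) → Fin m × Bool → Fin n,
      ∀ X i, pt X i = C' i.1 (if i.2 = true then (X i.1).2 else (X i.1).1) :=
    ⟨_, fun _ _ => rfl⟩
  obtain ⟨p, q, r, hpqr, hcol⟩ := ht (fun X Ta =>
    decide (0 < φ (Ta.1.image (pt X)) (y (C' Ta.2 (X Ta.2).1))))
  obtain ⟨X0, hX0⟩ : ∃ X0 : Fin m → ℕ × ℕ, X0 = fun b => (p b, q b) := ⟨_, rfl⟩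
  rw [← hX0] at hcol
  have hsign : ∀ (a : Fin m) (T : Finset (Fin m × Bool)), (a, false) ∉ T → (a, true) ∉ T →
      (0 < φ (T.image (pt X0)) (y (C' a (p a))) ↔ 0 < φ (T.image (pt X0)) (y (C' a (q a)))) := by
    intro a T h1 h2
    have h3 := congrFun (hcol a) (T, a)
    have h4 : T.image (pt (Function.update X0 a (q a, r a))) = T.image (pt X0) := by
      apply Finset.image_congr
      intro i hi
      have hne : i.1 ≠ a := by
        intro h
        obtain ⟨b, c⟩ := i
        have h' : b = a := h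
        subst h'
        cases c
        · exact h1 hi
        · exact h2 hi
      simp only [hpt, Function.update_of_ne hne]
    simp only [h4, Function.update_self, decide_eq_decide] at h3
    rw [hX0] at h3 ⊢
    exact h3
  obtain ⟨f, hf⟩ : ∃ f : Fin m × Bool → Fin n, f = pt X0 := ⟨_, rfl⟩
  have hfF : ∀ a, f (a, false) = C' a (p a) := by
    intro a
    rw [hf, hpt, hX0]
    simp
  have hfT : ∀ a, f (a, true) = C' a (q a) := by
    intro a
    rw [hf, hpt, hX0]
    simp
  -- the choice of a point in each class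
  have htr : ∀ c : Fin m → Bool, ∃ ψ : Fin m → Fin t, ∀ a, f (a, c a) = C a (ψ a) := by
    intro c
    refine ⟨fun a => if c a = true then ⟨q a % t, Nat.mod_lt _ ht0⟩
      else ⟨p a % t, Nat.mod_lt _ ht0⟩, fun a => ?_⟩
    cases h : c a
    · simp only [h, Bool.false_eq_true, if_false]
      rw [hfF, hC']
    · simp only [h, if_true]
      rw [hfT, hC']
  have hinj : Function.Injective f := by
    rintro ⟨a, b⟩ ⟨a', b'⟩ h
    by_cases haa : a = a'
    · subst haa
      have h5 : C' a (p a) ≠ C' a (q a) := by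
        intro h6
        rw [hC', hC'] at h6
        have h7 := hCinj a h6
        rw [Fin.mk.injEq] at h7
        obtain ⟨g1, g2, g3⟩ := hpqr a
        rw [Nat.mod_eq_of_lt (by omega), Nat.mod_eq_of_lt (by omega)] at h7
        omega
      cases b <;> cases b'
      · rfl
      · rw [hfF, hfT] at h
        exact absurd h h5
      · rw [hfF, hfT] at h
        exact absurd h.symm h5
      · rfl
    · exfalso
      obtain ⟨ψ, hψ⟩ := htr (fun x => if x = a then b else b')
      have h1 := (hT ψ).1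
      have h2 : C a (ψ a) = C a' (ψ a') := by
        have e1 := hψ a
        have e2 := hψ a'
        simp only [if_true] at e1
        rw [if_neg (fun h => haa h.symm)] at e2
        rw [← e1, ← e2]
        exact h
      exact haa (h1 h2)
  refine ⟨y ∘ f, hy.comp f hinj, ?_, ?_⟩
  · intro P hP c z hz
    obtain ⟨ψ, hψ⟩ := htr c
    obtain ⟨hψinj, hψP⟩ := hT ψ
    obtain ⟨z', h1, h2, h3⟩ := exBlow_push y f hinj z hz
    have h4 := hF _ (hψP P hP) z' h2
    simp only at h4
    have hL : ∑ i ∈ P.1.image (fun a => C a (ψ a)), sg (P.2.image fun a => C a (ψ a)) i * z' i =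
        ∑ a ∈ P.1, sg P.2 a * z (a, c a) := by
      rw [Finset.sum_image (fun a _ b _ hab => hψinj hab)]
      refine Finset.sum_congr rfl fun a _ => ?_
      rw [← hψ a, h1]
      congr 1
      unfold sg
      have h5 : f (a, c a) ∈ P.2.image (fun a => C a (ψ a)) ↔ a ∈ P.2 := by
        rw [hψ a, Finset.mem_image]
        constructor
        · rintro ⟨b, hb, hab⟩
          rw [← hψinj hab]
          exact hb
        · intro ha
          exact ⟨a, ha, rfl⟩
      by_cases h6 : a ∈ P.2
      · rw [if_pos (h5.2 h6), if_pos h6]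
      · rw [if_neg (fun h => h6 (h5.1 h)), if_neg h6]
    have hR : ∑ i ∈ (P.1.image (fun a => C a (ψ a)))ᶜ, |z' i| =
        ∑ i ∈ (P.1.image fun a => (a, c a))ᶜ, |z i| := by
      have e1 := Finset.sum_add_sum_compl (P.1.image (fun a => C a (ψ a))) (fun i => |z' i|)
      have e2 := Finset.sum_add_sum_compl (P.1.image fun a => (a, c a)) (fun i => |z i|)
      rw [Finset.sum_image (fun a _ b _ hab => hψinj hab)] at e1
      rw [Finset.sum_image (fun a _ b _ hab => (Prod.mk.inj hab).1)] at e2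
      have e3 : ∑ a ∈ P.1, |z' (C a (ψ a))| = ∑ a ∈ P.1, |z (a, c a)| :=
        Finset.sum_congr rfl fun a _ => by rw [← hψ a, h1]
      linarith
    rw [hL, hR] at h4
    exact h4
  · intro a T hTc hTf hTt z hz hsupp hex
    have hcard : (T.image f).card + 1 = d := by
      rw [Finset.card_image_of_injective _ hinj]
      exact hTc
    obtain ⟨g1, g2⟩ := hφ (T.image f) hcard
    have g3 : ∀ i, i ∉ T → φ (T.image f) (y (f i)) ≠ 0 := by
      intro i hi
      refine g2 _ fun h => ?_
      rw [Finset.mem_image] at h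
      obtain ⟨j, hj, hji⟩ := h
      exact hi (hinj hji ▸ hj)
    have g4 : ∀ i ∈ T, φ (T.image f) (y (f i)) = 0 := fun i hi =>
      g1 _ (Finset.mem_image_of_mem f hi)
    have h1 := congrArg (φ (T.image f)) hz
    rw [map_sum, map_zero] at h1
    have h2 : ∑ i, (φ (T.image f)) (z i • (y ∘ f) i) =
        z (a, false) * φ (T.image f) (y (f (a, false))) +
        z (a, true) * φ (T.image f) (y (f (a, true))) := by
      rw [Finset.sum_eq_add (a, false) (a, true)]
      · simp only [Function.comp_apply, map_smul, smul_eq_mul]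
      · intro h
        exact Bool.false_ne_true (Prod.mk.inj h).2
      · rintro i - ⟨hi1, hi2⟩
        by_cases hi : i ∈ T
        · simp only [Function.comp_apply, map_smul, smul_eq_mul, g4 i hi, mul_zero]
        · rw [hsupp i hi hi1 hi2, zero_smul, map_zero]
      · intro h
        exact absurd (Finset.mem_univ _) h
      · intro h
        exact absurd (Finset.mem_univ _) h
    rw [h2] at h1
    have hs := hsign a T hTf hTt
    rw [← hf, ← hfF, ← hfT] at hs
    refine exBlow_sign h1 (g3 _ hTf) (g3 _ hTt) hs fun h0 => ?_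
    rw [h0, zero_mul, zero_add] at h1
    have h0' : z (a, true) = 0 := (mul_eq_zero.1 h1).resolve_right (g3 _ hTt)
    obtain ⟨i, hi⟩ := hex
    refine hi (hy.comp f hinj z hz T (by omega) (fun j hj => ?_) i)
    by_cases hj1 : j = (a, false)
    · rw [hj1, h0]
    · by_cases hj2 : j = (a, true)
      · rw [hj2, h0']
      · exact hsupp j hj hj1 hj2

end Pool.Agent.H.MP_4bcbbd_co.X
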