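import Pool.Agent.H.MP_4bcbbd_co.X.Defs
import Pool.Agent.H.MP_4bcbbd_co.Reps

/-!
MP_4bcbbd_co, exponential gap: the signed index sets of the faces.
-/

set_option autoImplicit false

namespace Pool.Agent.H.MP_4bcbbd_co.X

open scoped BigOperators

open Classical in
/-- the indices occurring in `W` -/
noncomputable def FamilyS {d n : ℕ} (r : Fin n → E d) (W : Finset (E d)) : Finset (Fin n) :=
  Finset.univ.filter fun i => r i ∈ W ∨ -r i ∈ W

open Classical in
/-- the indices occurring in `W` with a positive sign -/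
noncomputable def FamilyA {d n : ℕ} (r : Fin n → E d) (W : Finset (E d)) : Finset (Fin n) :=
  Finset.univ.filter fun i => r i ∈ W

lemma Family_memS {d n : ℕ} (r : Fin n → E d) (W : Finset (E d)) (i : Fin n) :
    i ∈ FamilyS r W ↔ r i ∈ W ∨ -r i ∈ W := by
  unfold FamilyS
  rw [Finset.mem_filter]
  simp

lemma Family_memA {d n : ℕ} (r : Fin n → E d) (W : Finset (E d)) (i : Fin n) :
    i ∈ FamilyA r W ↔ r i ∈ W := by
  unfold FamilyA
  rw [Finset.mem_filter]
  simp

lemma Family_mem {d n : ℕ} (r : Fin n → E d) (W : Finset (E d)) (i : Fin n)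
    (hi : i ∈ FamilyS r W) : sg (FamilyA r W) i • r i ∈ W := by
  by_cases h : r i ∈ W
  · rw [sg_mem ((Family_memA r W i).2 h), one_smul]
    exact h
  · rw [sg_not (fun h' => h ((Family_memA r W i).1 h')), neg_one_smul]
    rcases (Family_memS r W i).1 hi with h1 | h1
    · exact absurd h1 h
    · exact h1

lemma Family_inj {d n : ℕ} {V : Finset (E d)} {r : Fin n → E d} (hr : Reps V r)
    (A : Finset (Fin n)) (i j : Fin n) (h : sg A i • r i = sg A j • r j) : i = j := by
  by_contra hij
  rcases sg_or A i with h1 | h1 <;> rcases sg_or A j with h2 | h2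
  · rw [h1, h2, one_smul, one_smul] at h
    exact hr.inj i j hij h
  · rw [h1, h2, one_smul, neg_one_smul] at h
    exact hr.anti i j h
  · rw [h1, h2, one_smul, neg_one_smul] at h
    exact hr.anti j i h.symm
  · rw [h1, h2, neg_one_smul, neg_one_smul, neg_inj] at h
    exact hr.inj i j hij h

lemma Family_image {d n : ℕ} {V : Finset (E d)} {r : Fin n → E d} (hr : Reps V r)
    {W : Finset (E d)} (hWV : W ⊆ V) (hanti : ∀ v ∈ W, -v ∉ W) (x : E d) :
    x ∈ W ↔ ∃ i ∈ FamilyS r W, sg (FamilyA r W) i • r i = x := by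
  constructor
  · intro hx
    obtain ⟨i, hi⟩ := hr.surj x (hWV hx)
    rcases hi with hi | hi
    · refine ⟨i, (Family_memS r W i).2 (Or.inl (hi ▸ hx)), ?_⟩
      rw [sg_mem ((Family_memA r W i).2 (hi ▸ hx)), one_smul, hi]
    · have h1 : -r i ∈ W := hi ▸ hx
      have h2 : r i ∉ W := by
        intro h2
        exact hanti _ h2 h1
      refine ⟨i, (Family_memS r W i).2 (Or.inr h1), ?_⟩
      rw [sg_not (fun h' => h2 ((Family_memA r W i).1 h')), neg_one_smul, hi]
  · rintro ⟨i, hi, rfl⟩
    exact Family_mem r W i hi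

/-- PROOF. Map `W ∈ fc V k` to `(S, A)`, `S = {i | r i ∈ W ∨ -r i ∈ W}`, `A = {i | r i ∈ W}`
(filters of `univ`, classical); `𝓕` is the image of `fc V k`. Let `l` be the supporting
functional of `W` (`l w = 1` on `W`, `< 1` on `V \ W`; `mem_fc`, `Spt`). `W` contains no `v` together with `-v`
(`l (-v) = -1`). So `W` is the image of `S` under the map `i ↦ sg A i • r i` (for `i ∈ S`: if `r i ∈ W` it
is `r i`, otherwise `-r i ∈ W`; surjective by `hr.surj`), which is injective by `hr.inj`, `hr.anti`
(if `r i = -r j` contradiction `anti`; `r i = r j` implies `i = j`). Hence `W` is determined by `(S, A)` (card of the image `𝓕` is `(fc V k).card`,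
`Finset.card_image_of_injOn`), `S.card = W.card = k`, `A ⊆ S`.
Face: the same `l`: `l (r i) = 1` if `r i ∈ W`, and `l (r i) = -1` if `-r i ∈ W`, so
`l (r i) = sg A i` on `S`; for `i ∉ S` both `r i, -r i ∈ V \ W` (`hr.mem`, `hV.neg`), so `|l (r i)| < 1` (`abs_lt`).
Linear independence: `hS W` gives that the coerced family `W → E d` is independent; compose with
the injective map `S → W`, `i ↦ sg A i • r i`, and remove the units `sg A i = ±1`
(`LinearIndependent.units_smul`, or directly with `Fintype.linearIndependent_iff`). -/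
theorem family {d n : ℕ} (V : Finset (E d)) (hV : CSData V) (hS : Simp V) (r : Fin n → E d)
    (hr : Reps V r) (k : ℕ) :
    ∃ 𝓕 : Finset (Finset (Fin n) × Finset (Fin n)), 𝓕 ⊆ pats n k ∧ 𝓕.card = (fc V k).card ∧
      ∀ P ∈ 𝓕, Face r P.1 P.2 ∧ LinearIndependent ℝ (fun i : P.1 => r i) := by
  classical
  have hanti : ∀ W ∈ fc V k, ∀ v ∈ W, -v ∉ W := by
    intro W hW v hv hv'
    obtain ⟨-, -, l, h1, -⟩ := mem_fc.1 hW
    have h2 := h1 v hv
    have h3 := h1 _ hv'
    rw [map_neg, h2] at h3
    norm_num at h3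
  refine ⟨(fc V k).image (fun W => (FamilyS r W, FamilyA r W)), ?_, ?_, ?_⟩
  · intro P hP
    obtain ⟨W, hW, rfl⟩ := Finset.mem_image.1 hP
    obtain ⟨hWV, hWk, -⟩ := mem_fc.1 hW
    rw [mem_pats]
    constructor
    · have h1 : W = (FamilyS r W).image (fun i => sg (FamilyA r W) i • r i) := by
        ext x
        rw [Finset.mem_image]
        exact Family_image hr hWV (hanti W hW) x
      show (FamilyS r W).card = k
      rw [← hWk]
      conv_rhs => rw [h1]
      rw [Finset.card_image_of_injective]
      intro i j hij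
      exact Family_inj hr _ i j hij
    · intro i hi
      exact (Family_memS r W i).2 (Or.inl ((Family_memA r W i).1 hi))
  · apply Finset.card_image_of_injOn
    intro W hW W' hW' hWW
    rw [Finset.mem_coe] at hW hW'
    obtain ⟨h1, h2⟩ := Prod.mk.inj hWW
    ext x
    rw [Family_image hr (mem_fc.1 hW).1 (hanti W hW) x,
      Family_image hr (mem_fc.1 hW').1 (hanti W' hW') x, h1, h2]
  · intro P hP
    obtain ⟨W, hW, rfl⟩ := Finset.mem_image.1 hP
    obtain ⟨hWV, hWk, hspt⟩ := mem_fc.1 hW
    constructor
    · obtain ⟨l, h1, h2⟩ := hspt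
      refine ⟨l, ?_, ?_⟩
      · intro i hi
        have h3 := h1 _ (Family_mem r W i hi)
        rw [map_smul, smul_eq_mul] at h3
        show l (r i) = sg (FamilyA r W) i
        rcases sg_or (FamilyA r W) i with h4 | h4 <;> rw [h4] at h3 ⊢ <;> linarith
      · intro i hi
        have h3 : r i ∉ W := fun h => hi ((Family_memS r W i).2 (Or.inl h))
        have h4 : -r i ∉ W := fun h => hi ((Family_memS r W i).2 (Or.inr h))
        have h5 := h2 _ (hr.mem i) h3
        have h6 := h2 _ (hV.neg _ (hr.mem i)) h4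
        rw [map_neg] at h6
        rw [abs_lt]
        constructor <;> linarith
    · have hli := hS W hWV hspt
      let f : FamilyS r W → W := fun i => ⟨sg (FamilyA r W) i • r i, Family_mem r W i i.2⟩
      have hf : Function.Injective f := by
        intro i j hij
        have h1 : sg (FamilyA r W) i • r i = sg (FamilyA r W) j • r j := congrArg Subtype.val hij
        exact Subtype.ext (Family_inj hr _ i j h1)
      have h1 := hli.comp f hf
      have h2 := h1.units_smul (fun i => Units.mk (sg (FamilyA r W) i) (sg (FamilyA r W) i)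
        (sg_mul_self _ _) (sg_mul_self _ _))
      convert h2 using 1
      funext i
      show r i = sg (FamilyA r W) i • (sg (FamilyA r W) i • r i)
      rw [smul_smul, sg_mul_self, one_smul]

end Pool.Agent.H.MP_4bcbbd_co.X
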