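import Pool.Agent.H.MP_4bcbbd_co.X.GpEx

/-!
MP_4bcbbd_co, exponential gap: the inequalities survive a small perturbation.
-/

set_option autoImplicit false

namespace Pool.Agent.H.MP_4bcbbd_co.X

open scoped BigOperators

/-- coordinate functionals of a linearly independent family. -/
theorem perturb_coord {n d : ℕ} (x : Fin n → E d) (S : Finset (Fin n))
    (hli : LinearIndependent ℝ (fun i : S => x i)) (i : Fin n) :
    ∃ g : E d →L[ℝ] ℝ, ∀ j ∈ S, g (x j) = if i = j then 1 else 0 := by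
  let a : Fin n → ℝ := fun j => if i = j then 1 else 0
  let g : Submodule.span ℝ (Set.range (fun i : S => x i)) →ₗ[ℝ] ℝ :=
    (Finsupp.linearCombination ℝ (fun w : S => a w)).comp hli.repr
  obtain ⟨m, hm⟩ := LinearMap.exists_extend g
  refine ⟨LinearMap.toContinuousLinearMap m, fun j hj => ?_⟩
  have h1 : x j ∈ Submodule.span ℝ (Set.range (fun i : S => x i)) :=
    Submodule.subset_span ⟨⟨j, hj⟩, rfl⟩
  have h2 := DFunLike.congr_fun hm ⟨x j, h1⟩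
  have h3 : hli.repr ⟨x j, h1⟩ = Finsupp.single ⟨j, hj⟩ 1 :=
    hli.repr_eq_single ⟨j, hj⟩ ⟨x j, h1⟩ rfl
  simp only [LinearMap.comp_apply, Submodule.subtype_apply, g, h3,
    Finsupp.linearCombination_single, one_smul] at h2
  simpa [a] using h2

theorem perturb_abs {n : ℕ} (T : Finset (Fin n)) (z a : Fin n → ℝ) (c : ℝ)
    (h : ∀ j ∈ T, |a j| ≤ c) : |∑ j ∈ T, z j * a j| ≤ (∑ j ∈ T, |z j|) * c := by
  refine (Finset.abs_sum_le_sum_abs _ _).trans ?_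
  rw [Finset.sum_mul]
  refine Finset.sum_le_sum fun j hj => ?_
  rw [abs_mul]
  exact mul_le_mul_of_nonneg_left (h j hj) (abs_nonneg _)

theorem perturb_delta (a b κ : ℝ) (ha : 0 < a) (hb : 0 < b) (hκ : 0 < κ) :
    ∃ δ : ℝ, 0 < δ ∧ δ ≤ 1 ∧ a * δ ≤ 1 / 2 ∧ b * δ ≤ κ := by
  refine ⟨min 1 (min (1 / 2 / a) (κ / b)), ?_, min_le_left _ _, ?_, ?_⟩
  · exact lt_min one_pos (lt_min (by positivity) (by positivity))
  · have h1 : min 1 (min (1 / 2 / a) (κ / b)) ≤ 1 / 2 / a :=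
      (min_le_right _ _).trans (min_le_left _ _)
    rw [le_div_iff₀ ha] at h1
    linarith
  · have h1 : min 1 (min (1 / 2 / a) (κ / b)) ≤ κ / b :=
      (min_le_right _ _).trans (min_le_right _ _)
    rw [le_div_iff₀ hb] at h1
    linarith

theorem perturb_kappa {n d : ℕ} (x : Fin n → E d) (S : Finset (Fin n)) (l : E d →L[ℝ] ℝ)
    (h : ∀ i, i ∉ S → |l (x i)| < 1) :
    ∃ κ : ℝ, 0 < κ ∧ ∀ i, i ∉ S → |l (x i)| ≤ 1 - κ := by
  have hev : ∀ᶠ κ : ℝ in nhdsWithin 0 (Set.Ioi 0), ∀ i, i ∉ S → |l (x i)| ≤ 1 - κ := by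
    rw [Filter.eventually_all]
    intro i
    by_cases hi : i ∈ S
    · exact Filter.Eventually.of_forall fun _ h => (h hi).elim
    · have h1 : (0 : ℝ) < 1 - |l (x i)| := sub_pos.2 (h i hi)
      have h2 : ∀ᶠ κ : ℝ in nhdsWithin 0 (Set.Ioi 0), κ < 1 - |l (x i)| :=
        (Filter.eventually_of_mem (Iio_mem_nhds h1) fun _ h => h).filter_mono
          nhdsWithin_le_nhds
      filter_upwards [h2] with κ hκ _
      linarith
  obtain ⟨κ, h1, h2⟩ := (hev.and self_mem_nhdsWithin).exists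
  exact ⟨κ, h2, h1⟩

/-- the estimate. -/
theorem perturb_main {n d : ℕ} (x y : Fin n → E d) (S A : Finset (Fin n)) (l : E d →L[ℝ] ℝ)
    (g : Fin n → E d →L[ℝ] ℝ) (hl : ∀ i ∈ S, l (x i) = sg A i)
    (hg : ∀ i, ∀ j ∈ S, g i (x j) = if i = j then 1 else 0) (κ δ M B : ℝ)
    (hM : 0 ≤ M) (hδ : 0 < δ)
    (h1 : ∀ i, i ∉ S → |l (x i)| ≤ 1 - κ)
    (h2 : ∀ v : E d, |l v| ≤ M * ‖v‖) (h3 : ∀ i, ∀ v : E d, |g i v| ≤ M * ‖v‖)
    (h4 : ∀ i j, |g i (y j)| ≤ B)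
    (h5 : ((S.card : ℝ) * M) * δ ≤ 1 / 2) (h6 : (M * (2 * S.card * B + 1)) * δ ≤ κ)
    (hy : ∀ i, ‖y i - x i‖ < δ) : Ineq y S A := by
  intro z hz
  have hP : 0 ≤ ∑ i ∈ S, |z i| := Finset.sum_nonneg fun _ _ => abs_nonneg _
  have hR : 0 ≤ ∑ i ∈ Sᶜ, |z i| := Finset.sum_nonneg fun _ _ => abs_nonneg _
  have key : ∀ f : E d →L[ℝ] ℝ, ∑ j ∈ S, z j * f (x j) +
      ∑ j ∈ S, z j * f (y j - x j) + ∑ j ∈ Sᶜ, z j * f (y j) = 0 := by
    intro f
    have e1 : f (∑ i, z i • y i) = 0 := by rw [hz, map_zero]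
    rw [map_sum, ← Finset.sum_add_sum_compl S] at e1
    rw [← Finset.sum_add_distrib, ← e1]
    congr 1
    · refine Finset.sum_congr rfl fun j _ => ?_
      rw [map_smul, map_sub, smul_eq_mul]
      ring
    · refine Finset.sum_congr rfl fun j _ => ?_
      rw [map_smul, smul_eq_mul]
  have hz1 : ∀ i ∈ S, |z i| ≤ (∑ j ∈ S, |z j|) * (M * δ) + (∑ j ∈ Sᶜ, |z j|) * B := by
    intro i hi
    have e1 := key (g i)
    have e2 : ∑ j ∈ S, z j * g i (x j) = z i := by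
      rw [Finset.sum_eq_single_of_mem i hi]
      · rw [hg i i hi, if_pos rfl, mul_one]
      · intro j hj hji
        rw [hg i j hj, if_neg (Ne.symm hji), mul_zero]
    rw [e2] at e1
    have e3 := perturb_abs S z (fun j => g i (y j - x j)) (M * δ) fun j _ =>
      (h3 i _).trans (mul_le_mul_of_nonneg_left (hy j).le hM)
    have e4 := perturb_abs Sᶜ z (fun j => g i (y j)) B fun j _ => h4 i j
    have e5 : z i = -(∑ j ∈ S, z j * g i (y j - x j)) - ∑ j ∈ Sᶜ, z j * g i (y j) := by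
      linarith
    rw [e5]
    calc |-(∑ j ∈ S, z j * g i (y j - x j)) - ∑ j ∈ Sᶜ, z j * g i (y j)| ≤
        |-(∑ j ∈ S, z j * g i (y j - x j))| + |∑ j ∈ Sᶜ, z j * g i (y j)| := abs_sub _ _
      _ ≤ _ := by rw [abs_neg]; exact add_le_add e3 e4
  have hsum : ∑ i ∈ S, |z i| ≤
      S.card * ((∑ j ∈ S, |z j|) * (M * δ) + (∑ j ∈ Sᶜ, |z j|) * B) := by
    have := Finset.sum_le_card_nsmul S (fun i => |z i|) _ hz1
    rwa [nsmul_eq_mul] at this
  have hP2 : ∑ i ∈ S, |z i| ≤ 2 * S.card * B * ∑ j ∈ Sᶜ, |z j| := by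
    nlinarith [mul_le_mul_of_nonneg_left h5 hP]
  have e1 := key l
  have e2 : ∑ j ∈ S, z j * l (x j) = ∑ j ∈ S, sg A j * z j := by
    refine Finset.sum_congr rfl fun j hj => ?_
    rw [hl j hj, mul_comm]
  rw [e2] at e1
  have e3 := perturb_abs S z (fun j => l (y j - x j)) (M * δ) fun j _ =>
    (h2 _).trans (mul_le_mul_of_nonneg_left (hy j).le hM)
  have e4 := perturb_abs Sᶜ z (fun j => l (y j)) (1 - κ + M * δ) fun j hj => by
    have e5 : l (y j) = l (x j) + l (y j - x j) := by rw [map_sub]; ring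
    rw [e5]
    refine (abs_add_le _ _).trans (add_le_add (h1 j (Finset.mem_compl.1 hj)) ?_)
    exact (h2 _).trans (mul_le_mul_of_nonneg_left (hy j).le hM)
  have e5 : ∑ j ∈ S, sg A j * z j = -(∑ j ∈ S, z j * l (y j - x j)) -
      ∑ j ∈ Sᶜ, z j * l (y j) := by
    linarith
  have e6 : |∑ j ∈ S, sg A j * z j| ≤ (∑ j ∈ S, |z j|) * (M * δ) +
      (∑ j ∈ Sᶜ, |z j|) * (1 - κ + M * δ) := by
    rw [e5]
    refine (abs_sub _ _).trans ?_
    rw [abs_neg]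
    exact add_le_add e3 e4
  have hMδ : 0 ≤ M * δ := mul_nonneg hM hδ.le
  have e7 := mul_le_mul_of_nonneg_right hP2 hMδ
  have e8 := mul_le_mul_of_nonneg_left h6 hR
  nlinarith

/-- PROOF. Let `l` be the functional of `Face x S A`; there is `κ ∈ (0,1)` with `|l (x i)| ≤ 1 - κ` for
`i ∉ S` (finitely many). By linear independence there are continuous functionals `g i`, `i ∈ S`, with `g i (x j) = if i = j then 1 else 0`
for `j ∈ S` (extend the coordinate functionals of the span, cf. `lp_exists_functional` in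
`LP.lean`; `LinearMap.exists_extend`, `LinearMap.toContinuousLinearMap`). Let `M ≥ 1` bound the
norms of `l` and of all `g i`, and `B ≥ 1` bound all `|g i (y j)|`, `j ∉ S`, when `δ ≤ 1`: `|g i (y j)| ≤ M (‖x j‖ + 1) ≤ B`. Let `K = S.card + 1`.
For a relation `∑ z_j y_j = 0` put `P = ∑_{S} |z_j|`, `R = ∑_{Sᶜ} |z_j|`. Applying `g i`
(`i ∈ S`): `0 = z_i + ∑_{j ∈ S} z_j g_i(y_j - x_j) + ∑_{j ∉ S} z_j g_i(y_j)`, so
`|z_i| ≤ M δ P + B R`; sum over `i ∈ S`: `P ≤ K M δ P + K B R`, so `P ≤ 2 K B R` if `K M δ ≤ 1/2`.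
Applying `l`: `0 = ∑_S sg A j z_j + ∑_S z_j l(y_j - x_j) + ∑_{Sᶜ} z_j (l(x_j) + l(y_j - x_j))`,
so `|∑_S sg A j z_j| ≤ M δ P + (1 - κ + M δ) R ≤ (2 K B M δ + 1 - κ + M δ) R ≤ R` if
`M δ (2 K B + 1) ≤ κ`. -/
theorem perturb_one {n d : ℕ} (x : Fin n → E d) (S A : Finset (Fin n)) (hf : Face x S A)
    (hli : LinearIndependent ℝ (fun i : S => x i)) :
    ∃ δ : ℝ, 0 < δ ∧ ∀ y : Fin n → E d, (∀ i, ‖y i - x i‖ < δ) → Ineq y S A := by
  obtain ⟨l, hl1, hl2⟩ := hf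
  obtain ⟨κ, hκ, hκ2⟩ := perturb_kappa x S l hl2
  choose g hg using perturb_coord x S hli
  have hg0 : 0 ≤ ∑ i, ‖g i‖ := Finset.sum_nonneg fun _ _ => norm_nonneg _
  have hx0 : 0 ≤ ∑ i, ‖x i‖ := Finset.sum_nonneg fun _ _ => norm_nonneg _
  obtain ⟨M, hMdef⟩ : ∃ M : ℝ, M = 1 + ‖l‖ + ∑ i, ‖g i‖ := ⟨_, rfl⟩
  have hM : 1 ≤ M := by
    have := norm_nonneg l
    linarith
  have hM1 : ∀ v : E d, |l v| ≤ M * ‖v‖ := by
    intro v
    rw [← Real.norm_eq_abs]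
    refine (l.le_opNorm v).trans (mul_le_mul_of_nonneg_right ?_ (norm_nonneg _))
    linarith
  have hM2 : ∀ i, ∀ v : E d, |g i v| ≤ M * ‖v‖ := by
    intro i v
    rw [← Real.norm_eq_abs]
    refine ((g i).le_opNorm v).trans (mul_le_mul_of_nonneg_right ?_ (norm_nonneg _))
    have h1 : ‖g i‖ ≤ ∑ i, ‖g i‖ :=
      Finset.single_le_sum (f := fun i => ‖g i‖) (fun _ _ => norm_nonneg _) (Finset.mem_univ i)
    have := norm_nonneg l
    linarith
  obtain ⟨B, hBdef⟩ : ∃ B : ℝ, B = M * (∑ i, ‖x i‖ + 1) := ⟨_, rfl⟩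
  have hB : 0 ≤ B := by rw [hBdef]; positivity
  obtain ⟨δ, hδ0, hδ1, hδ2, hδ3⟩ := perturb_delta ((S.card + 1 : ℝ) * M)
    (M * (2 * S.card * B + 1)) κ (by positivity) (by positivity) hκ
  refine ⟨δ, hδ0, fun y hy => ?_⟩
  refine perturb_main x y S A l g hl1 hg κ δ M B (by linarith) hδ0 hκ2 hM1 hM2 ?_ ?_ hδ3 hy
  · intro i j
    refine (hM2 i _).trans ?_
    rw [hBdef]
    refine mul_le_mul_of_nonneg_left ?_ (by linarith)
    have h1 : ‖x j‖ ≤ ∑ i, ‖x i‖ :=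
      Finset.single_le_sum (f := fun i => ‖x i‖) (fun _ _ => norm_nonneg _) (Finset.mem_univ j)
    have h2 : ‖y j‖ ≤ ‖x j‖ + ‖y j - x j‖ := by
      have := norm_add_le (x j) (y j - x j)
      rwa [add_sub_cancel] at this
    have := hy j
    linarith
  · nlinarith [mul_nonneg (by linarith : (0 : ℝ) ≤ M) hδ0.le]

/-- PROOF: take the minimum `δ` of the numbers from `perturb_one` over the finite family (induction on
the Finset, or `Finset.exists_min...`), then `exists_gp`. -/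
theorem perturb {n d : ℕ} (x : Fin n → E d) (𝓕 : Finset (Finset (Fin n) × Finset (Fin n)))
    (h : ∀ P ∈ 𝓕, Face x P.1 P.2 ∧ LinearIndependent ℝ (fun i : P.1 => x i)) :
    ∃ y : Fin n → E d, GP y ∧ ∀ P ∈ 𝓕, Ineq y P.1 P.2 := by
  classical
  have hδ : ∃ δ : ℝ, 0 < δ ∧ ∀ y : Fin n → E d, (∀ i, ‖y i - x i‖ < δ) →
      ∀ P ∈ 𝓕, Ineq y P.1 P.2 := by
    induction 𝓕 using Finset.induction_on with
    | empty => exact ⟨1, one_pos, fun y _ P hP => absurd hP (Finset.notMem_empty P)⟩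
    | insert P 𝓕 _ ih =>
      obtain ⟨δ, h1, h2⟩ := ih fun P hP => h P (Finset.mem_insert_of_mem hP)
      obtain ⟨h3, h4⟩ := h P (Finset.mem_insert_self _ _)
      obtain ⟨δ', h5, h6⟩ := perturb_one x P.1 P.2 h3 h4
      refine ⟨min δ δ', lt_min h1 h5, fun y hy Q hQ => ?_⟩
      rcases Finset.mem_insert.1 hQ with rfl | hQ
      · exact h6 y fun i => (hy i).trans_le (min_le_right _ _)
      · exact h2 y (fun i => (hy i).trans_le (min_le_left _ _)) Q hQ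
  obtain ⟨δ, h1, h2⟩ := hδ
  obtain ⟨y, h3, h4⟩ := exists_gp x δ h1
  exact ⟨y, h4, h2 y h3⟩

end Pool.Agent.H.MP_4bcbbd_co.X
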