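import Pool.Agent.H.MP_4bcbbd_co.X.Abstract
import Pool.Agent.H.MP_4bcbbd_co.X.BlowAbs
import Pool.Agent.H.MP_4bcbbd_co.X.ExBlow
import Pool.Agent.H.MP_4bcbbd_co.X.Box
import Pool.Agent.H.MP_4bcbbd_co.X.Avg
import Pool.Agent.H.MP_4bcbbd_co.X.Family
import Pool.Agent.H.MP_4bcbbd_co.X.Perturb

/-!
MP_4bcbbd_co, exponential gap: the bound for the number of faces with `k` vertices.
-/

set_option autoImplicit false

namespace Pool.Agent.H.MP_4bcbbd_co.X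

open scoped BigOperators

/-- numerics. -/
theorem numeric (k : ℕ) : ∃ s : ℕ, 100 * s ≤ k ∧ (∀ r : ℕ, 1000 * r ≤ k → 10 * r ≤ s) ∧
    2 * Real.exp (-(s : ℝ) / 40) < 3 * Real.exp (-(k : ℝ) / 4000) := by
  refine ⟨k / 100, Nat.mul_div_le k 100, fun r hr => by omega, ?_⟩
  have h1 : (k : ℝ) ≤ 100 * ((k / 100 : ℕ) : ℝ) + 100 := by
    have : k ≤ 100 * (k / 100) + 100 := by omega
    exact_mod_cast this
  have h2 : -((k / 100 : ℕ) : ℝ) / 40 ≤ -(k : ℝ) / 4000 + 1 / 40 := by linarith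
  have h3 : Real.exp (-((k / 100 : ℕ) : ℝ) / 40) ≤
      Real.exp (-(k : ℝ) / 4000) * Real.exp (1 / 40) := by
    rw [← Real.exp_add]
    exact Real.exp_le_exp.2 h2
  have h4 : Real.exp (1 / 40) < 3 / 2 := by
    have e1 : (1 : ℝ) - 1 / 40 ≤ Real.exp (-(1 / 40)) := by
      have := Real.add_one_le_exp (-(1 / 40) : ℝ)
      linarith
    have e2 : Real.exp (1 / 40) * Real.exp (-(1 / 40)) = 1 := by
      rw [← Real.exp_add]
      norm_num
    have e3 := Real.exp_pos (1 / 40 : ℝ)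
    nlinarith
  have h5 := Real.exp_pos (-(k : ℝ) / 4000)
  nlinarith

/-- the bound for the number of faces with `k` vertices. -/
theorem fc_bound (k r : ℕ) (hk : 1 ≤ k) (hr : 1000 * r ≤ k) {d : ℕ} (hd : d = 2 * k + r) :
    ∃ N : ℕ, ∀ n : ℕ, N ≤ n → ∀ V : Finset (E d), CSData V → Simp V → V.card = 2 * n →
      ((fc V k).card : ℝ) ≤
        3 * Real.exp (-(k : ℝ) / 4000) * 2 ^ k * (n.choose k : ℝ) := by
  obtain ⟨s, hs1, hs2, hs3⟩ := numeric k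
  obtain ⟨t, ht⟩ := exists_blow d (k + s)
  obtain ⟨δ, hδ, N1, hN1⟩ := avg (k + s) k (by omega) (2 * Real.exp (-(s : ℝ) / 40))
    (3 * Real.exp (-(k : ℝ) / 4000)) (by positivity) hs3
  obtain ⟨N2, hN2⟩ := box (k + s) t δ hδ
  refine ⟨max N1 N2, fun n hn V hV hS hc => ?_⟩
  by_contra hcon
  push Not at hcon
  obtain ⟨x, hx⟩ := exists_reps V hV n hc
  obtain ⟨𝓕, h1, h2, h3⟩ := family V hV hS x hx k
  obtain ⟨y, hy, hyF⟩ := perturb x 𝓕 h3
  obtain ⟨Φ, hΦ1, hΦ2, T, hT1, hT2⟩ := hN1 n (le_trans (le_max_left _ _) hn) 𝓕 h1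
    (by rw [h2]; exact hcon)
  obtain ⟨C, hC1, hC2⟩ := hN2 n (le_trans (le_max_right _ _) hn) T hT1
  obtain ⟨Y, hY⟩ := ht y hy Φ 𝓕 hyF C hC1 (fun φ => hT2 _ (hC2 φ))
  obtain ⟨W, hW, hA⟩ := blow_abs hd rfl (hs2 r hr) hY
  have h4 := abstract_bound hk hs1 Φ hΦ1 W hW hA
  linarith

/-- the trivial bound. -/
theorem fc_trivial {d n : ℕ} (k : ℕ) (V : Finset (E d)) (hV : CSData V) (hS : Simp V)
    (hn : V.card = 2 * n) : ((fc V k).card : ℝ) ≤ 2 ^ k * (n.choose k : ℝ) := by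
  obtain ⟨x, hx⟩ := exists_reps V hV n hn
  obtain ⟨𝓕, h1, h2, -⟩ := family V hV hS x hx k
  have h3 := Finset.card_le_card h1
  rw [card_pats, h2] at h3
  exact_mod_cast h3

end Pool.Agent.H.MP_4bcbbd_co.X
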