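import Mathlib

/-!
MP_4bcbbd_co, exponential gap: scalar inequalities of the energy method.
-/

set_option autoImplicit false

namespace Pool.Agent.H.MP_4bcbbd_co.X

/-- `√2 - 1`. -/
noncomputable def cc : ℝ := Real.sqrt 2 - 1

/-- the rescaled energy. -/
noncomputable def phi (E : ℝ) : ℝ := E / (1 + cc * E)

theorem cc_pos : 0 < cc := by
  unfold cc
  have h : (1 : ℝ) < Real.sqrt 2 := by
    rw [Real.lt_sqrt (by norm_num)]
    norm_num
  linarith

theorem cc_sq : cc ^ 2 = 1 - 2 * cc := by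
  unfold cc
  have h : Real.sqrt 2 ^ 2 = 2 := Real.sq_sqrt (by norm_num)
  nlinarith

/-- PROOF: `1 + cc = √2`. -/
theorem phi_one : phi 1 = 1 / Real.sqrt 2 := by
  unfold phi cc
  congr 1
  ring

/-- PROOF: cross-multiplication, `E (1 + cc E') ≤ E' (1 + cc E)`. -/
theorem phi_mono {E E' : ℝ} (h0 : 0 ≤ E) (h : E ≤ E') : phi E ≤ phi E' := by
  unfold phi
  have hc := cc_pos
  have h1 : 0 < 1 + cc * E := by positivity
  have h2 : 0 ≤ cc * E' := mul_nonneg hc.le (h0.trans h)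
  have h3 : 0 < 1 + cc * E' := by linarith
  rw [div_le_div_iff₀ h1 h3]
  nlinarith

theorem phi_nonneg {E : ℝ} (h0 : 0 ≤ E) : 0 ≤ phi E := by
  unfold phi
  have hc := cc_pos
  positivity

/-- PROOF: field_simp, ring. -/
theorem phi_add {E δ : ℝ} (h0 : 0 ≤ E) (hδ : 0 ≤ δ) :
    phi (E + δ) - phi E = δ / ((1 + cc * E) * (1 + cc * E + cc * δ)) := by
  unfold phi
  have hc := cc_pos
  have h1 : 0 < 1 + cc * E := by positivity
  have h2 : 0 < 1 + cc * E + cc * δ := by positivity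
  have h3 : 1 + cc * (E + δ) = 1 + cc * E + cc * δ := by ring
  rw [h3, div_sub_div _ _ h2.ne' h1.ne', div_eq_div_iff (by positivity) (by positivity)]
  ring

/-- PROOF: `exp (-y) ≤ 1 / (1 + y)` for `y ≥ 0` (`Real.add_one_le_exp`), with
`y = lam * δ / (A (A + cc δ))`, `A = 1 + cc E`, `δ = w / x` (`phi_add`):
`1/(1+y) = A (A + cc δ)/(A (A + cc δ) + lam δ) = 1 - lam δ/(A² + (cc A + lam) δ)
= 1 - lam w/(A² x + (cc A + lam) w)`. -/
theorem exp_phi_le {lam E x w : ℝ} (hlam : 0 ≤ lam) (hE : 0 ≤ E) (hx : 0 < x) (hw : 0 ≤ w) :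
    Real.exp (-lam * (phi (E + w / x) - phi E)) ≤
      1 - lam * w / ((1 + cc * E) ^ 2 * x + (cc * (1 + cc * E) + lam) * w) := by
  have hc := cc_pos
  have hδ : 0 ≤ w / x := by positivity
  rw [phi_add hE hδ]
  obtain ⟨A, hA⟩ : ∃ A, A = 1 + cc * E := ⟨_, rfl⟩
  have hA0 : 0 < A := by rw [hA]; positivity
  rw [← hA]
  have h1 : 0 < A + cc * (w / x) := by positivity
  have h2 : 0 < A * (A + cc * (w / x)) := by positivity
  obtain ⟨y, hy⟩ : ∃ y, y = lam * (w / x / (A * (A + cc * (w / x)))) := ⟨_, rfl⟩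
  have hy0 : 0 ≤ y := by rw [hy]; positivity
  have h3 : Real.exp (-lam * (w / x / (A * (A + cc * (w / x))))) = (Real.exp y)⁻¹ := by
    rw [← Real.exp_neg, hy]
    congr 1
    ring
  rw [h3]
  have h4 : y + 1 ≤ Real.exp y := Real.add_one_le_exp y
  have h5 : (Real.exp y)⁻¹ ≤ (y + 1)⁻¹ := by
    apply inv_anti₀ (by linarith) h4
  refine h5.trans (le_of_eq ?_)
  have h6 : 0 < A ^ 2 * x + (cc * A + lam) * w := by positivity
  have h7 : y = lam * w / (A * (A * x + cc * w)) := by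
    rw [hy]
    have h8 : A * x + cc * w ≠ 0 := by positivity
    field_simp
  have h9 : 0 < A * (A * x + cc * w) := by positivity
  have h10 : y + 1 = (A ^ 2 * x + (cc * A + lam) * w) / (A * (A * x + cc * w)) := by
    rw [h7, div_add_one h9.ne']
    congr 1
    ring
  rw [h10, inv_div, eq_sub_iff_add_eq, ← add_div, div_eq_one_iff_eq h6.ne']
  ring

/-- PROOF: with `v = u²`, `(1-u)² + (1+u)² = 2 (1+v)`, `(1-u)² (1+u)² = (1-v)²`, the right side is
`2 (X (1+v) + N (1-v)²) / (X² + 2 N X (1+v) + N² (1-v)²)`; cross-multiplying, the difference is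
`N X (1-v)² + N² (1+v) (1-v)² ≥ 0`. (`rw [div_add_div _ _, div_le_div_iff₀]`, then `nlinarith` or an
explicit identity for the difference.) -/
theorem pair_ineq {X N u : ℝ} (hX : 0 < X) (hN : 0 ≤ N) :
    2 * (1 + u ^ 2) / (X + 2 * N * (1 + u ^ 2)) ≤
      (1 - u) ^ 2 / (X + N * (1 - u) ^ 2) + (1 + u) ^ 2 / (X + N * (1 + u) ^ 2) := by
  have h1 : 0 < X + N * (1 - u) ^ 2 := by positivity
  have h2 : 0 < X + N * (1 + u) ^ 2 := by positivity
  have h3 : 0 < X + 2 * N * (1 + u ^ 2) := by positivity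
  rw [div_add_div _ _ h1.ne' h2.ne', div_le_div_iff₀ h3 (by positivity)]
  have h4 : 0 ≤ N * X * (1 - u ^ 2) ^ 2 := by positivity
  have h5 : 0 ≤ N ^ 2 * (1 + u ^ 2) * (1 - u ^ 2) ^ 2 := by positivity
  have h6 : ((1 - u) ^ 2 * (X + N * (1 + u) ^ 2) + (X + N * (1 - u) ^ 2) * (1 + u) ^ 2) *
      (X + 2 * N * (1 + u ^ 2)) - 2 * (1 + u ^ 2) *
      ((X + N * (1 - u) ^ 2) * (X + N * (1 + u) ^ 2)) =
      2 * (N * X * (1 - u ^ 2) ^ 2) + 2 * (N ^ 2 * (1 + u ^ 2) * (1 - u ^ 2) ^ 2) := by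
    ring
  linarith

/-- PROOF: square: `(1 + cc v)² = 1 + 2 cc v + cc² v² ≤ 1 + 2 cc v + (1 - 2 cc) v = 1 + v`
(`Real.le_sqrt`). -/
theorem sqrt_ineq {v : ℝ} (h0 : 0 ≤ v) (h1 : v ≤ 1) : 1 + cc * v ≤ Real.sqrt (1 + v) := by
  apply Real.le_sqrt_of_sq_le
  have h2 := cc_sq
  have h3 := cc_pos
  have h4 : cc ^ 2 * v ^ 2 ≤ cc ^ 2 * v := by
    apply mul_le_mul_of_nonneg_left _ (by positivity)
    nlinarith
  have h5 : (1 + cc * v) ^ 2 = 1 + 2 * cc * v + cc ^ 2 * v ^ 2 := by ring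
  have h6 : cc ^ 2 * v = v - 2 * cc * v := by rw [h2]; ring
  linarith

/-- PROOF: `2 cc (1 + E)/A ≤ 2 cc * 2/√2 = 2 cc √2 ≤ 6/5` (`(1+E)/(1+cc E)` is increasing;
`10 cc (1 + E) ≤ 6 (1 + cc E)` for `E ≤ 1`: it suffices that `20 cc ≤ 6 + 6 cc`, i.e. `14 cc ≤ 6`, and `cc < 0.4143`), and
`2 (1 + E) ≤ (21/10) (1 + cc E)²`: `(21/10)(1 + 2 cc E + cc² E²) - 2 - 2 E > 0`, a quadratic polynomial in `E` with
negative discriminant (`cc² = 1 - 2 cc`, `0.4142 < cc < 0.4143`; nlinarith with the square of `E - 0.36`). -/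
theorem final_ineq {E lam : ℝ} (h0 : 0 ≤ E) (h1 : E ≤ 1) (hlam : 0 ≤ lam) :
    2 * (cc * (1 + cc * E) + lam) * (1 + E) / (1 + cc * E) ^ 2 ≤ 21 / 10 * lam + 6 / 5 := by
  have hc := cc_pos
  have hs : (4142 / 10000 : ℝ) < cc := by
    unfold cc
    have : (14142 / 10000 : ℝ) < Real.sqrt 2 := by
      rw [Real.lt_sqrt (by norm_num)]
      norm_num
    linarith
  have hs' : cc < (4143 / 10000 : ℝ) := by
    unfold cc
    have : Real.sqrt 2 < (14143 / 10000 : ℝ) := by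
      rw [Real.sqrt_lt' (by norm_num)]
      norm_num
    linarith
  have hsq := cc_sq
  have hA : 0 < 1 + cc * E := by positivity
  rw [div_le_iff₀ (by positivity)]
  have h2 : 10 * cc * (1 + E) ≤ 6 * (1 + cc * E) := by
    have : cc * E ≤ cc := by nlinarith
    nlinarith
  have h3 : 20 * (1 + E) ≤ 21 * (1 + cc * E) ^ 2 := by
    have h4 : (1 + cc * E) ^ 2 = 1 + 2 * cc * E + (1 - 2 * cc) * E ^ 2 := by
      rw [← hsq]
      ring
    rw [h4]
    have h5 : 2 * cc * E + (1 - 2 * cc) * E ^ 2 = E ^ 2 + 2 * cc * (E * (1 - E)) := by ring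
    have h6 : (4142 / 10000 : ℝ) * (E * (1 - E)) ≤ cc * (E * (1 - E)) := by
      apply mul_le_mul_of_nonneg_right hs.le
      exact mul_nonneg h0 (by linarith)
    nlinarith [sq_nonneg (E - 36 / 100)]
  have h7 : lam * (20 * (1 + E)) ≤ lam * (21 * (1 + cc * E) ^ 2) :=
    mul_le_mul_of_nonneg_left h3 hlam
  have h8 : (1 + cc * E) * (10 * cc * (1 + E)) ≤ (1 + cc * E) * (6 * (1 + cc * E)) :=
    mul_le_mul_of_nonneg_left h2 hA.le
  nlinarith

end Pool.Agent.H.MP_4bcbbd_co.X
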