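import Pool.Agent.H.MP_4bcbbd_co.X.Defs
import Pool.Agent.H.MP_4bcbbd_co.X.E1

/-!
MP_4bcbbd_co, exponential gap: the data for the energy method.
-/

set_option autoImplicit false

namespace Pool.Agent.H.MP_4bcbbd_co.X

open scoped BigOperators

/-- the data: `K` the admissible vectors, `F a b` those with sign `b` and contact of order two at
the class `a`, `V B` the space of differences of vectors with the same contacts in `B`. -/
structure EnData (m d k : ℕ) (Φ : Finset (Finset (Fin m) × Finset (Fin m))) where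
  K : Set (EuclideanSpace ℝ (Fin m))
  F : Fin m → Bool → Set (EuclideanSpace ℝ (Fin m))
  V : Finset (Fin m) → Submodule ℝ (EuclideanSpace ℝ (Fin m))
  K_convex : Convex ℝ K
  K_closed : IsClosed K
  F_convex : ∀ a b, Convex ℝ (F a b)
  F_closed : ∀ a b, IsClosed (F a b)
  K_le : ∀ g ∈ K, ∀ j, |g j| ≤ 1
  F_val : ∀ (a : Fin m) (b : Bool), ∀ g ∈ F a b, g a = if b then (1 : ℝ) else -1
  V_dim : ∀ B : Finset (Fin m), B.card ≤ k → Module.finrank ℝ (V B) + 2 * B.card ≤ d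
  diff : ∀ (B : Finset (Fin m)) (σ : Fin m → Bool) (g g' : EuclideanSpace ℝ (Fin m)),
    g ∈ K → g' ∈ K → (∀ a ∈ B, g ∈ F a (σ a)) → (∀ a ∈ B, g' ∈ F a (σ a)) → g - g' ∈ V B
  face : ∀ P ∈ Φ, ∃ g ∈ K, ∀ a ∈ P.1, g ∈ F a (decide (a ∈ P.2))

variable {m d k : ℕ} {Φ : Finset (Finset (Fin m) × Finset (Fin m))}

/-- the vectors with the contacts `(B, σ)`. -/
def EnData.KB (D : EnData m d k Φ) (B : Finset (Fin m)) (σ : Fin m → Bool) :
    Set (EuclideanSpace ℝ (Fin m)) :=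
  {g | g ∈ D.K ∧ ∀ a ∈ B, g ∈ D.F a (σ a)}

/-- the sequence `c` of signed classes continues `(B, σ)` successfully. -/
def EnData.Suc (D : EnData m d k Φ) (B : Finset (Fin m)) (σ : Fin m → Bool) {i : ℕ}
    (c : Fin i → Fin m × Bool) : Prop :=
  Function.Injective (fun l => (c l).1) ∧ (∀ l, (c l).1 ∉ B) ∧
    ∃ g ∈ D.KB B σ, ∀ l, g ∈ D.F (c l).1 (c l).2

/-- the bound. -/
noncomputable def bnd (d k : ℕ) (lam : ℝ) : ℝ :=
  Real.exp (lam / Real.sqrt 2) *
    ∏ l ∈ Finset.range k, (1 - lam / ((d : ℝ) - 2 * l + 21 / 10 * lam + 6 / 5))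

/-- PROOF: intersection of convex sets. -/
theorem EnData.KB_convex (D : EnData m d k Φ) (B : Finset (Fin m)) (σ : Fin m → Bool) :
    Convex ℝ (D.KB B σ) := by
  have h : D.KB B σ = D.K ∩ ⋂ a ∈ B, D.F a (σ a) := by
    ext g
    simp [EnData.KB]
  rw [h]
  exact D.K_convex.inter (convex_iInter fun a => convex_iInter fun _ => D.F_convex _ _)

theorem EnData.KB_closed (D : EnData m d k Φ) (B : Finset (Fin m)) (σ : Fin m → Bool) :
    IsClosed (D.KB B σ) := by
  have h : D.KB B σ = D.K ∩ ⋂ a ∈ B, D.F a (σ a) := by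
    ext g
    simp [EnData.KB]
  rw [h]
  exact D.K_closed.inter (isClosed_iInter fun a => isClosed_iInter fun _ => D.F_closed _ _)

end Pool.Agent.H.MP_4bcbbd_co.X
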