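import Pool.Agent.H.MP_4bcbbd_co.X.HB
import Pool.Agent.H.MP_4bcbbd_co.X.EnDefs

/-!
MP_4bcbbd_co, exponential gap: the energy data of a blown up configuration.
-/

set_option autoImplicit false

namespace Pool.Agent.H.MP_4bcbbd_co.X

open scoped BigOperators

/-- dimension of the functionals vanishing at the points of the classes in `B`. PROOF: the `2 |B| ≤ d` vectors `Y (a, b)`, `a ∈ B`, are linearly
independent (`GP`, extend by zero), so their span `W` has finrank `2 |B|` (`finrank_span_eq_card`), and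
`finrank W + finrank W.dualAnnihilator = d` (`Subspace.finrank_add_finrank_dualAnnihilator_eq`); the submodule in question is
contained in `W.dualAnnihilator` (`Submodule.finrank_mono`). -/
theorem vanish_dim {d m : ℕ} {Y : Fin m × Bool → E d} (hY : GP Y) (B : Finset (Fin m))
    (hB : 2 * B.card ≤ d) (U : Submodule ℝ (E d →ₗ[ℝ] ℝ))
    (hU : ∀ f ∈ U, ∀ a ∈ B, ∀ b, f (Y (a, b)) = 0) : Module.finrank ℝ U + 2 * B.card ≤ d := by
  classical
  have hc : (B ×ˢ (Finset.univ : Finset Bool)).card = 2 * B.card := by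
    rw [Finset.card_product, Finset.card_univ, Fintype.card_bool, mul_comm]
  have hli := Gp_li hY (B ×ˢ (Finset.univ : Finset Bool)) (by rw [hc]; exact hB)
  have h1 := finrank_span_eq_card hli
  rw [Fintype.card_coe, hc] at h1
  have h2 := Subspace.finrank_add_finrank_dualAnnihilator_eq
    (Submodule.span ℝ (Set.range fun i : ↥(B ×ˢ (Finset.univ : Finset Bool)) => Y i))
  have h3 : Module.finrank ℝ (E d) = d := finrank_euclideanSpace_fin
  rw [h1, h3] at h2
  have h4 : U ≤ (Submodule.span ℝ
      (Set.range fun i : ↥(B ×ˢ (Finset.univ : Finset Bool)) => Y i)).dualAnnihilator := by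
    intro f hf
    rw [Submodule.mem_dualAnnihilator]
    intro w hw
    have h5 : Submodule.span ℝ
        (Set.range fun i : ↥(B ×ˢ (Finset.univ : Finset Bool)) => Y i) ≤ LinearMap.ker f := by
      rw [Submodule.span_le]
      rintro _ ⟨⟨⟨a, b⟩, hab⟩, rfl⟩
      exact LinearMap.mem_ker.2 (hU f hf a (Finset.mem_product.1 hab).1 b)
    exact LinearMap.mem_ker.1 (h5 hw)
  refine le_trans (Nat.add_le_add_right (Submodule.finrank_mono h4) _) (le_of_eq ?_)
  rw [add_comm]
  exact h2

/-- PROOF. `ev : (E d →ₗ[ℝ] ℝ) →ₗ[ℝ] EuclideanSpace ℝ (Fin m)`, `ev f = (f (Y (a, false)))_a`; injective: `Y (a, false)`, `a` in a set of `d` classes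
(`d ≤ m`), are `d` linearly independent vectors (`GP`), so they span `E d`. Let `inv` be a left inverse (`LinearMap.exists_leftInverse_of_injective`),
`τ a : EuclideanSpace →ₗ ℝ`, `τ a g = (inv g) (Y (a, true))`. `V0 = range ev`.
`K = {g | g ∈ V0 ∧ ∀ j, |g j| ≤ 1}`, `F a b = {g | g ∈ V0 ∧ g a = s ∧ τ a g = s}`, `s = if b then 1 else -1`,
`V B = V0 ⊓ {g | ∀ a ∈ B, g a = 0 ∧ τ a g = 0}` (submodule). Convexity and closedness: submodules of finite-dimensional spaces are closed
(`Submodule.closed_of_finiteDimensional`), linear functionals are continuous (`LinearMap.continuous_of_finiteDimensional`).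
`V_dim`: `V B` is the image under `ev` of the submodule `U` of all `f` with `f (Y (a, b)) = 0`, `a ∈ B`; `vanish_dim` and
`Submodule.finrank_map_le`. `diff`: clear. `face`: `face_functional`, `g = ev f`, `sg P.2 a = if decide (a ∈ P.2) then 1 else -1`. -/
theorem exists_enData {d m k : ℕ} (hkd : 2 * k ≤ d) (hm : d ≤ m)
    {Φ : Finset (Finset (Fin m) × Finset (Fin m))} {Y : Fin m × Bool → E d}
    (hB : Blow Φ Y) : Nonempty (EnData m d k Φ) := by
  classical
  let ev : (E d →ₗ[ℝ] ℝ) →ₗ[ℝ] EuclideanSpace ℝ (Fin m) :=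
    { toFun := fun f => WithLp.toLp 2 fun a => f (Y (a, false))
      map_add' := fun f g => by
        ext a
        rfl
      map_smul' := fun c f => by
        ext a
        rfl }
  have hev : ∀ f a, ev f a = f (Y (a, false)) := fun f a => rfl
  have hker : LinearMap.ker ev = ⊥ := by
    rw [LinearMap.ker_eq_bot']
    intro f hf
    obtain ⟨T, -, hT⟩ := Finset.exists_subset_card_eq (s := (Finset.univ : Finset (Fin m)))
      (n := d) (by rw [Finset.card_univ, Fintype.card_fin]; exact hm)
    have hs := Gp_span hB.gp (T.image fun a => (a, false))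
      (by rw [Finset.card_image_of_injective _ (fun a b h => (Prod.mk.inj h).1), hT])
    have h3 : (⊤ : Submodule ℝ (E d)) ≤ LinearMap.ker f := by
      rw [← hs, Submodule.span_le]
      rintro _ ⟨⟨j, hj⟩, rfl⟩
      obtain ⟨a, -, rfl⟩ := Finset.mem_image.1 hj
      refine LinearMap.mem_ker.2 ?_
      have h4 := hev f a
      rw [hf] at h4
      exact h4.symm
    exact LinearMap.ker_eq_top.1 (top_le_iff.1 h3)
  obtain ⟨inv, hinv⟩ := LinearMap.exists_leftInverse_of_injective ev hker
  have hinv' : ∀ f, inv (ev f) = f := fun f => by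
    have := LinearMap.congr_fun hinv f
    exact this
  let τ : Fin m → EuclideanSpace ℝ (Fin m) →ₗ[ℝ] ℝ := fun a =>
    (LinearMap.applyₗ (Y (a, true))).comp inv
  have hτ : ∀ a f, τ a (ev f) = f (Y (a, true)) := fun a f => by
    change (inv (ev f)) (Y (a, true)) = _
    rw [hinv']
  let pr : Fin m → EuclideanSpace ℝ (Fin m) →ₗ[ℝ] ℝ := fun a =>
    { toFun := fun g => g a
      map_add' := fun _ _ => rfl
      map_smul' := fun _ _ => rfl }
  have hpr : ∀ a g, pr a g = g a := fun _ _ => rfl
  have hVc : ∀ W : Submodule ℝ (EuclideanSpace ℝ (Fin m)),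
      IsClosed (W : Set (EuclideanSpace ℝ (Fin m))) := fun W =>
    Submodule.closed_of_finiteDimensional W
  have hcont : ∀ l : EuclideanSpace ℝ (Fin m) →ₗ[ℝ] ℝ, Continuous l := fun l =>
    LinearMap.continuous_of_finiteDimensional l
  have hVmem : ∀ (B : Finset (Fin m)) (g : EuclideanSpace ℝ (Fin m)),
      g ∈ (LinearMap.range ev ⊓ ⨅ a ∈ B, (LinearMap.ker (pr a) ⊓ LinearMap.ker (τ a)) :
        Submodule ℝ (EuclideanSpace ℝ (Fin m))) ↔
      g ∈ LinearMap.range ev ∧ ∀ a ∈ B, g a = 0 ∧ τ a g = 0 := by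
    intro B g
    rw [Submodule.mem_inf, Submodule.mem_iInf]
    refine and_congr Iff.rfl (forall_congr' fun a => ?_)
    rw [Submodule.mem_iInf]
    refine forall_congr' fun _ => ?_
    rw [Submodule.mem_inf, LinearMap.mem_ker, LinearMap.mem_ker, hpr]
  refine ⟨{
    K := {g | g ∈ LinearMap.range ev ∧ ∀ j, |g j| ≤ 1}
    F := fun a b => {g | g a = (if b then (1 : ℝ) else -1) ∧ τ a g = (if b then (1 : ℝ) else -1)}
    V := fun B => LinearMap.range ev ⊓ ⨅ a ∈ B, (LinearMap.ker (pr a) ⊓ LinearMap.ker (τ a))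
    K_convex := ?_
    K_closed := ?_
    F_convex := ?_
    F_closed := ?_
    K_le := fun g hg j => hg.2 j
    F_val := fun a b g hg => hg.1
    V_dim := ?_
    diff := ?_
    face := ?_ }⟩
  · intro g hg g' hg' s t hs ht hst
    refine ⟨Submodule.add_mem _ (Submodule.smul_mem _ _ hg.1) (Submodule.smul_mem _ _ hg'.1),
      fun j => ?_⟩
    have h1 := abs_le.1 (hg.2 j)
    have h2 := abs_le.1 (hg'.2 j)
    change |s * g j + t * g' j| ≤ 1
    rw [abs_le]
    constructor
    · nlinarith [mul_le_mul_of_nonneg_left h1.1 hs, mul_le_mul_of_nonneg_left h2.1 ht]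
    · nlinarith [mul_le_mul_of_nonneg_left h1.2 hs, mul_le_mul_of_nonneg_left h2.2 ht]
  · have h : {g : EuclideanSpace ℝ (Fin m) | g ∈ LinearMap.range ev ∧ ∀ j, |g j| ≤ 1} =
        (LinearMap.range ev : Set (EuclideanSpace ℝ (Fin m))) ∩ ⋂ j, {g | |g j| ≤ 1} := by
      ext g
      simp [Set.mem_inter_iff, Set.mem_iInter]
    rw [h]
    refine (hVc _).inter (isClosed_iInter fun j => ?_)
    exact isClosed_le (continuous_abs.comp (hcont (pr j))) continuous_const
  · intro a b g hg g' hg' s t hs ht hst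
    have h1 : g a = _ := hg.1
    have h2 : g' a = _ := hg'.1
    have h3 : τ a g = _ := hg.2
    have h4 : τ a g' = _ := hg'.2
    refine ⟨?_, ?_⟩
    · change s * g a + t * g' a = _
      rw [h1, h2, ← add_mul, hst, one_mul]
    · rw [map_add, map_smul, map_smul, h3, h4, smul_eq_mul, smul_eq_mul, ← add_mul, hst, one_mul]
  · intro a b
    have h : {g : EuclideanSpace ℝ (Fin m) | g a = (if b then (1 : ℝ) else -1) ∧
        τ a g = (if b then (1 : ℝ) else -1)} =
        {g | pr a g = (if b then (1 : ℝ) else -1)} ∩ {g | τ a g = (if b then (1 : ℝ) else -1)} := by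
      ext g
      rfl
    rw [h]
    exact (isClosed_eq (hcont (pr a)) continuous_const).inter
      (isClosed_eq (hcont (τ a)) continuous_const)
  · intro B hBk
    have hdim := vanish_dim hB.gp B (by omega)
      (Submodule.comap ev (LinearMap.range ev ⊓
        ⨅ a ∈ B, (LinearMap.ker (pr a) ⊓ LinearMap.ker (τ a)))) (by
        intro f hf a ha b
        rw [Submodule.mem_comap, hVmem] at hf
        have h1 := hf.2 a ha
        cases b
        · rw [← hev]
          exact h1.1
        · rw [← hτ]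
          exact h1.2)
    have h1 := Submodule.finrank_map_le ev
      (Submodule.comap ev (LinearMap.range ev ⊓
        ⨅ a ∈ B, (LinearMap.ker (pr a) ⊓ LinearMap.ker (τ a))))
    rw [Submodule.map_comap_eq_self inf_le_left] at h1
    omega
  · intro B σ g g' hg hg' hgB hgB'
    rw [hVmem]
    refine ⟨Submodule.sub_mem _ hg.1 hg'.1, fun a ha => ?_⟩
    have h1 : g a = _ := (hgB a ha).1
    have h2 : g' a = _ := (hgB' a ha).1
    have h3 : τ a g = _ := (hgB a ha).2
    have h4 : τ a g' = _ := (hgB' a ha).2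
    constructor
    · change g a - g' a = 0
      rw [h1, h2, sub_self]
    · rw [map_sub, h3, h4, sub_self]
  · intro P hP
    obtain ⟨f, hf, hf1⟩ := face_functional hB hP
    refine ⟨ev f, ⟨⟨f, rfl⟩, fun j => ?_⟩, fun a ha => ⟨?_, ?_⟩⟩
    · rw [hev]
      exact hf1 j
    · rw [hev, hf a ha]
      unfold sg
      by_cases h : a ∈ P.2 <;> simp [h]
    · rw [hτ, hf a ha]
      unfold sg
      by_cases h : a ∈ P.2 <;> simp [h]

end Pool.Agent.H.MP_4bcbbd_co.X
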