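import Pool.Agent.H.MP_4bcbbd_co.X.EnDefs

/-!
MP_4bcbbd_co, exponential gap: numerics for the bound.
-/

set_option autoImplicit false

namespace Pool.Agent.H.MP_4bcbbd_co.X

open scoped BigOperators

theorem num3_y {d k l : ℕ} (hkd : 2 * k ≤ d) (hl : l < k) {lam : ℝ} (hlam : 0 ≤ lam) :
    lam < (d : ℝ) - 2 * l + 21 / 10 * lam + 6 / 5 := by
  have h1 : 2 * l + 2 ≤ d := by omega
  have h2 : (2 : ℝ) * l + 2 ≤ d := by exact_mod_cast h1
  linarith

/-- PROOF: all factors are in `(0, 1]` (`d - 2 l ≥ 0` for `l < k`, `2 k ≤ d`). -/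
theorem bnd_pos {d k : ℕ} (hkd : 2 * k ≤ d) {lam : ℝ} (hlam : 0 ≤ lam) : 0 < bnd d k lam := by
  unfold bnd
  refine mul_pos (Real.exp_pos _) (Finset.prod_pos fun l hl => ?_)
  have h1 := num3_y hkd (Finset.mem_range.1 hl) hlam
  rw [sub_pos, div_lt_one (lt_of_le_of_lt hlam h1)]
  exact h1

theorem num3_factor {y lam : ℝ} (hy : 0 < y) (hlam : 0 ≤ lam) :
    1 - lam / y ≤ Real.exp (-(lam / 2 * (Real.log (y + 2) - Real.log y))) := by
  have h1 : 1 - lam / y ≤ Real.exp (-(lam / y)) := by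
    have := Real.add_one_le_exp (-(lam / y))
    linarith
  refine h1.trans (Real.exp_le_exp.2 ?_)
  have h2 : Real.log (y + 2) - Real.log y ≤ 2 / y := by
    rw [← Real.log_div (by linarith) hy.ne']
    have h3 := Real.log_le_sub_one_of_pos (show 0 < (y + 2) / y by positivity)
    have h4 : (y + 2) / y - 1 = 2 / y := by
      field_simp
      ring
    linarith
  have h5 : lam / 2 * (Real.log (y + 2) - Real.log y) ≤ lam / 2 * (2 / y) :=
    mul_le_mul_of_nonneg_left h2 (by linarith)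
  have h6 : lam / 2 * (2 / y) = lam / y := by
    field_simp
  linarith

theorem num3_prod {d : ℕ} {lam : ℝ} (hlam : 0 ≤ lam) (k : ℕ) (hkd : 2 * k ≤ d) :
    ∏ l ∈ Finset.range k, (1 - lam / ((d : ℝ) - 2 * l + 21 / 10 * lam + 6 / 5)) ≤
      Real.exp (-(lam / 2 * (Real.log ((d : ℝ) + 16 / 5 + 21 / 10 * lam) -
        Real.log ((d : ℝ) - 2 * k + 16 / 5 + 21 / 10 * lam)))) := by
  induction k with
  | zero => simp
  | succ k ih =>
    rw [Finset.prod_range_succ]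
    have h1 := ih (by omega)
    have h0 := num3_y hkd (Nat.lt_succ_self k) hlam
    have h2 := num3_factor (lt_of_le_of_lt hlam h0) hlam
    have h3 : 0 ≤ 1 - lam / ((d : ℝ) - 2 * k + 21 / 10 * lam + 6 / 5) := by
      rw [sub_nonneg, div_le_one (lt_of_le_of_lt hlam h0)]
      exact h0.le
    refine (mul_le_mul h1 h2 h3 (Real.exp_pos _).le).trans (le_of_eq ?_)
    rw [← Real.exp_add]
    congr 1
    have e1 : (d : ℝ) - 2 * k + 21 / 10 * lam + 6 / 5 + 2 =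
        (d : ℝ) - 2 * k + 16 / 5 + 21 / 10 * lam := by ring
    have e2 : (d : ℝ) - 2 * k + 21 / 10 * lam + 6 / 5 =
        (d : ℝ) - 2 * ((k + 1 : ℕ) : ℝ) + 16 / 5 + 21 / 10 * lam := by
      push_cast
      ring
    rw [e1, e2]
    ring

/-- PROOF. `C = 21/10 lam + 6/5`. For `l < k`, `y = d - 2 l + C > 0`: `1 - lam/y ≤ exp (-lam/y)` and
`(lam/2) * log ((y + 2)/y) ≤ lam/y` (`Real.log_le_sub_one_of_pos`: `log(1 + 2/y) ≤ 2/y`). The sum over `l < k` of
`log (d - 2l + 2 + C) - log (d - 2l + C)` telescopes to `log (d + 2 + C) - log (d - 2k + 2 + C)` (induction on `k`, or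
`Finset.sum_range_sub'`). -/
theorem bnd_le {d k : ℕ} (hkd : 2 * k ≤ d) {lam : ℝ} (hlam : 0 ≤ lam) :
    bnd d k lam ≤ Real.exp (lam / Real.sqrt 2 - lam / 2 *
      Real.log (((d : ℝ) + 16 / 5 + 21 / 10 * lam) /
        ((d : ℝ) - 2 * k + 16 / 5 + 21 / 10 * lam))) := by
  have hk : (2 : ℝ) * k ≤ d := by exact_mod_cast hkd
  have hd0 : (0 : ℝ) ≤ d := Nat.cast_nonneg d
  unfold bnd
  refine (mul_le_mul_of_nonneg_left (num3_prod hlam k hkd) (Real.exp_pos _).le).trans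
    (le_of_eq ?_)
  rw [← Real.exp_add, Real.log_div (by positivity) (by linarith)]
  congr 1

theorem num3_sqrt : Real.sqrt 2 ≤ 1.41422 := by
  rw [Real.sqrt_le_left (by norm_num)]
  norm_num

theorem num3_exp1 : Real.exp 1 ≤ 2.7182818286 := Real.exp_one_lt_d9.le

theorem num3_log1 : (7 / 3 : ℝ) ≤ Real.log (1105 / 105) := by
  rw [Real.le_log_iff_exp_le (by norm_num)]
  have h1 : Real.exp (7 / 3) ^ 3 ≤ (1105 / 105 : ℝ) ^ 3 := by
    rw [← Real.exp_nat_mul]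
    have h2 : ((3 : ℕ) : ℝ) * (7 / 3) = ((7 : ℕ) : ℝ) * 1 := by norm_num
    rw [h2, Real.exp_nat_mul]
    calc Real.exp 1 ^ 7 ≤ (2.7182818286 : ℝ) ^ 7 :=
          pow_le_pow_left₀ (Real.exp_pos _).le num3_exp1 7
      _ ≤ _ := by norm_num
  exact le_of_pow_le_pow_left₀ (by norm_num) (by norm_num) h1

theorem num3_log2 : (151 / 100 : ℝ) ≤ Real.log (821 / 181) := by
  rw [Real.le_log_iff_exp_le (by norm_num)]
  have h1 : Real.exp (3 / 2) ≤ 4.4817 := by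
    have h2 : Real.exp (3 / 2) ^ 2 ≤ (4.4817 : ℝ) ^ 2 := by
      rw [← Real.exp_nat_mul]
      have h3 : ((2 : ℕ) : ℝ) * (3 / 2) = ((3 : ℕ) : ℝ) * 1 := by norm_num
      rw [h3, Real.exp_nat_mul]
      calc Real.exp 1 ^ 3 ≤ (2.7182818286 : ℝ) ^ 3 :=
            pow_le_pow_left₀ (Real.exp_pos _).le num3_exp1 3
        _ ≤ _ := by norm_num
    exact le_of_pow_le_pow_left₀ (by norm_num) (by norm_num) h2
  have h4 : Real.exp (1 / 100) ≤ 100 / 99 := by
    have h5 := Real.one_sub_le_exp_neg (1 / 100)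
    rw [Real.exp_neg] at h5
    have h6 := Real.exp_pos (1 / 100)
    have h7 : (1 - 1 / 100) * Real.exp (1 / 100) ≤ 1 := by
      have := mul_le_mul_of_nonneg_right h5 h6.le
      rwa [inv_mul_cancel₀ h6.ne'] at this
    linarith
  have h8 : Real.exp (151 / 100) = Real.exp (3 / 2) * Real.exp (1 / 100) := by
    rw [← Real.exp_add]
    norm_num
  rw [h8]
  calc Real.exp (3 / 2) * Real.exp (1 / 100) ≤ 4.4817 * (100 / 99) :=
        mul_le_mul h1 h4 (Real.exp_pos _).le (by norm_num)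
    _ ≤ _ := by norm_num

theorem num3_exp2 : Real.exp (16 / 181) ≤ 11 / 10 := by
  have h5 := Real.one_sub_le_exp_neg (16 / 181)
  rw [Real.exp_neg] at h5
  have h6 := Real.exp_pos (16 / 181)
  have h7 : (1 - 16 / 181) * Real.exp (16 / 181) ≤ 1 := by
    have := mul_le_mul_of_nonneg_right h5 h6.le
    rwa [inv_mul_cancel₀ h6.ne'] at this
  linarith

theorem num3_div (x : ℝ) : x / Real.sqrt 2 = x / 2 * Real.sqrt 2 := by
  have h1 : Real.sqrt 2 * Real.sqrt 2 = 2 := Real.mul_self_sqrt (by norm_num)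
  have h2 : (0 : ℝ) < Real.sqrt 2 := Real.sqrt_pos.2 (by norm_num)
  rw [div_eq_iff h2.ne']
  calc x = x / 2 * 2 := by ring
    _ = x / 2 * (Real.sqrt 2 * Real.sqrt 2) := by rw [h1]
    _ = _ := by ring

/-- the logarithm of a quotient which is close to `A`. -/
theorem num3_logQ {A c d Q : ℝ} (hA : 0 < A) (hc : 0 ≤ c) (hd : 0 < d)
    (hQ : A / (1 + c / d) ≤ Q) : Real.log A - c / d ≤ Real.log Q := by
  have h1 : 0 < 1 + c / d := by positivity
  have h2 : Real.log (A / (1 + c / d)) ≤ Real.log Q := Real.log_le_log (by positivity) hQ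
  rw [Real.log_div hA.ne' h1.ne'] at h2
  have h3 := Real.log_le_sub_one_of_pos h1
  linarith

/-- PROOF. `lam = d/20`, `2k ≥ d - 1`: the quotient in `bnd_le` is at least
`(d + 0.105 d)/(1 + 16/5 + 0.105 d) = (1.105/0.105) / (1 + 40/d)` (`4.2/0.105 = 40`). So
`bnd ≤ exp (d/(20 √2) - (d/40) log(1.105/0.105) + (d/40) log(1 + 40/d)) ≤ exp(1) exp ((d/40) (√2 - log(1.105/0.105)))`, and
`√2 + 8/9 ≤ 7/3 ≤ log (1.105/0.105)` because `exp 7 ≤ (1.105/0.105)³` (`Real.exp_one_lt_d9`, `2.7182818286^7 < 1165`;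
`√2 ≤ 1.4143`). So the exponent is `≤ -(d/40)(8/9) = -d/45`. -/
theorem bnd_top {d k : ℕ} (hd : 1 ≤ d) (hkd : 2 * k ≤ d) (hk : d ≤ 2 * k + 1) :
    bnd d k ((d : ℝ) / 20) ≤ Real.exp 1 * Real.exp (-(d : ℝ) / 45) := by
  have hd1 : (1 : ℝ) ≤ d := by exact_mod_cast hd
  have hd0 : (0 : ℝ) < d := by linarith
  have hk1 : (2 : ℝ) * k ≤ d := by exact_mod_cast hkd
  have hk2 : (d : ℝ) ≤ 2 * k + 1 := by exact_mod_cast hk
  refine (bnd_le hkd (by positivity)).trans ?_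
  rw [← Real.exp_add]
  refine Real.exp_le_exp.2 ?_
  obtain ⟨Q, hQ⟩ : ∃ Q : ℝ, Q = ((d : ℝ) + 16 / 5 + 21 / 10 * (d / 20)) /
        ((d : ℝ) - 2 * k + 16 / 5 + 21 / 10 * (d / 20)) := ⟨_, rfl⟩
  rw [← hQ]
  have hQ1 : (1105 / 105 : ℝ) / (1 + 40 / d) ≤ Q := by
    have e1 : (1105 / 105 : ℝ) / (1 + 40 / d) = (1105 / 1000 * d) / (42 / 10 + 105 / 1000 * d) := by
      field_simp
      ring
    rw [e1, hQ]
    refine div_le_div₀ (by positivity) (by linarith) (by linarith) (by linarith)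
  have h1 := num3_logQ (by norm_num) (by norm_num) hd0 hQ1
  have h2 := num3_log1
  have h3 := num3_sqrt
  rw [num3_div]
  have h4 : (d : ℝ) / 20 / 2 * (7 / 3 - 40 / d) ≤ (d : ℝ) / 20 / 2 * Real.log Q :=
    mul_le_mul_of_nonneg_left (by linarith) (by positivity)
  have h5 : (d : ℝ) / 20 / 2 * (7 / 3 - 40 / d) = 7 / 120 * d - 1 := by
    field_simp
    ring
  have h6 : (d : ℝ) / 20 / 2 * Real.sqrt 2 ≤ (d : ℝ) / 20 / 2 * 1.41422 :=
    mul_le_mul_of_nonneg_left h3 (by positivity)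
  rw [h5] at h4
  linarith

/-- PROOF. `lam = d/80`: the quotient in `bnd_le` is at least
`(d + 0.02625 d)/(0.2 d + 3.2 + 0.02625 d) = (1.02625/0.22625)/(1 + (3.2/0.22625)/d)`, so
`bnd ≤ exp (d/(80√2) - (d/160) log(1.02625/0.22625)) * exp ((1/160)(3.2/0.22625))`, the last factor `≤ exp (0.09) < 2`, and
`√2 + 160/1700 ≤ log (1.02625/0.22625) = log 4.5359` (`= 1.5120`; `√2 + 0.0942 = 1.5084 ≤ 1.51`, `exp 1.51 ≤ 4.5359`: `exp (0.51) ≤ 1.6653` by
`Real.exp_bound'`, or `exp(1.51)^... `). -/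
theorem bnd_mid {d k : ℕ} (hd : 1 ≤ d) (hkd : 2 * k ≤ d) (hk : 2 * d ≤ 5 * k) :
    bnd d k ((d : ℝ) / 80) ≤ 11 / 10 * Real.exp (-(d : ℝ) / 1700) := by
  have hd1 : (1 : ℝ) ≤ d := by exact_mod_cast hd
  have hd0 : (0 : ℝ) < d := by linarith
  have hk1 : (2 : ℝ) * k ≤ d := by exact_mod_cast hkd
  have hk2 : (2 : ℝ) * d ≤ 5 * k := by exact_mod_cast hk
  refine (bnd_le hkd (by positivity)).trans ?_
  refine le_trans ?_ (mul_le_mul_of_nonneg_right num3_exp2 (Real.exp_pos _).le)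
  rw [← Real.exp_add]
  refine Real.exp_le_exp.2 ?_
  obtain ⟨Q, hQ⟩ : ∃ Q : ℝ, Q = ((d : ℝ) + 16 / 5 + 21 / 10 * (d / 80)) /
        ((d : ℝ) - 2 * k + 16 / 5 + 21 / 10 * (d / 80)) := ⟨_, rfl⟩
  rw [← hQ]
  have hQ1 : (821 / 181 : ℝ) / (1 + 2560 / 181 / d) ≤ Q := by
    have e1 : (821 / 181 : ℝ) / (1 + 2560 / 181 / d) =
        (821 / 800 * d) / (16 / 5 + 181 / 800 * d) := by
      field_simp
      ring
    rw [e1, hQ]
    refine div_le_div₀ (by positivity) (by linarith) (by linarith) (by linarith)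
  have h1 := num3_logQ (by norm_num) (by norm_num) hd0 hQ1
  have h2 := num3_log2
  have h3 := num3_sqrt
  rw [num3_div]
  have h4 : (d : ℝ) / 80 / 2 * (151 / 100 - 2560 / 181 / d) ≤ (d : ℝ) / 80 / 2 * Real.log Q :=
    mul_le_mul_of_nonneg_left (by linarith) (by positivity)
  have h5 : (d : ℝ) / 80 / 2 * (151 / 100 - 2560 / 181 / d) = 151 / 16000 * d - 16 / 181 := by
    field_simp
    ring
  have h6 : (d : ℝ) / 80 / 2 * Real.sqrt 2 ≤ (d : ℝ) / 80 / 2 * 1.41422 :=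
    mul_le_mul_of_nonneg_left h3 (by positivity)
  rw [h5] at h4
  linarith

end Pool.Agent.H.MP_4bcbbd_co.X
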