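import Pool.Agent.H.MP_4bcbbd_co.X.E5
import Pool.Agent.H.MP_4bcbbd_co.X.EData
import Pool.Agent.H.MP_4bcbbd_co.X.Num3
import Pool.Agent.H.MP_4bcbbd_co.X.ExBlow
import Pool.Agent.H.MP_4bcbbd_co.X.Box
import Pool.Agent.H.MP_4bcbbd_co.X.Avg
import Pool.Agent.H.MP_4bcbbd_co.X.Family
import Pool.Agent.H.MP_4bcbbd_co.X.Perturb

/-!
MP_4bcbbd_co, exponential gap: the bound for the number of faces with `k` vertices.
-/

set_option autoImplicit false

namespace Pool.Agent.H.MP_4bcbbd_co.X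

open scoped BigOperators
open Filter Topology

/-- a number of classes for which sampling with and without repetition are almost the same. -/
theorem exists_m (k d : ℕ) (β η : ℝ) (hβ : 0 ≤ β) (hη : 0 < η) : ∃ m : ℕ, d + k + 1 ≤ m ∧
    (m : ℝ) ^ k * β < (β + η) * (m.descFactorial k : ℝ) := by
  have h0 : Tendsto (fun m : ℕ => (1 - (k : ℝ)) / (m : ℝ)) atTop (𝓝 0) :=
    tendsto_const_div_atTop_nhds_zero_nat _
  have h1 : Tendsto (fun m : ℕ => (β + η) * (1 + (1 - (k : ℝ)) / (m : ℝ)) ^ k) atTop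
      (𝓝 ((β + η) * (1 + 0) ^ k)) := ((h0.const_add 1).pow k).const_mul (β + η)
  rw [add_zero, one_pow, mul_one] at h1
  obtain ⟨m, hm1, hm2⟩ := ((h1.eventually_const_lt (show β < β + η by linarith)).and
    (eventually_ge_atTop (d + k + 1))).exists
  refine ⟨m, hm2, ?_⟩
  have hm0 : (0 : ℝ) < m := by
    have : 0 < m := by omega
    exact_mod_cast this
  have h2 : ((m + 1 - k : ℕ) : ℝ) ^ k ≤ (m.descFactorial k : ℝ) := by
    exact_mod_cast Nat.pow_sub_le_descFactorial m k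
  have h3 : ((m + 1 - k : ℕ) : ℝ) = (m : ℝ) * (1 + (1 - (k : ℝ)) / (m : ℝ)) := by
    rw [Nat.cast_sub (by omega)]
    push_cast
    field_simp
    ring
  rw [h3, mul_pow] at h2
  have h4 : (m : ℝ) ^ k * β < (m : ℝ) ^ k * ((β + η) * (1 + (1 - (k : ℝ)) / (m : ℝ)) ^ k) :=
    mul_lt_mul_of_pos_left hm1 (by positivity)
  calc (m : ℝ) ^ k * β < (m : ℝ) ^ k * ((β + η) * (1 + (1 - (k : ℝ)) / (m : ℝ)) ^ k) := h4
    _ = (β + η) * ((m : ℝ) ^ k * (1 + (1 - (k : ℝ)) / (m : ℝ)) ^ k) := by ring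
    _ ≤ (β + η) * (m.descFactorial k : ℝ) := mul_le_mul_of_nonneg_left h2 (by linarith)

/-- the bound for the number of faces with `k` vertices. -/
theorem fc_bound3 (k d : ℕ) (hk : 1 ≤ k) (hkd : 2 * k ≤ d) {lam η : ℝ} (hlam : 0 ≤ lam)
    (hη : 0 < η) :
    ∃ N : ℕ, ∀ n : ℕ, N ≤ n → ∀ V : Finset (E d), CSData V → Simp V → V.card = 2 * n →
      ((fc V k).card : ℝ) ≤ (bnd d k lam + η) * 2 ^ k * (n.choose k : ℝ) := by
  have hb : 0 < bnd d k lam := bnd_pos hkd hlam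
  obtain ⟨m, hm1, hm2⟩ := exists_m k d (bnd d k lam) (η / 2) hb.le (half_pos hη)
  obtain ⟨t, ht⟩ := exists_blow d m
  obtain ⟨δ, hδ, N1, hN1⟩ := avg m k (by omega) (bnd d k lam + η / 2) (bnd d k lam + η)
    (by positivity) (by linarith)
  obtain ⟨N2, hN2⟩ := box m t δ hδ
  refine ⟨max N1 N2, fun n hn V hV hS hc => ?_⟩
  by_contra hcon
  push Not at hcon
  obtain ⟨x, hx⟩ := exists_reps V hV n hc
  obtain ⟨𝓕, h1, h2, h3⟩ := family V hV hS x hx k
  obtain ⟨y, hy, hyF⟩ := perturb x 𝓕 h3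
  obtain ⟨Φ, hΦ1, hΦ2, T, hT1, hT2⟩ := hN1 n (le_trans (le_max_left _ _) hn) 𝓕 h1
    (by rw [h2]; exact hcon)
  obtain ⟨C, hC1, hC2⟩ := hN2 n (le_trans (le_max_right _ _) hn) T hT1
  obtain ⟨Y, hY⟩ := ht y hy Φ 𝓕 hyF C hC1 (fun φ => hT2 _ (hC2 φ))
  obtain ⟨D⟩ := exists_enData (k := k) hkd (by omega) hY
  have h4 := D.energy hΦ1 (by omega) hkd hlam
  have h5 : (m.descFactorial k : ℝ) = (k.factorial : ℝ) * (m.choose k : ℝ) := by
    exact_mod_cast Nat.descFactorial_eq_factorial_mul_choose m k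
  have hf : (0 : ℝ) < (k.factorial : ℝ) := by exact_mod_cast k.factorial_pos
  have h6 : (bnd d k lam + η / 2) * 2 ^ k * (m.choose k : ℝ) * (k.factorial : ℝ) <
      (Φ.card : ℝ) * (k.factorial : ℝ) := mul_lt_mul_of_pos_right hΦ2 hf
  have h7 : 2 ^ k * ((m : ℝ) ^ k * bnd d k lam) <
      2 ^ k * ((bnd d k lam + η / 2) * (m.descFactorial k : ℝ)) :=
    mul_lt_mul_of_pos_left hm2 (by positivity)
  rw [h5] at h7
  have h8 : (2 * (m : ℝ)) ^ k * bnd d k lam = 2 ^ k * ((m : ℝ) ^ k * bnd d k lam) := by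
    rw [mul_pow]
    ring
  rw [h8] at h4
  have h9 : 2 ^ k * ((bnd d k lam + η / 2) * ((k.factorial : ℝ) * (m.choose k : ℝ))) =
      (bnd d k lam + η / 2) * 2 ^ k * (m.choose k : ℝ) * (k.factorial : ℝ) := by ring
  linarith

end Pool.Agent.H.MP_4bcbbd_co.X
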