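import Mathlib

/-!
MP_4bcbbd_co, exponential gap: preparations for the Chernoff bound.
-/

set_option autoImplicit false

namespace Pool.Agent.H.MP_4bcbbd_co.X

open scoped BigOperators

private theorem Cher1_pow {A b : ℝ} (hA : 0 ≤ A) (hb : 0 ≤ b) (s : ℕ) :
    A ^ (s + 1) + (s + 1) * b * A ^ s ≤ (b + A) ^ (s + 1) := by
  induction s with
  | zero => simp [add_comm]
  | succ s ih =>
    have h1 : (A ^ (s + 1) + (s + 1) * b * A ^ s) * (b + A) ≤ (b + A) ^ (s + 1) * (b + A) :=
      mul_le_mul_of_nonneg_right ih (add_nonneg hb hA)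
    have h2 : 0 ≤ ((s : ℝ) + 1) * b * A ^ s * b := by positivity
    have h3 : (b + A) ^ (s + 1 + 1) = (b + A) ^ (s + 1) * (b + A) := pow_succ _ _
    rw [h3]
    refine le_trans ?_ h1
    push_cast
    have h4 : (A ^ (s + 1) + (s + 1) * b * A ^ s) * (b + A) =
        A ^ (s + 1 + 1) + (s + 1 + 1) * b * A ^ (s + 1) + ((s : ℝ) + 1) * b * A ^ s * b := by
      ring
    rw [h4]
    linarith

/-- PROOF: induction on the Finset `X` (generalizing `s`): `powersetCard (s+1) (insert a X)` is the disjoint union of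
`powersetCard (s+1) X` and the sets `insert a J`, `J ∈ powersetCard s X`
(`Finset.powersetCard_succ_insert`), so `e_{s+1}(X ∪ a) = e_{s+1}(X) + f a e_s(X)`, and
`(A + b)^(s+1) ≥ A^(s+1) + (s+1) b A^s` for `A, b ≥ 0` (`(A+b)^(s+1) = (A+b)(A+b)^s`, induction on `s`), multiplied by factorials.
Alternative: induction on `s`. -/
theorem esymm_le {ι : Type} [DecidableEq ι] (f : ι → ℝ) (hf : ∀ i, 0 ≤ f i) (X : Finset ι)
    (s : ℕ) : (s.factorial : ℝ) * ∑ J ∈ Finset.powersetCard s X, ∏ j ∈ J, f j ≤
      (∑ j ∈ X, f j) ^ s := by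
  classical
  induction X using Finset.induction_on generalizing s with
  | empty =>
    cases s with
    | zero => simp
    | succ s =>
      rw [Finset.powersetCard_eq_empty.2 (by simp)]
      simp
  | insert a X ha ih =>
    cases s with
    | zero => simp
    | succ s =>
      have hX : 0 ≤ ∑ j ∈ X, f j := Finset.sum_nonneg fun i _ => hf i
      have hdis : Disjoint (Finset.powersetCard (s + 1) X)
          ((Finset.powersetCard s X).image (insert a)) := by
        rw [Finset.disjoint_left]
        intro J hJ hJ'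
        obtain ⟨K, _, rfl⟩ := Finset.mem_image.1 hJ'
        exact ha ((Finset.mem_powersetCard.1 hJ).1 (Finset.mem_insert_self a K))
      have hnot : ∀ K ∈ Finset.powersetCard s X, a ∉ K := fun K hK h =>
        ha ((Finset.mem_powersetCard.1 hK).1 h)
      have h1 : ∑ J ∈ Finset.powersetCard (s + 1) (insert a X), ∏ j ∈ J, f j =
          ∑ J ∈ Finset.powersetCard (s + 1) X, ∏ j ∈ J, f j +
            f a * ∑ J ∈ Finset.powersetCard s X, ∏ j ∈ J, f j := by
        rw [Finset.powersetCard_succ_insert ha, Finset.sum_union hdis, Finset.sum_image,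
          Finset.mul_sum]
        · congr 1
          refine Finset.sum_congr rfl fun K hK => ?_
          rw [Finset.prod_insert (hnot K hK)]
        · intro K hK L hL h
          have h2 := congrArg (fun T : Finset ι => T.erase a) h
          simpa [Finset.erase_insert (hnot K hK), Finset.erase_insert (hnot L hL)] using h2
      rw [h1, Finset.sum_insert ha, mul_add]
      refine le_trans ?_ (Cher1_pow hX (hf a) s)
      refine add_le_add (ih (s + 1)) ?_
      have h3 : (((s + 1).factorial : ℕ) : ℝ) = (s + 1) * (s.factorial : ℝ) := by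
        rw [Nat.factorial_succ]
        push_cast
        ring
      rw [h3]
      have h4 := mul_le_mul_of_nonneg_left (ih s)
        (show (0 : ℝ) ≤ (s + 1) * f a from mul_nonneg (by positivity) (hf a))
      refine le_trans (le_of_eq ?_) h4
      ring

/-- PROOF: `s! C(k+s, s) = (k+1)(k+2)...(k+s) ≥ (k+1)^s` (`Nat.pow_succ_le_ascFactorial`,
`Nat.ascFactorial_eq_factorial_mul_choose`). -/
theorem choose_ge (k s : ℕ) : ((k : ℝ) + 1) ^ s ≤ (s.factorial : ℝ) * ((k + s).choose s : ℝ) := by
  have h1 := Nat.pow_succ_le_ascFactorial (k + 1) s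
  rw [Nat.ascFactorial_eq_factorial_mul_choose] at h1
  exact_mod_cast h1

/-- PROOF: convexity of `exp` on `[0,1]` (`convexOn_exp`): `exp x ≤ 1 + (exp 1 - 1) x`, and
`exp 1 ≤ 2.72` (`Real.exp_one_lt_d9`). -/
theorem exp_le_lin {x : ℝ} (h0 : 0 ≤ x) (h1 : x ≤ 1) : Real.exp x ≤ 1 + 1.72 * x := by
  have h2 := convexOn_exp.2 (Set.mem_univ (0 : ℝ)) (Set.mem_univ (1 : ℝ))
    (show (0 : ℝ) ≤ 1 - x by linarith) h0 (by ring)
  have h3 : (1 - x) • (0 : ℝ) + x • (1 : ℝ) = x := by simp
  rw [h3, Real.exp_zero, smul_eq_mul, smul_eq_mul, mul_one] at h2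
  have h4 : x * Real.exp 1 ≤ x * 2.72 :=
    mul_le_mul_of_nonneg_left (Real.exp_one_lt_d9.le.trans (by norm_num)) h0
  linarith

end Pool.Agent.H.MP_4bcbbd_co.X
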