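import Pool.Agent.H.MP_4bcbbd_co.Base

/-!
MP_4bcbbd_co, exponential gap: definitions.
-/

set_option autoImplicit false

namespace Pool.Agent.H.MP_4bcbbd_co.X

open scoped BigOperators

/-- the sign of `i` in the sign pattern `A`. -/
def sg {ι : Type} [DecidableEq ι] (A : Finset ι) (i : ι) : ℝ := if i ∈ A then 1 else -1

/-- the pairs `(S, A)` with `A ⊆ S`, `|S| = k`: sets of `k` signed indices. -/
def pats (m k : ℕ) : Finset (Finset (Fin m) × Finset (Fin m)) :=
  (Finset.powersetCard k Finset.univ ×ˢ Finset.univ).filter fun P => P.2 ⊆ P.1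

/-- general position: a linear relation of at most `d` of the vectors is trivial. -/
def GP {ι : Type} [Fintype ι] {d : ℕ} (y : ι → E d) : Prop :=
  ∀ z : ι → ℝ, ∑ i, z i • y i = 0 → ∀ T : Finset ι, T.card ≤ d → (∀ i, i ∉ T → z i = 0) →
    ∀ i, z i = 0

/-- the signed points `(S, A)` are on a supporting hyperplane, the others are strictly below. -/
def Face {n d : ℕ} (x : Fin n → E d) (S A : Finset (Fin n)) : Prop :=
  ∃ l : E d →L[ℝ] ℝ, (∀ i ∈ S, l (x i) = sg A i) ∧ ∀ i, i ∉ S → |l (x i)| < 1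

/-- the inequality for linear relations coming from the face `(S, A)`. -/
def Ineq {ι : Type} [Fintype ι] [DecidableEq ι] {d : ℕ} (y : ι → E d) (S A : Finset ι) : Prop :=
  ∀ z : ι → ℝ, ∑ i, z i • y i = 0 → |∑ i ∈ S, sg A i * z i| ≤ ∑ i ∈ Sᶜ, |z i|

/-- the blown up configuration: two points for each of the `m` classes. -/
structure Blow {d m : ℕ} (Φ : Finset (Finset (Fin m) × Finset (Fin m)))
    (Y : Fin m × Bool → E d) : Prop where
  gp : GP Y
  ineq : ∀ P ∈ Φ, ∀ c : Fin m → Bool, ∀ z : Fin m × Bool → ℝ, ∑ i, z i • Y i = 0 →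
    |∑ a ∈ P.1, sg P.2 a * z (a, c a)| ≤ ∑ i ∈ (P.1.image fun a => (a, c a))ᶜ, |z i|
  opp : ∀ (a : Fin m) (T : Finset (Fin m × Bool)), T.card + 1 = d → (a, false) ∉ T →
    (a, true) ∉ T → ∀ z : Fin m × Bool → ℝ, ∑ i, z i • Y i = 0 →
    (∀ i, i ∉ T → i ≠ (a, false) → i ≠ (a, true) → z i = 0) → (∃ i, z i ≠ 0) →
    z (a, false) * z (a, true) < 0

/-- the abstract condition on a space `W` of vectors in `ℝ^m`. -/
def Abs {m : ℕ} (k s : ℕ) (Φ : Finset (Finset (Fin m) × Finset (Fin m)))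
    (W : Submodule ℝ (EuclideanSpace ℝ (Fin m))) : Prop :=
  ∀ S : Finset (Fin m), S.card = k →
    ∃ U : Submodule ℝ (EuclideanSpace ℝ (Fin m)), U ≤ W ∧
      (9 / 10 : ℝ) * s ≤ Module.finrank ℝ U ∧
      ∀ w ∈ U, ∀ A, (S, A) ∈ Φ → |∑ a ∈ S, sg A a * w a| ≤ ∑ a ∈ Sᶜ, |w a|

/-- the quadratic form of a matrix. -/
noncomputable def Q {u : ℕ} (B : Matrix (Fin u) (Fin u) ℝ) (x : Fin u → ℝ) : ℝ :=
  dotProduct x (B.mulVec x)

lemma mem_pats {m k : ℕ} {P : Finset (Fin m) × Finset (Fin m)} :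
    P ∈ pats m k ↔ P.1.card = k ∧ P.2 ⊆ P.1 := by
  unfold pats
  rw [Finset.mem_filter, Finset.mem_product, Finset.mem_powersetCard]
  simp

lemma card_pats (m k : ℕ) : (pats m k).card = 2 ^ k * m.choose k := by
  classical
  have h : pats m k = (Finset.powersetCard k (Finset.univ : Finset (Fin m))).biUnion
      fun S => S.powerset.image fun A => (S, A) := by
    ext ⟨S, A⟩
    simp only [mem_pats, Finset.mem_biUnion, Finset.mem_powersetCard, Finset.subset_univ,
      true_and, Finset.mem_image, Finset.mem_powerset, Prod.mk.injEq]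
    constructor
    · rintro ⟨h1, h2⟩
      exact ⟨S, h1, A, h2, rfl, rfl⟩
    · rintro ⟨S', h1, A', h2, rfl, rfl⟩
      exact ⟨h1, h2⟩
  rw [h, Finset.card_biUnion]
  · rw [Finset.sum_congr rfl (g := fun _ => 2 ^ k)]
    · rw [Finset.sum_const, Finset.card_powersetCard, Finset.card_univ, Fintype.card_fin,
        smul_eq_mul, mul_comm]
    · intro S hS
      rw [Finset.card_image_of_injective _ (fun A B hAB => (Prod.mk.inj hAB).2),
        Finset.card_powerset, (Finset.mem_powersetCard.1 hS).2]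
  · intro S _ S' _ hne
    rw [Function.onFun, Finset.disjoint_left]
    rintro ⟨T, A⟩ h1 h2
    rw [Finset.mem_image] at h1 h2
    obtain ⟨_, _, h3⟩ := h1
    obtain ⟨_, _, h4⟩ := h2
    exact hne ((Prod.mk.inj h3).1.trans (Prod.mk.inj h4).1.symm)

section sg

variable {ι : Type} [DecidableEq ι]

lemma sg_mem {A : Finset ι} {i : ι} (h : i ∈ A) : sg A i = 1 := if_pos h

lemma sg_not {A : Finset ι} {i : ι} (h : i ∉ A) : sg A i = -1 := if_neg h

lemma sg_or (A : Finset ι) (i : ι) : sg A i = 1 ∨ sg A i = -1 := by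
  by_cases h : i ∈ A
  · exact Or.inl (sg_mem h)
  · exact Or.inr (sg_not h)

lemma sg_mul_self (A : Finset ι) (i : ι) : sg A i * sg A i = 1 := by
  rcases sg_or A i with h | h <;> rw [h] <;> norm_num

lemma abs_sg (A : Finset ι) (i : ι) : |sg A i| = 1 := by
  rcases sg_or A i with h | h <;> rw [h] <;> norm_num

end sg

end Pool.Agent.H.MP_4bcbbd_co.X
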