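import Pool.Agent.H.MP_4bcbbd_co.X.E1

/-!
MP_4bcbbd_co, exponential gap: the averaged step inequality of the energy method.
-/

set_option autoImplicit false

namespace Pool.Agent.H.MP_4bcbbd_co.X

open scoped BigOperators

/-- the sum over both signs for one class. PROOF. `A = 1 + cc E`, `X = A² (m ℓ)`, `N = cc A + lam`. If `ℓ ≠ 0` (so `0 < ℓ`, `0 < X`):
`exp_phi_le` (with `x = m ℓ`, `w = (±1 - u)²`) for both signs and `pair_ineq`:
`T true + T false ≤ 2 - lam ((1-u)²/(X + N(1-u)²) + (1+u)²/(X + N (1+u)²)) ≤ 2 - 2 lam (1+u²)/(X + 2N(1+u²))`.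
If `ℓ = 0`: the right side is `2 - lam/N ≥ 1` (or `2` if `lam = 0`; `N > 0`), and one of `1 - u`, `-1 - u` is nonzero so one of the
`T` is `≤ 0` and the other `≤ 1`. -/
theorem step_one {m : ℕ} (hm : 0 < m) {u ℓ lam E : ℝ} (hu : |u| ≤ 1) (hℓ : 0 ≤ ℓ)
    (hlam : 0 ≤ lam) (hE : 0 ≤ E) (T : Bool → ℝ) (hT1 : ∀ b, T b ≤ 1)
    (hT0 : ∀ b : Bool, ℓ = 0 → ((if b then (1 : ℝ) else -1) - u) ≠ 0 → T b ≤ 0)
    (hT : ∀ b : Bool, ℓ ≠ 0 → T b ≤ Real.exp (-lam *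
      (phi (E + ((if b then (1 : ℝ) else -1) - u) ^ 2 / (m * ℓ)) - phi E))) :
    T true + T false ≤ 2 - 2 * lam * ((1 + u ^ 2) /
      ((1 + cc * E) ^ 2 * (m * ℓ) + 2 * (cc * (1 + cc * E) + lam) * (1 + u ^ 2))) := by
  have hm' : (0 : ℝ) < m := by exact_mod_cast hm
  have hcc := cc_pos
  have hA : 0 < 1 + cc * E := by positivity
  have hN : 0 < cc * (1 + cc * E) + lam := by positivity
  by_cases h0 : ℓ = 0
  · have h1 : T true + T false ≤ 1 := by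
      by_cases hu1 : u = 1
      · have h2 := hT0 false h0 (by rw [hu1]; norm_num)
        linarith [hT1 true]
      · have h2 := hT0 true h0 (by
          intro h
          exact hu1 (by simp only [if_true] at h; linarith))
        linarith [hT1 false]
    have hp : (0 : ℝ) < 1 + u ^ 2 := by positivity
    have h3 : 2 * lam * ((1 + u ^ 2) /
      ((1 + cc * E) ^ 2 * (m * ℓ) + 2 * (cc * (1 + cc * E) + lam) * (1 + u ^ 2))) ≤ 1 := by
      rw [h0, mul_zero, mul_zero, zero_add, ← mul_div_assoc, div_le_one (by positivity)]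
      have h4 : 0 ≤ 2 * (cc * (1 + cc * E)) * (1 + u ^ 2) := by positivity
      nlinarith
    linarith
  · have hℓ' : 0 < ℓ := lt_of_le_of_ne hℓ (Ne.symm h0)
    have hx : 0 < (m : ℝ) * ℓ := mul_pos hm' hℓ'
    have hX : 0 < (1 + cc * E) ^ 2 * (m * ℓ) := by positivity
    have ht := (hT true h0).trans (exp_phi_le hlam hE hx (sq_nonneg _))
    have hf := (hT false h0).trans (exp_phi_le hlam hE hx (sq_nonneg _))
    have hpi := pair_ineq (u := u) hX hN.le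
    simp only [if_true, Bool.false_eq_true, if_false] at ht hf
    have e1 : (-1 - u) ^ 2 = (1 + u) ^ 2 := by ring
    rw [e1] at hf
    have h5 := mul_le_mul_of_nonneg_left hpi hlam
    have e2 : lam * (2 * (1 + u ^ 2) / ((1 + cc * E) ^ 2 * (m * ℓ) +
        2 * (cc * (1 + cc * E) + lam) * (1 + u ^ 2))) = 2 * lam * ((1 + u ^ 2) /
      ((1 + cc * E) ^ 2 * (m * ℓ) + 2 * (cc * (1 + cc * E) + lam) * (1 + u ^ 2))) := by ring
    rw [e2, mul_add lam, ← mul_div_assoc lam, ← mul_div_assoc lam] at h5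
    linarith

/-- PROOF. Sum `step_one` over `a`. With `p a = 1 + (u a)²`, `q a = A² m ℓ_a + 2 N p a > 0`: Cauchy-Schwarz
`(∑ √(p a))² ≤ (∑ p a / q a) (∑ q a)` (`Finset.sum_sq_le_sum_mul_sum_of_sq_eq_mul` or
`Finset.sum_mul_sq_le_sq_mul_sq`; or `div_add_div_same`: Sedrakyan's lemma `Finset.sum_div_sq...`/`div_add_div_same`), `√(p a) ≥ 1 + cc (u a)²`
(`sqrt_ineq`, `(u a)² ≤ 1`), so `∑ √(p a) ≥ m + cc m E = m A`; `∑ q a ≤ A² m D + 2 N m (1 + E)`. Hence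
`∑ p a/q a ≥ m² A²/(m (A² D + 2 N (1+E))) = m/(D + 2N(1+E)/A²) ≥ m/(D + 21/10 lam + 6/5)` by `final_ineq`. -/
theorem step_sum {m : ℕ} (hm : 0 < m) (u ℓ : Fin m → ℝ) (hu : ∀ a, |u a| ≤ 1)
    (hℓ : ∀ a, 0 ≤ ℓ a) {D lam E : ℝ} (hD : ∑ a, ℓ a ≤ D) (hlam : 0 ≤ lam)
    (hE : E = (∑ a, u a ^ 2) / m) (T : Fin m → Bool → ℝ) (hT1 : ∀ a b, T a b ≤ 1)
    (hT0 : ∀ (a : Fin m) (b : Bool), ℓ a = 0 →
      ((if b then (1 : ℝ) else -1) - u a) ≠ 0 → T a b ≤ 0)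
    (hT : ∀ (a : Fin m) (b : Bool), ℓ a ≠ 0 → T a b ≤ Real.exp (-lam *
      (phi (E + ((if b then (1 : ℝ) else -1) - u a) ^ 2 / (m * ℓ a)) - phi E))) :
    ∑ a, ∑ b, T a b ≤ 2 * m * (1 - lam / (D + 21 / 10 * lam + 6 / 5)) := by
  have hm' : (0 : ℝ) < m := by exact_mod_cast hm
  have hcc := cc_pos
  have hsq : ∀ a, u a ^ 2 ≤ 1 := fun a => by
    have := hu a
    rw [← sq_abs]
    nlinarith [abs_nonneg (u a)]
  have hsum : ∑ a, u a ^ 2 = m * E := by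
    rw [hE]
    field_simp
  have hE0 : 0 ≤ E := by
    rw [hE]
    exact div_nonneg (Finset.sum_nonneg fun a _ => sq_nonneg _) hm'.le
  have hE1 : E ≤ 1 := by
    rw [hE, div_le_one hm']
    calc ∑ a, u a ^ 2 ≤ ∑ _a : Fin m, (1 : ℝ) := Finset.sum_le_sum fun a _ => hsq a
      _ = m := by simp
  have hD0 : 0 ≤ D := (Finset.sum_nonneg fun a _ => hℓ a).trans hD
  obtain ⟨A, hAdef⟩ : ∃ A, A = 1 + cc * E := ⟨_, rfl⟩
  obtain ⟨N, hNdef⟩ : ∃ N, N = cc * A + lam := ⟨_, rfl⟩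
  have hA : 0 < A := by rw [hAdef]; positivity
  have hN : 0 < N := by rw [hNdef]; positivity
  have hq : ∀ a, 0 < A ^ 2 * (m * ℓ a) + 2 * N * (1 + u a ^ 2) := fun a => by
    have h1 : 0 ≤ A ^ 2 * (m * ℓ a) := mul_nonneg (sq_nonneg _) (mul_nonneg hm'.le (hℓ a))
    have h2 : 0 < 2 * N * (1 + u a ^ 2) := by positivity
    linarith
  have hone : ∀ a, ∑ b, T a b ≤
      2 - 2 * lam * ((1 + u a ^ 2) / (A ^ 2 * (m * ℓ a) + 2 * N * (1 + u a ^ 2))) := by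
    intro a
    rw [Fintype.sum_bool, hNdef, hAdef]
    exact step_one hm (hu a) (hℓ a) hlam hE0 (T a) (hT1 a) (hT0 a) (hT a)
  -- Cauchy-Schwarz
  have hCS := Finset.sum_sq_le_sum_mul_sum_of_sq_le_mul (Finset.univ : Finset (Fin m))
    (r := fun a => Real.sqrt (1 + u a ^ 2))
    (f := fun a => (1 + u a ^ 2) / (A ^ 2 * (m * ℓ a) + 2 * N * (1 + u a ^ 2)))
    (g := fun a => A ^ 2 * (m * ℓ a) + 2 * N * (1 + u a ^ 2))
    (fun a _ => div_nonneg (by positivity) (hq a).le) (fun a _ => (hq a).le)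
    (fun a _ => by
      show Real.sqrt (1 + u a ^ 2) ^ 2 ≤ _
      rw [Real.sq_sqrt (by positivity), div_mul_cancel₀ _ (hq a).ne'])
  have hs : (m : ℝ) * A ≤ ∑ a, Real.sqrt (1 + u a ^ 2) := by
    calc (m : ℝ) * A = ∑ a, (1 + cc * u a ^ 2) := by
          rw [Finset.sum_add_distrib, ← Finset.mul_sum, hsum, hAdef]
          simp
          ring
      _ ≤ _ := Finset.sum_le_sum fun a _ => sqrt_ineq (sq_nonneg _) (hsq a)
  have hg : ∑ a, (A ^ 2 * (m * ℓ a) + 2 * N * (1 + u a ^ 2)) ≤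
      m * (A ^ 2 * D + 2 * N * (1 + E)) := by
    rw [Finset.sum_add_distrib, ← Finset.mul_sum, ← Finset.mul_sum, ← Finset.mul_sum,
      Finset.sum_add_distrib, hsum]
    have h1 : A ^ 2 * (m * ∑ a, ℓ a) ≤ A ^ 2 * (m * D) :=
      mul_le_mul_of_nonneg_left (mul_le_mul_of_nonneg_left hD hm'.le) (sq_nonneg _)
    have h2 : ∑ _a : Fin m, (1 : ℝ) = m := by simp
    rw [h2]
    nlinarith
  obtain ⟨S, hS⟩ : ∃ S, S = ∑ a, (1 + u a ^ 2) /
      (A ^ 2 * (m * ℓ a) + 2 * N * (1 + u a ^ 2)) := ⟨_, rfl⟩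
  have hS0 : 0 ≤ S := by
    rw [hS]
    exact Finset.sum_nonneg fun a _ => div_nonneg (by positivity) (hq a).le
  rw [← hS] at hCS
  have hQ : 0 < A ^ 2 * D + 2 * N * (1 + E) := by
    have h1 : 0 ≤ A ^ 2 * D := mul_nonneg (sq_nonneg _) hD0
    have h2 : 0 < 2 * N * (1 + E) := by positivity
    linarith
  have h6 : (m : ℝ) * A * (m * A) ≤ S * (m * (A ^ 2 * D + 2 * N * (1 + E))) := by
    calc (m : ℝ) * A * (m * A) ≤ (∑ a, Real.sqrt (1 + u a ^ 2)) ^ 2 := by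
          rw [sq]
          exact mul_le_mul hs hs (by positivity) ((by positivity : (0 : ℝ) ≤ m * A).trans hs)
      _ ≤ _ := hCS
      _ ≤ _ := mul_le_mul_of_nonneg_left hg hS0
  have h7 : (m : ℝ) * A ^ 2 ≤ S * (A ^ 2 * D + 2 * N * (1 + E)) := by
    have h8 : (m : ℝ) * (m * A ^ 2) ≤ m * (S * (A ^ 2 * D + 2 * N * (1 + E))) := by
      calc (m : ℝ) * (m * A ^ 2) = m * A * (m * A) := by ring
        _ ≤ _ := h6
        _ = _ := by ring
    exact le_of_mul_le_mul_left h8 hm'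
  have h9 := final_ineq hE0 hE1 hlam
  rw [← hAdef, ← hNdef, div_le_iff₀ (by positivity)] at h9
  have hW : 0 < D + 21 / 10 * lam + 6 / 5 := by positivity
  have h10 : (m : ℝ) * A ^ 2 ≤ S * ((D + 21 / 10 * lam + 6 / 5) * A ^ 2) := by
    refine h7.trans (mul_le_mul_of_nonneg_left ?_ hS0)
    nlinarith
  have h11 : (m : ℝ) / (D + 21 / 10 * lam + 6 / 5) ≤ S := by
    rw [div_le_iff₀ hW]
    have h12 : (m : ℝ) * A ^ 2 ≤ S * (D + 21 / 10 * lam + 6 / 5) * A ^ 2 := by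
      rw [mul_assoc]
      exact h10
    exact le_of_mul_le_mul_right h12 (by positivity)
  calc ∑ a, ∑ b, T a b ≤ ∑ a, (2 - 2 * lam * ((1 + u a ^ 2) /
        (A ^ 2 * (m * ℓ a) + 2 * N * (1 + u a ^ 2)))) := Finset.sum_le_sum fun a _ => hone a
    _ = 2 * m - 2 * lam * S := by
      rw [Finset.sum_sub_distrib, ← Finset.mul_sum, ← hS]
      simp
      ring
    _ ≤ 2 * m - 2 * lam * (m / (D + 21 / 10 * lam + 6 / 5)) := by
      have := mul_le_mul_of_nonneg_left h11 (by positivity : (0 : ℝ) ≤ 2 * lam)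
      linarith
    _ = _ := by ring

end Pool.Agent.H.MP_4bcbbd_co.X
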