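import Pool.Agent.H.MP_4bcbbd_co.X.Defs

/-!
MP_4bcbbd_co, exponential gap: leverage scores.
-/

set_option autoImplicit false

namespace Pool.Agent.H.MP_4bcbbd_co.X

open scoped BigOperators

/-- leverage scores. PROOF. `ℓ j = ‖P_W e_j‖²`, `P_W` the orthogonal projection onto `W`,
`e_j = EuclideanSpace.single j 1`. Alternatively with the orthonormal basis `b = stdOrthonormalBasis ℝ W`:
`ℓ j = ∑_l (b l j)²`. `0 ≤ ℓ j ≤ ‖e_j‖² = 1`. `∑_j ℓ j = ∑_l ‖b l‖² = finrank W`. For an orthonormal family `e` in `W`: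
`e i j = ⟪e i, e_j⟫ = ⟪e i, P_W e_j⟫`, so Bessel (`Orthonormal.sum_inner_products_le`) gives
`∑_i (e i j)² ≤ ‖P_W e_j‖² = ℓ j`. -/
theorem exists_leverage {m : ℕ} (W : Submodule ℝ (EuclideanSpace ℝ (Fin m))) :
    ∃ ℓ : Fin m → ℝ, (∀ j, 0 ≤ ℓ j ∧ ℓ j ≤ 1) ∧ ∑ j, ℓ j = Module.finrank ℝ W ∧
      ∀ {p : ℕ} (e : Fin p → EuclideanSpace ℝ (Fin m)), Orthonormal ℝ e → (∀ i, e i ∈ W) →
        ∀ j, ∑ i, (e i j) ^ 2 ≤ ℓ j := by
  have key : ∀ (w : W) (j : Fin m), (w : EuclideanSpace ℝ (Fin m)) j =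
      inner ℝ w (W.orthogonalProjectionOnto (EuclideanSpace.single j (1 : ℝ))) := by
    intro w j
    rw [Submodule.inner_orthogonalProjectionOnto_eq_of_mem_left]
    simp [EuclideanSpace.inner_single_right]
  refine ⟨fun j => ‖W.orthogonalProjectionOnto (EuclideanSpace.single j (1 : ℝ))‖ ^ 2, ?_, ?_, ?_⟩
  · intro j
    refine ⟨by positivity, ?_⟩
    have h1 := W.norm_orthogonalProjectionOnto_apply_le (EuclideanSpace.single j (1 : ℝ))
    have h2 : ‖(EuclideanSpace.single j (1 : ℝ) : EuclideanSpace ℝ (Fin m))‖ = 1 := by simp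
    rw [h2] at h1
    exact pow_le_one₀ (norm_nonneg _) h1
  · have b := stdOrthonormalBasis ℝ W
    have h1 : ∀ j : Fin m, ‖W.orthogonalProjectionOnto (EuclideanSpace.single j (1 : ℝ))‖ ^ 2 =
        ∑ l, ((b l : EuclideanSpace ℝ (Fin m)) j) ^ 2 := by
      intro j
      rw [← b.sum_sq_norm_inner_right]
      refine Finset.sum_congr rfl fun l _ => ?_
      rw [key, Real.norm_eq_abs, sq_abs]
    simp only [h1]
    rw [Finset.sum_comm]
    have h2 : ∀ l, ∑ j, ((b l : EuclideanSpace ℝ (Fin m)) j) ^ 2 = 1 := by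
      intro l
      have h3 : ‖(b l : EuclideanSpace ℝ (Fin m))‖ = 1 := b.orthonormal.1 l
      have h4 := EuclideanSpace.norm_sq_eq (b l : EuclideanSpace ℝ (Fin m))
      rw [h3] at h4
      simp only [Real.norm_eq_abs, sq_abs] at h4
      rw [← h4]
      norm_num
    simp only [h2]
    simp
  · intro p e he hW j
    have h1 : Orthonormal ℝ (fun i => (⟨e i, hW i⟩ : W)) := by
      refine ⟨fun i => he.1 i, fun i i' h => he.2 h⟩
    have h2 := h1.sum_inner_products_le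
      (x := W.orthogonalProjectionOnto (EuclideanSpace.single j (1 : ℝ))) (s := Finset.univ)
    refine le_trans (le_of_eq (Finset.sum_congr rfl fun i _ => ?_)) h2
    have h3 := key ⟨e i, hW i⟩ j
    rw [Real.norm_eq_abs, sq_abs, ← h3]

end Pool.Agent.H.MP_4bcbbd_co.X
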