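import Pool.Agent.H.MP_4bcbbd_co.X.EnDefs
import Pool.Agent.H.MP_4bcbbd_co.X.Lev

/-!
MP_4bcbbd_co, exponential gap: points of minimal norm.
-/

set_option autoImplicit false

namespace Pool.Agent.H.MP_4bcbbd_co.X

open scoped BigOperators

/-- PROOF: `exists_norm_eq_iInf_of_complete_convex` with `u = 0` gives `f`, and
`norm_eq_iInf_iff_real_inner_le_zero`: `⟪0 - f, g - f⟫ ≤ 0` for all `g ∈ K`, so
`‖g‖² = ‖f‖² + 2 ⟪f, g - f⟫ + ‖g - f‖² ≥ ‖f‖² + ‖g - f‖²`. -/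
theorem exists_min_norm {H : Type*} [NormedAddCommGroup H] [InnerProductSpace ℝ H]
    [CompleteSpace H] {K : Set H} (hne : K.Nonempty) (hc : Convex ℝ K) (hcl : IsClosed K) :
    ∃ f ∈ K, ∀ g ∈ K, ‖f‖ ^ 2 + ‖g - f‖ ^ 2 ≤ ‖g‖ ^ 2 := by
  obtain ⟨f, hf, hmin⟩ := exists_norm_eq_iInf_of_complete_convex hne hcl.isComplete hc (0 : H)
  refine ⟨f, hf, fun g hg => ?_⟩
  have h1 := (norm_eq_iInf_iff_real_inner_le_zero hc hf).1 hmin g hg
  have h2 : inner ℝ (0 - f) (g - f) = - inner ℝ f (g - f) := by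
    rw [zero_sub, inner_neg_left]
  rw [h2] at h1
  have h3 : ‖g‖ ^ 2 = ‖f + (g - f)‖ ^ 2 := by rw [add_sub_cancel]
  rw [h3, norm_add_sq_real]
  linarith

/-- PROOF: if `h = 0` trivial; otherwise apply the third property of `exists_leverage` to the
orthonormal family consisting of the single vector `‖h‖⁻¹ • h` (`Fin 1`). -/
theorem leverage_single {m : ℕ} (W : Submodule ℝ (EuclideanSpace ℝ (Fin m))) (ℓ : Fin m → ℝ)
    (hℓ : ∀ {p : ℕ} (e : Fin p → EuclideanSpace ℝ (Fin m)), Orthonormal ℝ e →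
      (∀ i, e i ∈ W) → ∀ j, ∑ i, (e i j) ^ 2 ≤ ℓ j)
    {h : EuclideanSpace ℝ (Fin m)} (hh : h ∈ W) (a : Fin m) : (h a) ^ 2 ≤ ℓ a * ‖h‖ ^ 2 := by
  by_cases h0 : h = 0
  · subst h0
    simp
  · have hn : ‖h‖ ≠ 0 := norm_ne_zero_iff.2 h0
    have h1 := hℓ (p := 1) (fun _ => ‖h‖⁻¹ • h) (by
      constructor
      · intro i
        rw [norm_smul, norm_inv, norm_norm, inv_mul_cancel₀ hn]
      · intro i j hij
        exact absurd (Subsingleton.elim i j) hij) (fun _ => W.smul_mem _ hh) a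
    rw [Fin.sum_univ_one] at h1
    have h2 : ((‖h‖⁻¹ • h) a) = ‖h‖⁻¹ * h a := rfl
    rw [h2, mul_pow, inv_pow] at h1
    have h3 : 0 < ‖h‖ ^ 2 := by positivity
    have h4 := mul_le_mul_of_nonneg_right h1 h3.le
    have h5 : (‖h‖ ^ 2)⁻¹ * h a ^ 2 * ‖h‖ ^ 2 = h a ^ 2 := by
      field_simp
    rw [h5] at h4
    exact h4

/-- PROOF: `‖g‖² = ∑ (g j)² ≤ m`, `|g j| ≤ 1`. -/
theorem EnData.energy_le {m d k : ℕ} {Φ : Finset (Finset (Fin m) × Finset (Fin m))}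
    (D : EnData m d k Φ) {g : EuclideanSpace ℝ (Fin m)} (hg : g ∈ D.K) : ‖g‖ ^ 2 / m ≤ 1 := by
  refine div_le_one_of_le₀ ?_ (Nat.cast_nonneg m)
  rw [EuclideanSpace.norm_sq_eq]
  calc ∑ i, ‖g i‖ ^ 2 ≤ ∑ _i : Fin m, (1 : ℝ) := by
        refine Finset.sum_le_sum fun i _ => ?_
        rw [Real.norm_eq_abs]
        exact pow_le_one₀ (abs_nonneg _) (D.K_le g hg i)
    _ = m := by simp

end Pool.Agent.H.MP_4bcbbd_co.X
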