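import Pool.Agent.H.MP_4bcbbd_co.X.E2
import Pool.Agent.H.MP_4bcbbd_co.X.E3

/-!
MP_4bcbbd_co, exponential gap: the induction of the energy method.
-/

set_option autoImplicit false

namespace Pool.Agent.H.MP_4bcbbd_co.X

open scoped BigOperators

variable {m d k : ℕ} {Φ : Finset (Finset (Fin m) × Finset (Fin m))}

open Classical in
/-- the number of successful continuations. -/
noncomputable def EnData.num (D : EnData m d k Φ) (B : Finset (Fin m)) (σ : Fin m → Bool)
    (i : ℕ) : ℕ := (Finset.univ.filter fun c : Fin i → Fin m × Bool => D.Suc B σ c).card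

/-- PROOF: `c ↦ (c 0, Fin.tail c)` injects the successful sequences of length `i + 1` into the disjoint union; a
successful `c` has `(c 0).1 ∉ B` and `Fin.tail c` is successful for `(insert (c 0).1 B, update σ (c 0).1 (c 0).2)`
(the same `g`; `Function.update` agrees with `σ` on `B`). -/
theorem EnData.num_succ (D : EnData m d k Φ) (B : Finset (Fin m)) (σ : Fin m → Bool) (i : ℕ) :
    D.num B σ (i + 1) ≤ ∑ a, ∑ b, if a ∈ B then 0 else
      D.num (insert a B) (Function.update σ a b) i := by
  classical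
  unfold EnData.num
  rw [Finset.card_eq_sum_card_fiberwise (f := fun c : Fin (i + 1) → Fin m × Bool => c 0)
    (t := Finset.univ) (fun x _ => Finset.mem_coe.2 (Finset.mem_univ _)),
    Fintype.sum_prod_type]
  refine Finset.sum_le_sum fun a _ => Finset.sum_le_sum fun b _ => ?_
  split_ifs with ha
  · rw [Nat.le_zero, Finset.card_eq_zero, Finset.filter_eq_empty_iff]
    intro c hc h0
    have h1 := (Finset.mem_filter.1 hc).2.2.1 0
    rw [h0] at h1
    exact h1 ha
  · apply Finset.card_le_card_of_injOn (fun c => Fin.tail c)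
    · intro c hc
      rw [Finset.mem_coe, Finset.mem_filter, Finset.mem_filter] at hc
      obtain ⟨⟨-, hinj, hB, g, hg, hgF⟩, h0⟩ := hc
      rw [Finset.mem_coe, Finset.mem_filter]
      refine ⟨Finset.mem_univ _, ?_, ?_, g, ⟨hg.1, ?_⟩, ?_⟩
      · intro l l' h
        exact Fin.succ_injective _ (hinj h)
      · intro l hl
        rcases Finset.mem_insert.1 hl with h | h
        · have h1 : (c l.succ).1 = (c 0).1 := by
            rw [h0]
            exact h
          exact Fin.succ_ne_zero l (hinj h1)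
        · exact hB l.succ h
      · intro x hx
        by_cases hxa : x = a
        · subst hxa
          rw [Function.update_self]
          have h1 := hgF 0
          rw [h0] at h1
          exact h1
        · rw [Function.update_of_ne hxa]
          exact hg.2 x ((Finset.mem_insert.1 hx).resolve_left hxa)
      · intro l
        exact hgF l.succ
    · intro c hc c' hc' h
      rw [Finset.mem_coe, Finset.mem_filter] at hc hc'
      have h0 : c 0 = c' 0 := by rw [hc.2, hc'.2]
      rw [← Fin.cons_self_tail c, ← Fin.cons_self_tail c', h0]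
      exact congrArg _ h

private lemma num_zero_le (D : EnData m d k Φ) (B : Finset (Fin m)) (σ : Fin m → Bool) :
    D.num B σ 0 ≤ 1 := by
  classical
  unfold EnData.num
  refine (Finset.card_filter_le _ _).trans ?_
  rw [Finset.card_univ]
  simp

private lemma num_eq_zero (D : EnData m d k Φ) (B : Finset (Fin m)) (σ : Fin m → Bool) (i : ℕ)
    (h : ¬ (D.KB B σ).Nonempty) : D.num B σ i = 0 := by
  classical
  unfold EnData.num
  rw [Finset.card_eq_zero, Finset.filter_eq_empty_iff]
  rintro c - ⟨-, -, g, hg, -⟩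
  exact h ⟨g, hg⟩

private lemma fac_nonneg {lam x : ℝ} (hlam : 0 ≤ lam) (hx : 0 ≤ x) :
    0 ≤ 1 - lam / (x + 21 / 10 * lam + 6 / 5) := by
  rw [sub_nonneg, div_le_one (by linarith)]
  linarith

/-- PROOF: see E4 in /team-store/h93_4bcbbd_EXP3.md (Energy lemma). Induction on `i` generalizing `B, σ, f`.
`i = 0`: `num ≤ 1` (only one function on `Fin 0`), and the right side is `≥ 1` since `phi` is monotone and
`‖f‖²/m ≤ 1` (`energy_le`).
Step: let `E = ‖f‖²/m = (∑ (f a)²)/m`, `ℓ` from `exists_leverage (D.V B)`, `D' = d - 2 |B|`,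
`R = (2m)^i exp(lam φ(1)) ∏_{l<i} (1 - lam/(d - 2(|B|+1+l) + ...))`. For `(a, b)` let `B' = insert a B`, `σ' = update σ a b`, and define
`T a b = 0` if `a ∈ B` or `KB B' σ' = ∅`, else `T a b = exp(-lam (φ(‖f'‖²/m) - φ(E)))` with `f'` the point of minimal norm
of `KB B' σ'` (`exists_min_norm`, `choose`). Then `num B' σ' i ≤ R * exp(-lam φ(E)) * T a b` for `a ∉ B` by the induction
hypothesis (`num = 0` if `KB B' σ'` is empty). Conditions of `step_sum` with `u = f`: `f' ∈ KB B σ`, so
`‖f'‖² ≥ ‖f‖² + ‖f' - f‖²` (`hmin`), `f' - f ∈ V B` (`diff`), `(f' - f) a = (±1) - f a` (`F_val`), so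
`((±1) - f a)² ≤ ℓ a ‖f' - f‖²` (`leverage_single`). If `ℓ a = 0` and `(±1) - f a ≠ 0` this is impossible so `KB B' σ' = ∅`, `T a b = 0`. If `ℓ a ≠ 0`:
`‖f'‖²/m ≥ E + ((±1) - f a)²/(m ℓ a)`, `phi_mono`. `step_sum` gives
`∑∑ T ≤ 2 m (1 - lam/(d - 2|B| + ...))`. The product over `range (i+1)` splits off `l = 0` (`Finset.prod_range_succ'`). -/
theorem EnData.num_le (D : EnData m d k Φ) (hm : 0 < m) (hkd : 2 * k ≤ d) {lam : ℝ}
    (hlam : 0 ≤ lam) (i : ℕ) : ∀ (B : Finset (Fin m)) (σ : Fin m → Bool), B.card + i ≤ k →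
    ∀ f ∈ D.KB B σ, (∀ g ∈ D.KB B σ, ‖f‖ ^ 2 + ‖g - f‖ ^ 2 ≤ ‖g‖ ^ 2) →
    (D.num B σ i : ℝ) ≤ (2 * m) ^ i * Real.exp (lam * (phi 1 - phi (‖f‖ ^ 2 / m))) *
      ∏ l ∈ Finset.range i,
        (1 - lam / ((d : ℝ) - 2 * (B.card + l) + 21 / 10 * lam + 6 / 5)) := by
  have hmR : (0 : ℝ) < m := by exact_mod_cast hm
  induction i with
  | zero =>
    intro B σ _ f hf _
    have h1 : (D.num B σ 0 : ℝ) ≤ 1 := by exact_mod_cast num_zero_le D B σ
    have h2 : ‖f‖ ^ 2 / m ≤ 1 := D.energy_le hf.1
    have h3 : phi (‖f‖ ^ 2 / m) ≤ phi 1 := phi_mono (by positivity) h2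
    have h4 : (1 : ℝ) ≤ Real.exp (lam * (phi 1 - phi (‖f‖ ^ 2 / m))) :=
      Real.one_le_exp (mul_nonneg hlam (by linarith))
    rw [pow_zero, one_mul, Finset.prod_range_zero, mul_one]
    exact h1.trans h4
  | succ i ih =>
    intro B σ hcard f hf hmin
    set E : ℝ := ‖f‖ ^ 2 / m with hE
    have hE0 : 0 ≤ E := by positivity
    obtain ⟨ℓ, hℓ01, hℓsum, hℓ⟩ := exists_leverage (D.V B)
    set Pr : ℝ := ∏ l ∈ Finset.range i,
      (1 - lam / ((d : ℝ) - 2 * ((B.card + 1 : ℕ) + l) + 21 / 10 * lam + 6 / 5)) with hPr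
    have hPr0 : 0 ≤ Pr := by
      apply Finset.prod_nonneg
      intro l hl
      rw [Finset.mem_range] at hl
      apply fac_nonneg hlam
      have h1 : 2 * ((B.card + 1) + l) ≤ d := by omega
      have h2 : ((2 * ((B.card + 1) + l) : ℕ) : ℝ) ≤ d := by exact_mod_cast h1
      push_cast at h2 ⊢
      linarith
    set R : ℝ := (2 * m) ^ i * Real.exp (lam * (phi 1 - phi E)) * Pr with hR
    have hR0 : 0 ≤ R := by positivity
    have hex : ∀ (a : Fin m) (b : Bool), ∃ t : ℝ, t ≤ 1 ∧
        (a ∉ B → (D.num (insert a B) (Function.update σ a b) i : ℝ) ≤ R * t) ∧ 0 ≤ t ∧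
        (ℓ a = 0 → ((if b then (1 : ℝ) else -1) - f a) ≠ 0 → t ≤ 0) ∧
        (ℓ a ≠ 0 → t ≤ Real.exp (-lam *
          (phi (E + ((if b then (1 : ℝ) else -1) - f a) ^ 2 / (m * ℓ a)) - phi E))) := by
      intro a b
      by_cases hab : a ∈ B ∨ ¬ (D.KB (insert a B) (Function.update σ a b)).Nonempty
      · refine ⟨0, zero_le_one, ?_, le_rfl, fun _ _ => le_rfl, fun _ => (Real.exp_pos _).le⟩
        intro haB
        rcases hab with h | h
        · exact absurd h haB
        · rw [num_eq_zero D _ _ i h, Nat.cast_zero, mul_zero]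
      · rw [not_or, not_not] at hab
        obtain ⟨haB, hne⟩ := hab
        obtain ⟨f', hf', hf'min⟩ := exists_min_norm hne
          (D.KB_convex (insert a B) (Function.update σ a b))
          (D.KB_closed (insert a B) (Function.update σ a b))
        have hf'B : f' ∈ D.KB B σ := by
          refine ⟨hf'.1, fun x hx => ?_⟩
          have h1 := hf'.2 x (Finset.mem_insert_of_mem hx)
          have hxa : x ≠ a := by
            rintro rfl
            exact haB hx
          rwa [Function.update_of_ne hxa] at h1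
        have hm1 := hmin f' hf'B
        have hdiff : f' - f ∈ D.V B := D.diff B σ f' f hf'.1 hf.1 hf'B.2 hf.2
        have hval : (f' - f) a = (if b then (1 : ℝ) else -1) - f a := by
          have h1 := hf'.2 a (Finset.mem_insert_self a B)
          rw [Function.update_self] at h1
          have h2 := D.F_val a b f' h1
          show f' a - f a = _
          rw [h2]
        have hlev := leverage_single (D.V B) ℓ hℓ hdiff a
        rw [hval] at hlev
        set w : ℝ := ((if b then (1 : ℝ) else -1) - f a) ^ 2 with hw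
        have hw0 : 0 ≤ w := sq_nonneg _
        have hEE' : E ≤ ‖f'‖ ^ 2 / m := by
          have h1 : ‖f‖ ^ 2 ≤ ‖f'‖ ^ 2 := by
            have := sq_nonneg ‖f' - f‖
            linarith
          exact div_le_div_of_nonneg_right h1 hmR.le
        have hphi : phi E ≤ phi (‖f'‖ ^ 2 / m) := phi_mono hE0 hEE'
        refine ⟨Real.exp (-lam * (phi (‖f'‖ ^ 2 / m) - phi E)), ?_, ?_, (Real.exp_pos _).le, ?_, ?_⟩
        · apply Real.exp_le_one_iff.2
          nlinarith
        · intro _
          have hcard' : (insert a B).card = B.card + 1 := Finset.card_insert_of_notMem haB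
          have h1 := ih (insert a B) (Function.update σ a b) (by omega) f' hf' hf'min
          rw [hcard'] at h1
          refine h1.trans (le_of_eq ?_)
          have h2 : Real.exp (lam * (phi 1 - phi (‖f'‖ ^ 2 / m))) =
              Real.exp (lam * (phi 1 - phi E)) *
              Real.exp (-lam * (phi (‖f'‖ ^ 2 / m) - phi E)) := by
            rw [← Real.exp_add]
            congr 1
            ring
          rw [hR, hPr, h2]
          ring
        · intro hl0 hne0
          exfalso
          rw [hl0, zero_mul] at hlev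
          exact hne0 (pow_eq_zero_iff two_ne_zero |>.1 (le_antisymm hlev (sq_nonneg _)))
        · intro hl0
          have hlpos : 0 < ℓ a := lt_of_le_of_ne (hℓ01 a).1 (Ne.symm hl0)
          have h1 : E + w / (m * ℓ a) ≤ ‖f'‖ ^ 2 / m := by
            have h2 : w / ℓ a ≤ ‖f' - f‖ ^ 2 := by
              rw [div_le_iff₀ hlpos]
              linarith
            have h3 : w / (m * ℓ a) = w / ℓ a / m := by
              rw [div_div, mul_comm (m : ℝ)]
            rw [hE, h3, ← add_div]
            apply div_le_div_of_nonneg_right _ hmR.le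
            linarith
          have h2 : phi (E + w / (m * ℓ a)) ≤ phi (‖f'‖ ^ 2 / m) :=
            phi_mono (by positivity) h1
          apply Real.exp_le_exp.2
          nlinarith
    choose T hT1 hTn hT0 hTz hTe using hex
    have hdim := D.V_dim B (by omega)
    have hD : ∑ a, ℓ a ≤ (d : ℝ) - 2 * B.card := by
      rw [hℓsum]
      have h1 : ((Module.finrank ℝ (D.V B) + 2 * B.card : ℕ) : ℝ) ≤ d := by exact_mod_cast hdim
      push_cast at h1
      linarith
    have hE2 : E = (∑ a, f a ^ 2) / m := by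
      rw [hE, EuclideanSpace.norm_sq_eq]
      congr 1
      refine Finset.sum_congr rfl fun a _ => ?_
      rw [Real.norm_eq_abs, sq_abs]
    have hstep := step_sum hm (fun a => f a) ℓ (fun a => D.K_le f hf.1 a) (fun a => (hℓ01 a).1) hD
      hlam hE2 T hT1 hTz hTe
    have h1 : (D.num B σ (i + 1) : ℝ) ≤ ∑ a, ∑ b, R * T a b := by
      have h2 : (D.num B σ (i + 1) : ℝ) ≤ ((∑ a, ∑ b, if a ∈ B then 0 else
        D.num (insert a B) (Function.update σ a b) i : ℕ) : ℝ) := by
        exact_mod_cast D.num_succ B σ i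
      refine h2.trans ?_
      push_cast
      refine Finset.sum_le_sum fun a _ => Finset.sum_le_sum fun b _ => ?_
      split_ifs with ha
      · exact mul_nonneg hR0 (hT0 a b)
      · exact hTn a b ha
    have h2 : ∑ a, ∑ b, R * T a b = R * ∑ a, ∑ b, T a b := by
      rw [Finset.mul_sum]
      refine Finset.sum_congr rfl fun a _ => ?_
      rw [Finset.mul_sum]
    rw [h2] at h1
    refine h1.trans ((mul_le_mul_of_nonneg_left hstep hR0).trans (le_of_eq ?_))
    rw [Finset.prod_range_succ', hR, hPr]
    push_cast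
    have h3 : ∀ l : ℕ, (1 - lam / ((d : ℝ) - 2 * (B.card + 1 + l) + 21 / 10 * lam + 6 / 5)) =
        (1 - lam / ((d : ℝ) - 2 * (B.card + (l + 1)) + 21 / 10 * lam + 6 / 5)) := by
      intro l
      congr 3
      ring
    simp only [h3]
    rw [add_zero, pow_succ]
    ring

end Pool.Agent.H.MP_4bcbbd_co.X
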