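import Pool.Agent.H.MP_4bcbbd_co.X.E4

/-!
MP_4bcbbd_co, exponential gap: the energy lemma.
-/

set_option autoImplicit false

namespace Pool.Agent.H.MP_4bcbbd_co.X

open scoped BigOperators

variable {m d k : ℕ} {Φ : Finset (Finset (Fin m) × Finset (Fin m))}

/-- PROOF: injection of `Φ × Equiv.Perm (Fin k)` into the successful sequences of length `k` for `B = ∅`: for `P ∈ Φ` let
`e : Fin k → Fin m` be the increasing enumeration of `P.1` (`Finset.orderEmbOfFin`, `card = k` by
`mem_pats`), `c l = (e (π l), decide (e (π l) ∈ P.2))`; successful by `D.face P`. `(P, π)` is determined by `c`: `P.1` is the range of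
`fun l => (c l).1`, `P.2` the set of `a` with `(a, true)` in the range of `c` (as `P.2 ⊆ P.1`), and then
`e (π l) = (c l).1` gives `π`. -/
theorem EnData.card_le_num (D : EnData m d k Φ) (hΦ : Φ ⊆ pats m k) (σ : Fin m → Bool) :
    Φ.card * k.factorial ≤ D.num ∅ σ k := by
  classical
  rcases Finset.eq_empty_or_nonempty Φ with hempty | ⟨P0, hP0⟩
  · subst hempty
    rw [Finset.card_empty, zero_mul]
    exact Nat.zero_le _
  have henum : ∀ P : Finset (Fin m) × Finset (Fin m), P.1.card = k →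
      ∃ e : Fin k → Fin m, Function.Injective e ∧ ∀ x, x ∈ P.1 ↔ ∃ l, e l = x := by
    intro P hP
    refine ⟨fun l => P.1.orderEmbOfFin hP l, (P.1.orderEmbOfFin hP).injective, fun x => ?_⟩
    have h1 := Finset.range_orderEmbOfFin P.1 hP
    rw [← Finset.mem_coe, ← h1, Set.mem_range]
  have hex : ∀ P : Finset (Fin m) × Finset (Fin m), ∃ e : Fin k → Fin m, P ∈ Φ →
      Function.Injective e ∧ ∀ x, x ∈ P.1 ↔ ∃ l, e l = x := by
    intro P
    by_cases hP : P ∈ Φ
    · obtain ⟨e, he⟩ := henum P (mem_pats.1 (hΦ hP)).1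
      exact ⟨e, fun _ => he⟩
    · obtain ⟨e, -⟩ := henum P0 (mem_pats.1 (hΦ hP0)).1
      exact ⟨e, fun h => absurd h hP⟩
  choose e he using hex
  have h1 : (Φ ×ˢ (Finset.univ : Finset (Equiv.Perm (Fin k)))).card = Φ.card * k.factorial := by
    rw [Finset.card_product, Finset.card_univ, Fintype.card_perm, Fintype.card_fin]
  rw [← h1]
  unfold EnData.num
  apply Finset.card_le_card_of_injOn (fun x l => (e x.1 (x.2 l), decide (e x.1 (x.2 l) ∈ x.1.2)))
  · rintro ⟨P, π⟩ hx
    rw [Finset.mem_coe, Finset.mem_product] at hx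
    obtain ⟨hP, -⟩ := hx
    simp only at hP
    obtain ⟨hinj, hrange⟩ := he P hP
    obtain ⟨g, hgK, hg⟩ := D.face P hP
    rw [Finset.mem_coe, Finset.mem_filter]
    refine ⟨Finset.mem_univ _, hinj.comp π.injective, fun l => Finset.notMem_empty _, g,
      ⟨hgK, fun a ha => absurd ha (Finset.notMem_empty a)⟩, fun l => ?_⟩
    exact hg _ ((hrange _).2 ⟨π l, rfl⟩)
  · rintro ⟨P, π⟩ hx ⟨P', π'⟩ hx' heq
    rw [Finset.mem_coe, Finset.mem_product] at hx hx'
    obtain ⟨hP, -⟩ := hx
    obtain ⟨hP', -⟩ := hx'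
    simp only at hP hP'
    obtain ⟨hinj, hrange⟩ := he P hP
    obtain ⟨hinj', hrange'⟩ := he P' hP'
    have h2 : ∀ l, e P (π l) = e P' (π' l) ∧
        (e P (π l) ∈ P.2 ↔ e P' (π' l) ∈ P'.2) := by
      intro l
      have h3 := congrFun heq l
      simp only [Prod.mk.injEq, decide_eq_decide] at h3
      exact h3
    have h3 : P.1 = P'.1 := by
      ext x
      rw [hrange, hrange']
      constructor
      · rintro ⟨l, rfl⟩
        refine ⟨π' (π.symm l), ?_⟩
        have := (h2 (π.symm l)).1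
        rw [Equiv.apply_symm_apply] at this
        exact this.symm
      · rintro ⟨l, rfl⟩
        refine ⟨π (π'.symm l), ?_⟩
        have := (h2 (π'.symm l)).1
        rw [Equiv.apply_symm_apply] at this
        exact this
    have h4 : P.2 = P'.2 := by
      ext x
      constructor
      · intro hx
        obtain ⟨l, hl⟩ := (hrange x).1 ((mem_pats.1 (hΦ hP)).2 hx)
        obtain ⟨l', rfl⟩ := π.surjective l
        have h5 := h2 l'
        rw [← h5.1, hl] at h5
        exact h5.2.1 hx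
      · intro hx
        obtain ⟨l, hl⟩ := (hrange' x).1 ((mem_pats.1 (hΦ hP')).2 hx)
        obtain ⟨l', rfl⟩ := π'.surjective l
        have h5 := h2 l'
        rw [h5.1, hl] at h5
        exact h5.2.2 hx
    have h5 : P = P' := Prod.ext h3 h4
    subst h5
    have h6 : π = π' := by
      ext l
      rw [hinj (h2 l).1]
    rw [h6]

/-- PROOF: if `Φ = ∅` the left side is `0`, and `bnd ≥ 0`. Otherwise `D.KB ∅ σ = D.K` is nonempty (`face`); `f` from
`exists_min_norm`; `num_le` with `B = ∅`, `i = k`; `exp (lam (phi 1 - phi E)) ≤ exp (lam phi 1) = exp (lam/√2)`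
(`phi_one`, `phi_nonneg`). -/
theorem EnData.energy (D : EnData m d k Φ) (hΦ : Φ ⊆ pats m k) (hm : 0 < m) (hkd : 2 * k ≤ d)
    {lam : ℝ} (hlam : 0 ≤ lam) :
    (Φ.card : ℝ) * (k.factorial : ℝ) ≤ (2 * m) ^ k * bnd d k lam := by
  have hmR : (0 : ℝ) < m := by exact_mod_cast hm
  have hprod : 0 ≤ ∏ l ∈ Finset.range k,
      (1 - lam / ((d : ℝ) - 2 * l + 21 / 10 * lam + 6 / 5)) := by
    apply Finset.prod_nonneg
    intro l hl
    rw [Finset.mem_range] at hl
    have h1 : 2 * l ≤ d := by omega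
    have h2 : ((2 * l : ℕ) : ℝ) ≤ d := by exact_mod_cast h1
    push_cast at h2
    rw [sub_nonneg, div_le_one (by linarith)]
    linarith
  rcases Finset.eq_empty_or_nonempty Φ with hempty | ⟨P0, hP0⟩
  · subst hempty
    rw [Finset.card_empty, Nat.cast_zero, zero_mul]
    unfold bnd
    positivity
  obtain ⟨g0, hg0, -⟩ := D.face P0 hP0
  obtain ⟨f, hf, hmin⟩ := exists_min_norm (K := D.KB ∅ (fun _ => true))
    ⟨g0, hg0, fun a ha => absurd ha (Finset.notMem_empty a)⟩ (D.KB_convex _ _) (D.KB_closed _ _)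
  have h1 := D.num_le hm hkd hlam k ∅ (fun _ => true)
    (by rw [Finset.card_empty]; omega) f hf hmin
  have h2 : (Φ.card : ℝ) * (k.factorial : ℝ) ≤ D.num ∅ (fun _ => true) k := by
    exact_mod_cast D.card_le_num hΦ (fun _ => true)
  refine h2.trans (h1.trans ?_)
  rw [Finset.card_empty, Nat.cast_zero]
  unfold bnd
  rw [mul_assoc]
  have h3 : Real.exp (lam * (phi 1 - phi (‖f‖ ^ 2 / m))) ≤ Real.exp (lam / Real.sqrt 2) := by
    apply Real.exp_le_exp.2
    rw [phi_one]
    have h4 : 0 ≤ phi (‖f‖ ^ 2 / m) := phi_nonneg (by positivity)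
    have h5 : 0 ≤ lam * phi (‖f‖ ^ 2 / m) := mul_nonneg hlam h4
    rw [mul_sub, mul_one_div]
    linarith
  simp only [zero_add]
  apply mul_le_mul_of_nonneg_left _ (by positivity)
  exact mul_le_mul_of_nonneg_right h3 hprod

end Pool.Agent.H.MP_4bcbbd_co.X
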