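import Pool.Agent.H.MP_4bcbbd_co.X.Defs

/-!
MP_4bcbbd_co, exponential gap: greedy orthonormal systems.
-/

set_option autoImplicit false

namespace Pool.Agent.H.MP_4bcbbd_co.X

open scoped BigOperators

lemma Greedy_snoc {m p : ℕ} (e : Fin p → EuclideanSpace ℝ (Fin m)) (he : Orthonormal ℝ e)
    (w : EuclideanSpace ℝ (Fin m)) (hw : ‖w‖ = 1) (ho : ∀ i, inner ℝ (e i) w = 0) :
    Orthonormal ℝ (Fin.snoc (α := fun _ => EuclideanSpace ℝ (Fin m)) e w) := by
  constructor
  · intro i
    refine Fin.lastCases ?_ (fun i => ?_) i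
    · rw [Fin.snoc_last]
      exact hw
    · rw [Fin.snoc_castSucc]
      exact he.1 i
  · intro i j
    refine Fin.lastCases ?_ (fun i => ?_) i
    · refine Fin.lastCases ?_ (fun j => ?_) j
      · intro h
        exact absurd rfl h
      · intro _
        rw [Fin.snoc_last, Fin.snoc_castSucc, real_inner_comm]
        exact ho j
    · refine Fin.lastCases ?_ (fun j => ?_) j
      · intro _
        rw [Fin.snoc_last, Fin.snoc_castSucc]
        exact ho i
      · intro h
        rw [Fin.snoc_castSucc, Fin.snoc_castSucc]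
        exact he.2 (fun hij => h (by rw [hij]))

/-- greedy systems. PROOF. Call an orthonormal family `e : Fin p → _` in `U` good if
`γ < ∑_{j ∈ J} (e i j)²` for all `i`. The empty family is good, `p ≤ m` for every orthonormal
family (`Orthonormal.linearIndependent`, finrank). Take a good family with `p` maximal
(`Nat.findGreatest` or `Nat.sSup_mem`). Then `p * γ ≤ τ` by `hτ`. Let `U' = U ⊓ (span (range e))ᗮ`:
`finrank U' ≥ finrank U - p` (`Submodule.finrank_add_inf_finrank_orthogonal` for `span(range e) ≤ U`: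
`finrank (span e) + finrank (Kᗮ ⊓ U) = finrank U`, `finrank (span e) = p`). If `w ∈ U'` had
`∑_{j ∈ J} (w j)² > γ ‖w‖²` then `w ≠ 0`, and adding `w/‖w‖` to `e` (`Fin.snoc`) would give a longer good family. -/
theorem greedy {m : ℕ} (U : Submodule ℝ (EuclideanSpace ℝ (Fin m))) (J : Finset (Fin m))
    (τ γ : ℝ) (hγ : 0 < γ)
    (hτ : ∀ {p : ℕ} (e : Fin p → EuclideanSpace ℝ (Fin m)), Orthonormal ℝ e →
      (∀ i, e i ∈ U) → ∑ i, ∑ j ∈ J, (e i j) ^ 2 ≤ τ) :
    ∃ U' : Submodule ℝ (EuclideanSpace ℝ (Fin m)), U' ≤ U ∧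
      (Module.finrank ℝ U : ℝ) - τ / γ ≤ Module.finrank ℝ U' ∧
      ∀ w ∈ U', ∑ j ∈ J, (w j) ^ 2 ≤ γ * ‖w‖ ^ 2 := by
  classical
  let good : ℕ → Prop := fun p => ∃ e : Fin p → EuclideanSpace ℝ (Fin m), Orthonormal ℝ e ∧
    (∀ i, e i ∈ U) ∧ ∀ i, γ < ∑ j ∈ J, (e i j) ^ 2
  have hg0 : good 0 := ⟨fun i => i.elim0, ⟨fun i => i.elim0, fun i => i.elim0⟩,
    fun i => i.elim0, fun i => i.elim0⟩
  have hgm : ∀ p, good p → p ≤ m := by
    rintro p ⟨e, he, -, -⟩
    have h1 := he.linearIndependent.fintype_card_le_finrank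
    rwa [Fintype.card_fin, finrank_euclideanSpace_fin] at h1
  obtain ⟨p, hpg, hmax⟩ : ∃ p, good p ∧ ∀ q, good q → q ≤ p :=
    ⟨_, Nat.findGreatest_spec (Nat.zero_le m) hg0,
      fun q hq => Nat.le_findGreatest (hgm q hq) hq⟩
  obtain ⟨e, he, heU, heγ⟩ := hpg
  have hsub : Submodule.span ℝ (Set.range e) ≤ U := by
    rw [Submodule.span_le]
    rintro _ ⟨i, rfl⟩
    exact heU i
  refine ⟨(Submodule.span ℝ (Set.range e))ᗮ ⊓ U, inf_le_right, ?_, ?_⟩
  · have h1 := Submodule.finrank_add_inf_finrank_orthogonal hsub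
    rw [finrank_span_eq_card he.linearIndependent, Fintype.card_fin] at h1
    have h2 : (p : ℝ) * γ ≤ τ := by
      refine le_trans ?_ (hτ e he heU)
      calc (p : ℝ) * γ = ∑ _i : Fin p, γ := by
            rw [Finset.sum_const, Finset.card_univ, Fintype.card_fin, nsmul_eq_mul]
        _ ≤ _ := Finset.sum_le_sum fun i _ => (heγ i).le
    have h3 : (p : ℝ) ≤ τ / γ := by
      rw [le_div_iff₀ hγ]
      exact h2
    have h4 : (p : ℝ) + (Module.finrank ℝ
        ((Submodule.span ℝ (Set.range e))ᗮ ⊓ U : Submodule ℝ (EuclideanSpace ℝ (Fin m))) : ℝ) =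
        Module.finrank ℝ U := by exact_mod_cast h1
    linarith
  · rintro w ⟨hw1, hw2⟩
    by_contra hcon
    rw [not_le] at hcon
    have hw0 : w ≠ 0 := by
      rintro rfl
      simp at hcon
    have hn : 0 < ‖w‖ := norm_pos_iff.2 hw0
    have hlong : good (p + 1) := by
      refine ⟨Fin.snoc (α := fun _ => EuclideanSpace ℝ (Fin m)) e (‖w‖⁻¹ • w),
        Greedy_snoc e he _ ?_ ?_, ?_, ?_⟩
      · rw [norm_smul, norm_inv, norm_norm, inv_mul_cancel₀ hn.ne']
      · intro i
        rw [inner_smul_right]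
        have h1 := (Submodule.mem_orthogonal _ w).1 hw1 (e i) (Submodule.subset_span ⟨i, rfl⟩)
        rw [h1, mul_zero]
      · intro i
        refine Fin.lastCases ?_ (fun i => ?_) i
        · rw [Fin.snoc_last]
          exact U.smul_mem _ hw2
        · rw [Fin.snoc_castSucc]
          exact heU i
      · intro i
        refine Fin.lastCases ?_ (fun i => ?_) i
        · rw [Fin.snoc_last]
          have h1 : ∑ j ∈ J, ((‖w‖⁻¹ • w) j) ^ 2 = (‖w‖⁻¹) ^ 2 * ∑ j ∈ J, (w j) ^ 2 := by
            rw [Finset.mul_sum]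
            apply Finset.sum_congr rfl
            intro j _
            rw [PiLp.smul_apply, smul_eq_mul, mul_pow]
          rw [h1]
          have h2 : (‖w‖⁻¹) ^ 2 * (γ * ‖w‖ ^ 2) = γ := by
            field_simp
          calc γ = (‖w‖⁻¹) ^ 2 * (γ * ‖w‖ ^ 2) := h2.symm
            _ < _ := mul_lt_mul_of_pos_left hcon (by positivity)
        · rw [Fin.snoc_castSucc]
          exact heγ i
    have := hmax _ hlong
    omega

end Pool.Agent.H.MP_4bcbbd_co.X
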