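import Pool.Agent.H.MP_4bcbbd_co.X.BlowF

/-!
MP_4bcbbd_co, exponential gap: a functional with double contacts (Hahn-Banach).
-/

set_option autoImplicit false

namespace Pool.Agent.H.MP_4bcbbd_co.X

open scoped BigOperators

/-- PROOF. `E = (Fin m × Bool → ℝ)`, `S = P.1`, `T z = ∑_{a ∈ S} sg P.2 a * (z (a,false) + z (a,true))` (linear), `N z = ∑_{a ∈ Sᶜ} |z (a,false)|`
(sublinear), `E₀` = submodule of all `z` with `∑ z_i Y_i = 0` and `z (a, true) = 0` for `a ∉ S`. `T ≤ N` on `E₀` by `blow_F`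
(`le_abs_self`). Hahn-Banach `exists_extension_of_le_sublinear` gives a linear `T' : E →ₗ ℝ` with `T' = T` on `E₀` and `T' ≤ N` everywhere.
So `T' (Pi.single (a,b) 1) = 0` for `a ∈ S` (`N` vanishes on `± Pi.single (a,b) 1`), and `|T' (Pi.single (j,false) 1)| ≤ 1`.
Let `E₁` = submodule of all `z` with `z (a, true) = 0` for `a ∉ S`, `L : E₁ →ₗ E d`, `z ↦ ∑ z_i Y_i`. `T - T'` vanishes on `ker L`, so
it is in the range of `L.dualMap` (`LinearMap.range_dualMap_eq_dualAnnihilator_ker`): `T - T' = f ∘ L` on `E₁` for a linear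
functional `f` on `E d`. Evaluate at `Pi.single i 1 ∈ E₁`: `f (Y (a,b)) = sg P.2 a` for `a ∈ S`, and
`f (Y (j,false)) = - T' (Pi.single (j,false) 1)` for `j ∉ S`. For `a ∈ S` also `|f (Y (a,false))| = |sg| = 1`. -/
theorem face_functional {d m : ℕ} {Φ : Finset (Finset (Fin m) × Finset (Fin m))}
    {Y : Fin m × Bool → E d} (hB : Blow Φ Y) {P : Finset (Fin m) × Finset (Fin m)}
    (hP : P ∈ Φ) :
    ∃ f : E d →ₗ[ℝ] ℝ, (∀ a ∈ P.1, ∀ b, f (Y (a, b)) = sg P.2 a) ∧
      ∀ a, |f (Y (a, false))| ≤ 1 := by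
  classical
  -- the functional `T` and the sublinear function `N`
  set T : (Fin m × Bool → ℝ) →ₗ[ℝ] ℝ :=
    ∑ a ∈ P.1, sg P.2 a • ((LinearMap.proj (a, false) : (Fin m × Bool → ℝ) →ₗ[ℝ] ℝ) +
      (LinearMap.proj (a, true) : (Fin m × Bool → ℝ) →ₗ[ℝ] ℝ)) with hT
  have hTv : ∀ z, T z = ∑ a ∈ P.1, sg P.2 a * (z (a, false) + z (a, true)) := by
    intro z
    rw [hT, LinearMap.sum_apply]
    rfl
  set N : (Fin m × Bool → ℝ) → ℝ := fun z => ∑ a ∈ P.1ᶜ, |z (a, false)| with hN
  have hNv : ∀ z : Fin m × Bool → ℝ, N z = ∑ a ∈ P.1ᶜ, |z (a, false)| := fun z => rfl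
  set L₀ : (Fin m × Bool → ℝ) →ₗ[ℝ] E d :=
    ∑ i, (LinearMap.proj i : (Fin m × Bool → ℝ) →ₗ[ℝ] ℝ).smulRight (Y i) with hL₀
  have hL₀v : ∀ z, L₀ z = ∑ i, z i • Y i := by
    intro z
    rw [hL₀, LinearMap.sum_apply]
    rfl
  let E₁ : Submodule ℝ (Fin m × Bool → ℝ) :=
    { carrier := {z | ∀ a, a ∉ P.1 → z (a, true) = 0}
      add_mem' := fun {z z'} h h' a ha => by
        show z (a, true) + z' (a, true) = 0
        rw [h a ha, h' a ha, add_zero]
      zero_mem' := fun a _ => rfl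
      smul_mem' := fun c z h a ha => by
        show c * z (a, true) = 0
        rw [h a ha, mul_zero] }
  have hE₁ : ∀ z, z ∈ E₁ ↔ ∀ a, a ∉ P.1 → z (a, true) = 0 := fun z => Iff.rfl
  let F : (Fin m × Bool → ℝ) →ₗ.[ℝ] ℝ := ⟨LinearMap.ker L₀ ⊓ E₁, T.domRestrict _⟩
  have hF : ∀ z : F.domain, F z ≤ N z := by
    intro z
    have h1 : (z : Fin m × Bool → ℝ) ∈ LinearMap.ker L₀ ⊓ E₁ := z.2
    obtain ⟨h2, h3⟩ := Submodule.mem_inf.1 h1
    rw [LinearMap.mem_ker, hL₀v] at h2
    show T z ≤ N z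
    rw [hTv]
    exact (le_abs_self _).trans (blow_F hB hP z h2 ((hE₁ _).1 h3))
  obtain ⟨T', hT'1, hT'2⟩ := exists_extension_of_le_sublinear F N
    (by
      intro c hc z
      rw [hNv, hNv, Finset.mul_sum]
      refine Finset.sum_congr rfl fun a _ => ?_
      show |c * z (a, false)| = _
      rw [abs_mul, abs_of_pos hc])
    (by
      intro z z'
      rw [hNv, hNv, hNv, ← Finset.sum_add_distrib]
      exact Finset.sum_le_sum fun a _ => abs_add_le _ _) hF
  -- the difference factors through `L₀` on `E₁`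
  set L : E₁ →ₗ[ℝ] E d := L₀.domRestrict E₁ with hL
  have hD : (T - T').domRestrict E₁ ∈ (LinearMap.ker L).dualAnnihilator := by
    rw [Submodule.mem_dualAnnihilator]
    intro z hz
    have h1 : L₀ (z : Fin m × Bool → ℝ) = 0 := hz
    have h2 : (z : Fin m × Bool → ℝ) ∈ LinearMap.ker L₀ ⊓ E₁ :=
      Submodule.mem_inf.2 ⟨h1, z.2⟩
    have h3 := hT'1 ⟨z, h2⟩
    show T z - T' z = 0
    have h4 : T' (z : Fin m × Bool → ℝ) = T z := h3
    rw [h4, sub_self]
  rw [← LinearMap.range_dualMap_eq_dualAnnihilator_ker] at hD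
  obtain ⟨f, hf⟩ := hD
  have hfv : ∀ z ∈ E₁, f (∑ i, z i • Y i) = T z - T' z := by
    intro z hz
    have h1 := LinearMap.congr_fun hf ⟨z, hz⟩
    have h2 : f (L₀ z) = T z - T' z := h1
    rw [← h2, hL₀v]
  -- evaluation at the basis vectors
  have hs : ∀ i, ∑ j, (Pi.single i (1 : ℝ) : Fin m × Bool → ℝ) j • Y j = Y i := by
    intro i
    rw [Finset.sum_eq_single i]
    · rw [Pi.single_eq_same, one_smul]
    · intro j _ hj
      rw [Pi.single_eq_of_ne hj, zero_smul]
    · intro h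
      exact absurd (Finset.mem_univ _) h
  have hT'abs : ∀ z, |T' z| ≤ N z := by
    intro z
    rw [abs_le]
    have h1 := hT'2 z
    have h2 := hT'2 (-z)
    have h3 : N (-z) = N z := by
      rw [hNv, hNv]
      refine Finset.sum_congr rfl fun a _ => ?_
      rw [Pi.neg_apply, abs_neg]
    rw [map_neg, h3] at h2
    constructor
    · linarith
    · exact h1
  have hS : ∀ a ∈ P.1, ∀ b, f (Y (a, b)) = sg P.2 a := by
    intro a ha b
    have hm : (Pi.single (a, b) (1 : ℝ) : Fin m × Bool → ℝ) ∈ E₁ := by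
      rw [hE₁]
      intro a' ha'
      rw [Pi.single_eq_of_ne]
      intro h
      rw [Prod.mk.injEq] at h
      exact ha' (h.1 ▸ ha)
    have h1 := hfv _ hm
    rw [hs] at h1
    have h2 : N (Pi.single (a, b) (1 : ℝ)) = 0 := by
      rw [hNv]
      refine Finset.sum_eq_zero fun a' ha' => ?_
      rw [Finset.mem_compl] at ha'
      rw [Pi.single_eq_of_ne, abs_zero]
      intro h
      rw [Prod.mk.injEq] at h
      exact ha' (h.1 ▸ ha)
    have h3 : T' (Pi.single (a, b) (1 : ℝ)) = 0 := by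
      have h4 := hT'abs (Pi.single (a, b) (1 : ℝ))
      rw [h2] at h4
      exact abs_nonpos_iff.1 h4
    have h5 : T (Pi.single (a, b) (1 : ℝ)) = sg P.2 a := by
      rw [hTv, Finset.sum_eq_single a]
      · cases b
        · rw [Pi.single_eq_same, Pi.single_eq_of_ne (by simp), add_zero, mul_one]
        · rw [Pi.single_eq_same, Pi.single_eq_of_ne (by simp), zero_add, mul_one]
      · intro a' _ ha'
        rw [Pi.single_eq_of_ne, Pi.single_eq_of_ne, add_zero, mul_zero]
        · intro h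
          rw [Prod.mk.injEq] at h
          exact ha' h.1
        · intro h
          rw [Prod.mk.injEq] at h
          exact ha' h.1
      · intro h
        exact absurd ha h
    rw [h1, h3, h5, sub_zero]
  refine ⟨f, hS, fun a => ?_⟩
  by_cases ha : a ∈ P.1
  · rw [hS a ha, abs_sg]
  · have hm : (Pi.single (a, false) (1 : ℝ) : Fin m × Bool → ℝ) ∈ E₁ := by
      rw [hE₁]
      intro a' _
      rw [Pi.single_eq_of_ne]
      simp
    have h1 := hfv _ hm
    rw [hs] at h1
    have h5 : T (Pi.single (a, false) (1 : ℝ)) = 0 := by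
      rw [hTv]
      refine Finset.sum_eq_zero fun a' ha' => ?_
      have hne : a' ≠ a := fun h => ha (h ▸ ha')
      rw [Pi.single_eq_of_ne, Pi.single_eq_of_ne, add_zero, mul_zero]
      · intro h
        rw [Prod.mk.injEq] at h
        exact hne h.1
      · intro h
        rw [Prod.mk.injEq] at h
        exact hne h.1
    have h2 : N (Pi.single (a, false) (1 : ℝ)) = 1 := by
      rw [hNv, Finset.sum_eq_single a]
      · rw [Pi.single_eq_same, abs_one]
      · intro a' _ ha'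
        rw [Pi.single_eq_of_ne, abs_zero]
        intro h
        rw [Prod.mk.injEq] at h
        exact ha' h.1
      · intro h
        exact absurd (Finset.mem_compl.2 ha) h
    rw [h1, h5, zero_sub, abs_neg]
    exact (hT'abs _).trans h2.le

end Pool.Agent.H.MP_4bcbbd_co.X
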