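import Pool.Agent.H.MP_4bcbbd_co.X.Top1

/-!
MP_4bcbbd_co, exponential gap: the numbers of faces of higher dimension.
-/

set_option autoImplicit false

namespace Pool.Agent.H.MP_4bcbbd_co.X

open scoped BigOperators

/-- PROOF: `pos_sum`, group the facets by `pos z F ∈ {0, ..., d}` (`pos z F ≤ F.card = d`;
`Finset.sum_fiberwise...`, `Finset.card_eq_sum_card_fiberwise`). -/
theorem fc_eq_sum_gnum {d : ℕ} {V : Finset (E d)} (hV : CSData V) (hS : Simp V) {z : E d}
    (hz : Generic V z) {j : ℕ} (hj : j ≤ d) :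
    (fc V j).card = ∑ i ∈ Finset.range (d + 1), gnum V z i * i.choose (d - j) := by
  classical
  rw [pos_sum hV hS hz j hj]
  have hmaps : ∀ F ∈ fc V d, pos z F ∈ Finset.range (d + 1) := by
    intro F hF
    have := pos_neg hV hS hz hF
    rw [Finset.mem_range]
    omega
  rw [← Finset.sum_fiberwise_of_maps_to hmaps]
  refine Finset.sum_congr rfl fun i _ => ?_
  have h : ∀ F ∈ (fc V d).filter (fun F => pos z F = i),
      (pos z F).choose (d - j) = i.choose (d - j) := by
    intro F hF
    rw [(Finset.mem_filter.1 hF).2]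
  rw [Finset.sum_congr rfl h, Finset.sum_const, smul_eq_mul]
  rfl

theorem Top_card_le {d : ℕ} {V : Finset (E d)} {n : ℕ} (hn : V.card = 2 * n) (i : ℕ) :
    (fc V i).card ≤ (2 * n) ^ i := by
  classical
  have h : fc V i ⊆ Finset.powersetCard i V := by
    intro W hW
    obtain ⟨h1, h2, -⟩ := mem_fc.1 hW
    exact Finset.mem_powersetCard.2 ⟨h1, h2⟩
  calc (fc V i).card ≤ (Finset.powersetCard i V).card := Finset.card_le_card h
    _ = (2 * n).choose i := by rw [Finset.card_powersetCard, hn]
    _ ≤ (2 * n) ^ i := Nat.choose_le_pow _ _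

/-- PROOF. `z` from `exists_generic V`. `(fc V i).card ≤ C(2n, i) ≤ (2n)^i`
(`fc V i ⊆ powersetCard i V`, `Nat.choose_le_pow`). For `i < k`: `gnum i = gnum (d - i) ≤ (fc V i).card
≤ (2n)^(k-1)`. For `i > d - k`: `gnum i ≤ (fc V (d - i)).card ≤ (2n)^(k-1)` (`d - i ≤ k - 1`, `2n ≥ 1`). For
`i = k` or `i = d - k`: `gnum i ≤ (fc V k).card` (`gnum_le`, `gnum_symm`). As `k = d / 2`, the
indices `k ≤ i ≤ d - k` are `i = k` (`d` even) or `i = k, k + 1` (`d` odd), with coefficients
`C(k, d - j)` resp. `C(k, d-j)` and `C(k+1, d-j)`, `k + 1 = d - k`. The others contribute at most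
`∑_{i ≤ d} 2^d (2n)^(k-1)` (`Nat.choose_le_two_pow`). -/
theorem fc_top {d k : ℕ} (hd : k = d / 2) (hk : 1 ≤ k) {j : ℕ} (hkj : k ≤ j) (hjd : j ≤ d)
    {V : Finset (E d)} (hV : CSData V) (hS : Simp V) {n : ℕ} (hn : V.card = 2 * n)
    (h1 : 1 ≤ n) :
    (fc V j).card ≤ ((d - k).choose (d - j) + if Odd d then k.choose (d - j) else 0) *
      (fc V k).card + (d + 1) * 2 ^ d * (2 * n) ^ (k - 1) := by
  classical
  obtain ⟨z, hz⟩ := exists_generic V
  rw [fc_eq_sum_gnum hV hS hz hjd]
  have hsmall : ∀ i, i ≤ k - 1 → (2 * n) ^ i ≤ (2 * n) ^ (k - 1) := fun i hi =>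
    Nat.pow_le_pow_right (by omega) hi
  have hb : ∀ i ≤ d, (i < k ∨ d - k < i) → gnum V z i ≤ (2 * n) ^ (k - 1) := by
    intro i hi h
    rcases h with h | h
    · rw [gnum_symm hV hS hz hi]
      refine (gnum_le hV hS hz (Nat.sub_le _ _)).trans ?_
      have h2 : d - (d - i) = i := by omega
      rw [h2]
      exact (Top_card_le hn i).trans (hsmall i (by omega))
    · exact (gnum_le hV hS hz hi).trans
        ((Top_card_le hn (d - i)).trans (hsmall _ (by omega)))
  have hm1 : gnum V z (d - k) ≤ (fc V k).card := by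
    have h := gnum_le hV hS hz (Nat.sub_le d k)
    have h2 : d - (d - k) = k := by omega
    rwa [h2] at h
  have hm2 : gnum V z k ≤ (fc V k).card := by
    rw [gnum_symm hV hS hz (by omega)]
    exact hm1
  have hterm : ∀ i ∈ Finset.range (d + 1), gnum V z i * i.choose (d - j) ≤
      (if i = d - k then (d - k).choose (d - j) * (fc V k).card else 0) +
        (if i = k then (if Odd d then k.choose (d - j) else 0) * (fc V k).card else 0) +
          2 ^ d * (2 * n) ^ (k - 1) := by
    intro i hi
    have hi' : i ≤ d := by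
      have := Finset.mem_range.1 hi
      omega
    by_cases h1 : i = d - k
    · subst h1
      rw [if_pos rfl]
      calc gnum V z (d - k) * (d - k).choose (d - j)
          ≤ (fc V k).card * (d - k).choose (d - j) := Nat.mul_le_mul_right _ hm1
        _ = (d - k).choose (d - j) * (fc V k).card := Nat.mul_comm _ _
        _ ≤ _ := by omega
    · by_cases h2 : i = k
      · subst h2
        have hodd : Odd d := by
          rw [Nat.odd_iff]
          omega
        rw [if_neg h1, if_pos rfl, if_pos hodd]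
        calc gnum V z i * i.choose (d - j)
            ≤ (fc V i).card * i.choose (d - j) := Nat.mul_le_mul_right _ hm2
          _ = i.choose (d - j) * (fc V i).card := Nat.mul_comm _ _
          _ ≤ _ := by omega
      · rw [if_neg h1, if_neg h2, zero_add, zero_add, Nat.mul_comm (2 ^ d)]
        refine Nat.mul_le_mul (hb i hi' (by omega)) ?_
        exact (Nat.choose_le_two_pow _ _).trans (Nat.pow_le_pow_right (by norm_num) hi')
  refine (Finset.sum_le_sum hterm).trans ?_
  rw [Finset.sum_add_distrib, Finset.sum_add_distrib, Finset.sum_ite_eq', Finset.sum_ite_eq',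
    if_pos (Finset.mem_range.2 (by omega)), if_pos (Finset.mem_range.2 (by omega)),
    Finset.sum_const, Finset.card_range, smul_eq_mul]
  apply le_of_eq
  ring

end Pool.Agent.H.MP_4bcbbd_co.X
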