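import Pool.Agent.H.MP_4bcbbd_co.FaceNum
import Pool.Agent.H.MP_4bcbbd_co.PolyB
import Pool.Agent.H.MP_4bcbbd_co.X.Bound
import Pool.Agent.H.MP_4bcbbd_co.X.Top

/-!
MP_4bcbbd_co, exponential gap: final form.
-/

set_option autoImplicit false

namespace Pool.Agent.H.MP_4bcbbd_co.X

open Filter

/-- an upper bound for all combinatorial data is an upper bound for the maximal face number. -/
theorem maxFaces_le {d : ℕ} (hd : 0 < d) {i n : ℕ} {B : ℝ} (hB : 0 ≤ B)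
    (h : ∀ V : Finset (E d), CSData V → Simp V → V.card = 2 * n →
      ((fc V (i + 1)).card : ℝ) ≤ B) : (maxFaces i d n : ℝ) ≤ B := by
  have h1 : maxFaces i d n ≤ ⌊B⌋₊ := by
    unfold maxFaces
    refine csSup_le' ?_
    rintro m ⟨P, hP, hs, hS, hc, hm⟩
    obtain ⟨V, hV, rfl⟩ := exists_data hd hP hs
    have hS' : Simp V := (simp_iff hd hV).1 hS
    rw [extremePoints_of_data hV, Set.ncard_coe_finset] at hc
    rw [hm, faceNum_eq hd hV hS']
    exact Nat.le_floor (h V hV hS' hc)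
  calc (maxFaces i d n : ℝ) ≤ (⌊B⌋₊ : ℝ) := Nat.cast_le.2 h1
    _ ≤ B := Nat.floor_le hB

/-- the bound in dimension `2k + r`. -/
theorem main1 (k r : ℕ) (hk : 1 ≤ k) (hr : 1000 * r ≤ k) : ∀ᶠ n : ℕ in atTop,
    (maxFaces (k - 1) (2 * k + r) n : ℝ) ≤
      3 * Real.exp (-(k : ℝ) / 4000) * 2 ^ k * (n.choose k : ℝ) := by
  obtain ⟨N, hN⟩ := fc_bound k r hk hr (d := 2 * k + r) rfl
  filter_upwards [eventually_ge_atTop N] with n hn
  refine maxFaces_le (by omega) (by positivity) fun V hV hS hc => ?_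
  rw [show k - 1 + 1 = k by omega]
  exact hN n hn V hV hS hc

/-- the bound for the middle faces in dimension `d`. -/
theorem main_mid (d : ℕ) (hd : 2 ≤ d) : ∃ N : ℕ, ∀ n : ℕ, N ≤ n → ∀ V : Finset (E d),
    CSData V → Simp V → V.card = 2 * n → ((fc V (d / 2)).card : ℝ) ≤
      7 / 2 * Real.exp (-(d : ℝ) / 8000) * 2 ^ (d / 2) * (n.choose (d / 2) : ℝ) := by
  have hk : 1 ≤ d / 2 := by omega
  have hk2 : (d : ℝ) ≤ 2 * ((d / 2 : ℕ) : ℝ) + 1 := by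
    have : d ≤ 2 * (d / 2) + 1 := by omega
    exact_mod_cast this
  have e3 : 3 * Real.exp (-((d / 2 : ℕ) : ℝ) / 4000) ≤ 7 / 2 * Real.exp (-(d : ℝ) / 8000) := by
    have h2 : -((d / 2 : ℕ) : ℝ) / 4000 ≤ -(d : ℝ) / 8000 + 1 / 8000 := by linarith
    have h3 : Real.exp (-((d / 2 : ℕ) : ℝ) / 4000) ≤
        Real.exp (-(d : ℝ) / 8000) * Real.exp (1 / 8000) := by
      rw [← Real.exp_add]
      exact Real.exp_le_exp.2 h2
    have h4 : Real.exp (1 / 8000) ≤ 7 / 6 := by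
      have e1 : (1 : ℝ) - 1 / 8000 ≤ Real.exp (-(1 / 8000)) := by
        have := Real.add_one_le_exp (-(1 / 8000) : ℝ)
        linarith
      have e2 : Real.exp (1 / 8000) * Real.exp (-(1 / 8000)) = 1 := by
        rw [← Real.exp_add]
        norm_num
      have e3 := Real.exp_pos (1 / 8000 : ℝ)
      nlinarith
    have h5 := Real.exp_pos (-(d : ℝ) / 8000)
    nlinarith
  by_cases hr : 1000 * (d - 2 * (d / 2)) ≤ d / 2
  · obtain ⟨N, hN⟩ := fc_bound (d / 2) (d - 2 * (d / 2)) hk hr (d := d) (by omega)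
    refine ⟨N, fun n hn V hV hS hc => (hN n hn V hV hS hc).trans ?_⟩
    gcongr
  · refine ⟨0, fun n _ V hV hS hc => (fc_trivial (d / 2) V hV hS hc).trans ?_⟩
    have h1 : (d : ℝ) ≤ 2000 := by
      have : d ≤ 2000 := by omega
      exact_mod_cast this
    have h2 : (3 / 4 : ℝ) ≤ Real.exp (-(d : ℝ) / 8000) := by
      have := Real.add_one_le_exp (-(d : ℝ) / 8000)
      linarith
    have h3 : (1 : ℝ) ≤ 7 / 2 * Real.exp (-(d : ℝ) / 8000) := by linarith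
    have h4 : (0 : ℝ) ≤ 2 ^ (d / 2) * (n.choose (d / 2) : ℝ) := by positivity
    calc (2 : ℝ) ^ (d / 2) * (n.choose (d / 2) : ℝ)
        = 1 * (2 ^ (d / 2) * (n.choose (d / 2) : ℝ)) := by ring
      _ ≤ (7 / 2 * Real.exp (-(d : ℝ) / 8000)) * (2 ^ (d / 2) * (n.choose (d / 2) : ℝ)) :=
          mul_le_mul_of_nonneg_right h3 h4
      _ = _ := by ring

/-- the lower order term is negligible. -/
theorem main_small (d k : ℕ) (hk : 1 ≤ k) (c : ℝ) (hc : 0 < c) : ∀ᶠ n : ℕ in atTop,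
    ((d + 1 : ℕ) : ℝ) * 2 ^ d * (2 * (n : ℝ)) ^ (k - 1) ≤ c * 2 ^ k * (n.choose k : ℝ) := by
  obtain ⟨l, rfl⟩ : ∃ l, k = l + 1 := ⟨k - 1, by omega⟩
  rw [show l + 1 - 1 = l by omega]
  have hf : (0 : ℝ) < ((l + 1).factorial : ℝ) := by exact_mod_cast (l + 1).factorial_pos
  have h1 : Tendsto (fun n : ℕ => (c / ((l + 1).factorial : ℝ)) * (n : ℝ)) atTop
      atTop := tendsto_natCast_atTop_atTop.const_mul_atTop (by positivity)
  filter_upwards [h1.eventually_ge_atTop (((d + 1 : ℕ) : ℝ) * 2 ^ d * 2 ^ l),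
    eventually_ge_atTop (2 * (l + 1))] with n hn hn2
  have h2 := Nat.pow_le_choose (α := ℝ) (l + 1) n
  have h3 : (n : ℝ) / 2 ≤ ((n + 1 - (l + 1) : ℕ) : ℝ) := by
    have : n ≤ 2 * (n + 1 - (l + 1)) := by omega
    have h4 : (n : ℝ) ≤ 2 * ((n + 1 - (l + 1) : ℕ) : ℝ) := by exact_mod_cast this
    linarith
  have h4 : ((n : ℝ) / 2) ^ (l + 1) / ((l + 1).factorial : ℝ) ≤ (n.choose (l + 1) : ℝ) := by
    refine le_trans ?_ h2
    gcongr
  have h5 : (0 : ℝ) ≤ (n : ℝ) ^ l := by positivity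
  calc ((d + 1 : ℕ) : ℝ) * 2 ^ d * (2 * (n : ℝ)) ^ l
      = (((d + 1 : ℕ) : ℝ) * 2 ^ d * 2 ^ l) * (n : ℝ) ^ l := by rw [mul_pow]; ring
    _ ≤ ((c / ((l + 1).factorial : ℝ)) * (n : ℝ)) * (n : ℝ) ^ l :=
        mul_le_mul_of_nonneg_right hn h5
    _ = c * 2 ^ (l + 1) * (((n : ℝ) / 2) ^ (l + 1) / ((l + 1).factorial : ℝ)) := by
        rw [div_pow]
        field_simp
        ring
    _ ≤ c * 2 ^ (l + 1) * (n.choose (l + 1) : ℝ) := by gcongr

/-- the bound for all higher faces. -/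
theorem main2 (d : ℕ) (hd : 2 ≤ d) (j : ℕ) (hj : d / 2 ≤ j) (hjd : j ≤ d) :
    ∀ᶠ n : ℕ in atTop, (maxFaces (j - 1) d n : ℝ) ≤
      4 * Real.exp (-(d : ℝ) / 8000) *
        (((d - d / 2).choose (d - j) + if Odd d then (d / 2).choose (d - j) else 0 : ℕ) : ℝ) *
        2 ^ (d / 2) * (n.choose (d / 2) : ℝ) := by
  have hk : 1 ≤ d / 2 := by omega
  obtain ⟨N, hN⟩ := main_mid d hd
  obtain ⟨e, he⟩ : ∃ e : ℝ, e = Real.exp (-(d : ℝ) / 8000) := ⟨_, rfl⟩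
  have he0 : 0 < e := by rw [he]; exact Real.exp_pos _
  obtain ⟨a, ha⟩ : ∃ a : ℕ, a = (d - d / 2).choose (d - j) +
      if Odd d then (d / 2).choose (d - j) else 0 := ⟨_, rfl⟩
  have ha1 : 1 ≤ a := by
    have : 0 < (d - d / 2).choose (d - j) := Nat.choose_pos (by omega)
    omega
  rw [← he, ← ha]
  filter_upwards [eventually_ge_atTop N, eventually_ge_atTop 1,
    main_small d (d / 2) hk (e / 2) (by positivity)] with n hn hn1 hsm
  refine maxFaces_le (by omega) (by positivity) fun V hV hS hc => ?_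
  rw [show j - 1 + 1 = j by omega]
  have h1 := hN n hn V hV hS hc
  have h2 := fc_top (d := d) rfl hk hj hjd hV hS hc hn1
  rw [← ha] at h2
  rw [← he] at h1
  have h3 : ((fc V j).card : ℝ) ≤ (a : ℝ) * ((fc V (d / 2)).card : ℝ) +
      ((d + 1 : ℕ) : ℝ) * 2 ^ d * (2 * (n : ℝ)) ^ (d / 2 - 1) := by
    exact_mod_cast h2
  have ha1' : (1 : ℝ) ≤ (a : ℝ) := by exact_mod_cast ha1
  have h4 : (a : ℝ) * ((fc V (d / 2)).card : ℝ) ≤
      (a : ℝ) * (7 / 2 * e * 2 ^ (d / 2) * (n.choose (d / 2) : ℝ)) :=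
    mul_le_mul_of_nonneg_left h1 (by positivity)
  have h5 : e / 2 * 2 ^ (d / 2) * (n.choose (d / 2) : ℝ) ≤
      (a : ℝ) * (e / 2 * 2 ^ (d / 2) * (n.choose (d / 2) : ℝ)) :=
    le_mul_of_one_le_left (by positivity) ha1'
  calc ((fc V j).card : ℝ) ≤ (a : ℝ) * (7 / 2 * e * 2 ^ (d / 2) * (n.choose (d / 2) : ℝ)) +
        (a : ℝ) * (e / 2 * 2 ^ (d / 2) * (n.choose (d / 2) : ℝ)) := by linarith
    _ = 4 * e * (a : ℝ) * 2 ^ (d / 2) * (n.choose (d / 2) : ℝ) := by ring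

end Pool.Agent.H.MP_4bcbbd_co.X
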