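import Pool.Agent.H.MP_4bcbbd_co.FaceNum
import Pool.Agent.H.MP_4bcbbd_co.PolyB
import Pool.Agent.H.MP_4bcbbd_co.X.Bound3
import Pool.Agent.H.MP_4bcbbd_co.X.Top

/-!
MP_4bcbbd_co, exponential gap: final form.
-/

set_option autoImplicit false

namespace Pool.Agent.H.MP_4bcbbd_co.X

open Filter

/-- an upper bound for all combinatorial data is an upper bound for the maximal face number. -/
theorem maxFaces_le3 {d : ℕ} (hd : 0 < d) {i n : ℕ} {B : ℝ} (hB : 0 ≤ B)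
    (h : ∀ V : Finset (E d), CSData V → Simp V → V.card = 2 * n →
      ((fc V (i + 1)).card : ℝ) ≤ B) : (maxFaces i d n : ℝ) ≤ B := by
  have h1 : maxFaces i d n ≤ ⌊B⌋₊ := by
    unfold maxFaces
    refine csSup_le' ?_
    rintro m ⟨P, hP, hs, hS, hc, hm⟩
    obtain ⟨V, hV, rfl⟩ := exists_data hd hP hs
    have hS' : Simp V := (simp_iff hd hV).1 hS
    rw [extremePoints_of_data hV, Set.ncard_coe_finset] at hc
    rw [hm, faceNum_eq hd hV hS']
    exact Nat.le_floor (h V hV hS' hc)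
  calc (maxFaces i d n : ℝ) ≤ (⌊B⌋₊ : ℝ) := Nat.cast_le.2 h1
    _ ≤ B := Nat.floor_le hB

/-- the general bound. -/
theorem main3 (d k : ℕ) (hk : 1 ≤ k) (hkd : 2 * k ≤ d) (lam η : ℝ) (hlam : 0 ≤ lam)
    (hη : 0 < η) : ∀ᶠ n : ℕ in atTop,
    (maxFaces (k - 1) d n : ℝ) ≤ (bnd d k lam + η) * 2 ^ k * (n.choose k : ℝ) := by
  obtain ⟨N, hN⟩ := fc_bound3 k d hk hkd hlam hη
  have hb : 0 < bnd d k lam := bnd_pos hkd hlam
  filter_upwards [eventually_ge_atTop N] with n hn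
  refine maxFaces_le3 (by omega) (by positivity) fun V hV hS hc => ?_
  rw [show k - 1 + 1 = k by omega]
  exact hN n hn V hV hS hc

/-- exponential decay for `k ≥ 2 d / 5`. -/
theorem main3_mid (d k : ℕ) (hk : 1 ≤ k) (hkd : 2 * k ≤ d) (hkd2 : 2 * d ≤ 5 * k) :
    ∀ᶠ n : ℕ in atTop, (maxFaces (k - 1) d n : ℝ) ≤
      2 * Real.exp (-(d : ℝ) / 1700) * 2 ^ k * (n.choose k : ℝ) := by
  have he : 0 < Real.exp (-(d : ℝ) / 1700) := Real.exp_pos _
  have h1 := bnd_mid (d := d) (k := k) (by omega) hkd hkd2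
  filter_upwards [main3 d k hk hkd ((d : ℝ) / 80) (9 / 10 * Real.exp (-(d : ℝ) / 1700))
    (by positivity) (by positivity)] with n hn
  refine hn.trans ?_
  have h2 : bnd d k ((d : ℝ) / 80) + 9 / 10 * Real.exp (-(d : ℝ) / 1700) ≤
      2 * Real.exp (-(d : ℝ) / 1700) := by linarith
  gcongr

/-- the lower order term is negligible. -/
theorem main3_small (d k : ℕ) (hk : 1 ≤ k) (c : ℝ) (hc : 0 < c) : ∀ᶠ n : ℕ in atTop,
    ((d + 1 : ℕ) : ℝ) * 2 ^ d * (2 * (n : ℝ)) ^ (k - 1) ≤ c * 2 ^ k * (n.choose k : ℝ) := by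
  obtain ⟨l, rfl⟩ : ∃ l, k = l + 1 := ⟨k - 1, by omega⟩
  rw [show l + 1 - 1 = l by omega]
  have hf : (0 : ℝ) < ((l + 1).factorial : ℝ) := by exact_mod_cast (l + 1).factorial_pos
  have h1 : Tendsto (fun n : ℕ => (c / ((l + 1).factorial : ℝ)) * (n : ℝ)) atTop
      atTop := tendsto_natCast_atTop_atTop.const_mul_atTop (by positivity)
  filter_upwards [h1.eventually_ge_atTop (((d + 1 : ℕ) : ℝ) * 2 ^ d * 2 ^ l),
    eventually_ge_atTop (2 * (l + 1))] with n hn hn2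
  have h2 := Nat.pow_le_choose (α := ℝ) (l + 1) n
  have h3 : (n : ℝ) / 2 ≤ ((n + 1 - (l + 1) : ℕ) : ℝ) := by
    have : n ≤ 2 * (n + 1 - (l + 1)) := by omega
    have h4 : (n : ℝ) ≤ 2 * ((n + 1 - (l + 1) : ℕ) : ℝ) := by exact_mod_cast this
    linarith
  have h4 : ((n : ℝ) / 2) ^ (l + 1) / ((l + 1).factorial : ℝ) ≤ (n.choose (l + 1) : ℝ) := by
    refine le_trans ?_ h2
    gcongr
  have h5 : (0 : ℝ) ≤ (n : ℝ) ^ l := by positivity
  calc ((d + 1 : ℕ) : ℝ) * 2 ^ d * (2 * (n : ℝ)) ^ l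
      = (((d + 1 : ℕ) : ℝ) * 2 ^ d * 2 ^ l) * (n : ℝ) ^ l := by rw [mul_pow]; ring
    _ ≤ ((c / ((l + 1).factorial : ℝ)) * (n : ℝ)) * (n : ℝ) ^ l :=
        mul_le_mul_of_nonneg_right hn h5
    _ = c * 2 ^ (l + 1) * (((n : ℝ) / 2) ^ (l + 1) / ((l + 1).factorial : ℝ)) := by
        rw [div_pow]
        field_simp
        ring
    _ ≤ c * 2 ^ (l + 1) * (n.choose (l + 1) : ℝ) := by gcongr

/-- the bound for all higher faces. -/
theorem main3_top (d : ℕ) (hd : 2 ≤ d) (j : ℕ) (hj : d / 2 ≤ j) (hjd : j ≤ d) :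
    ∀ᶠ n : ℕ in atTop, (maxFaces (j - 1) d n : ℝ) ≤
      3 * Real.exp (-(d : ℝ) / 45) *
        (((d - d / 2).choose (d - j) + if Odd d then (d / 2).choose (d - j) else 0 : ℕ) : ℝ) *
        2 ^ (d / 2) * (n.choose (d / 2) : ℝ) := by
  have hk : 1 ≤ d / 2 := by omega
  obtain ⟨e, he⟩ : ∃ e : ℝ, e = Real.exp (-(d : ℝ) / 45) := ⟨_, rfl⟩
  have he0 : 0 < e := by rw [he]; exact Real.exp_pos _
  have hb := bnd_top (d := d) (k := d / 2) (by omega) (by omega) (by omega)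
  rw [← he] at hb
  have he1 : Real.exp 1 < 28 / 10 := by
    have := Real.exp_one_lt_d9
    linarith
  obtain ⟨N, hN⟩ := fc_bound3 (d / 2) d hk (by omega) (lam := (d : ℝ) / 20) (η := e / 10)
    (by positivity) (by positivity)
  obtain ⟨a, ha⟩ : ∃ a : ℕ, a = (d - d / 2).choose (d - j) +
      if Odd d then (d / 2).choose (d - j) else 0 := ⟨_, rfl⟩
  have ha1 : 1 ≤ a := by
    have : 0 < (d - d / 2).choose (d - j) := Nat.choose_pos (by omega)
    omega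
  rw [← he, ← ha]
  filter_upwards [eventually_ge_atTop N, eventually_ge_atTop 1,
    main3_small d (d / 2) hk (e / 10) (by positivity)] with n hn hn1 hsm
  refine maxFaces_le3 (by omega) (by positivity) fun V hV hS hc => ?_
  rw [show j - 1 + 1 = j by omega]
  have h1 : ((fc V (d / 2)).card : ℝ) ≤ 29 / 10 * e * 2 ^ (d / 2) * (n.choose (d / 2) : ℝ) := by
    refine (hN n hn V hV hS hc).trans ?_
    have h0 : bnd d (d / 2) ((d : ℝ) / 20) + e / 10 ≤ 29 / 10 * e := by nlinarith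
    gcongr
  have h2 := fc_top (d := d) rfl hk hj hjd hV hS hc hn1
  rw [← ha] at h2
  have h3 : ((fc V j).card : ℝ) ≤ (a : ℝ) * ((fc V (d / 2)).card : ℝ) +
      ((d + 1 : ℕ) : ℝ) * 2 ^ d * (2 * (n : ℝ)) ^ (d / 2 - 1) := by
    exact_mod_cast h2
  have ha1' : (1 : ℝ) ≤ (a : ℝ) := by exact_mod_cast ha1
  have h4 : (a : ℝ) * ((fc V (d / 2)).card : ℝ) ≤
      (a : ℝ) * (29 / 10 * e * 2 ^ (d / 2) * (n.choose (d / 2) : ℝ)) :=
    mul_le_mul_of_nonneg_left h1 (by positivity)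
  have h5 : e / 10 * 2 ^ (d / 2) * (n.choose (d / 2) : ℝ) ≤
      (a : ℝ) * (e / 10 * 2 ^ (d / 2) * (n.choose (d / 2) : ℝ)) :=
    le_mul_of_one_le_left (by positivity) ha1'
  calc ((fc V j).card : ℝ) ≤ (a : ℝ) * (29 / 10 * e * 2 ^ (d / 2) * (n.choose (d / 2) : ℝ)) +
        (a : ℝ) * (e / 10 * 2 ^ (d / 2) * (n.choose (d / 2) : ℝ)) := by linarith
    _ = 3 * e * (a : ℝ) * 2 ^ (d / 2) * (n.choose (d / 2) : ℝ) := by ring

end Pool.Agent.H.MP_4bcbbd_co.X
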