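import Pool.Agent.H.MP_4bcbbd_co.X.Sb
import Pool.Agent.H.MP_4bcbbd_co.X.Lev
import Pool.Agent.H.MP_4bcbbd_co.X.Greedy

/-!
MP_4bcbbd_co, exponential gap: the bound for one set `S`.
-/

set_option autoImplicit false

namespace Pool.Agent.H.MP_4bcbbd_co.X

open scoped BigOperators

/-- the restriction to the coordinates in `S`. -/
private def perS_rho {m : ℕ} (S : Finset (Fin m)) :
    EuclideanSpace ℝ (Fin m) →ₗ[ℝ] EuclideanSpace ℝ (Fin m) where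
  toFun x := WithLp.toLp 2 fun i => if i ∈ S then x i else 0
  map_add' x y := by
    ext i
    by_cases h : i ∈ S <;> simp [h]
  map_smul' c x := by
    ext i
    by_cases h : i ∈ S <;> simp [h]

private theorem perS_rho_mem {m : ℕ} (S : Finset (Fin m)) (x : EuclideanSpace ℝ (Fin m))
    {i : Fin m} (h : i ∈ S) : perS_rho S x i = x i := by
  show (WithLp.toLp 2 (fun i => if i ∈ S then x i else 0) : EuclideanSpace ℝ (Fin m)) i = x i
  simp [h]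

private theorem perS_rho_not {m : ℕ} (S : Finset (Fin m)) (x : EuclideanSpace ℝ (Fin m))
    {i : Fin m} (h : i ∉ S) : perS_rho S x i = 0 := by
  show (WithLp.toLp 2 (fun i => if i ∈ S then x i else 0) : EuclideanSpace ℝ (Fin m)) i = 0
  simp [h]

private theorem perS_norm {m : ℕ} (S : Finset (Fin m)) (w : EuclideanSpace ℝ (Fin m)) :
    ‖w‖ ^ 2 = ∑ a ∈ S, (w a) ^ 2 + ∑ a ∈ Sᶜ, (w a) ^ 2 := by
  rw [EuclideanSpace.norm_sq_eq, Finset.sum_add_sum_compl]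
  refine Finset.sum_congr rfl fun i _ => ?_
  rw [Real.norm_eq_abs, sq_abs]

/-- the bound for one set `S`. -/
theorem perS {m s : ℕ} (W : Submodule ℝ (EuclideanSpace ℝ (Fin m)))
    (ℓ : Fin m → ℝ)
    (hℓ : ∀ {p : ℕ} (e : Fin p → EuclideanSpace ℝ (Fin m)), Orthonormal ℝ e →
      (∀ i, e i ∈ W) → ∀ j, ∑ i, (e i j) ^ 2 ≤ ℓ j)
    (S : Finset (Fin m)) (hS : Sᶜ.card = s)
    (U : Submodule ℝ (EuclideanSpace ℝ (Fin m))) (hUW : U ≤ W)
    (hU : (9 / 10 : ℝ) * s ≤ Module.finrank ℝ U)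
    (𝒜 : Finset (Finset (Fin m)))
    (h𝒜 : ∀ A ∈ 𝒜, A ⊆ S ∧ ∀ w ∈ U, |∑ a ∈ S, sg A a * w a| ≤ ∑ a ∈ Sᶜ, |w a|)
    (hτ : ∑ a ∈ Sᶜ, ℓ a ≤ 7 / 100 * s) :
    (𝒜.card : ℝ) ≤ 2 ^ S.card * Real.exp (-(s : ℝ) / 40) := by
  classical
  obtain ⟨U', hU'U, hU'1, hU'2⟩ := greedy U Sᶜ (∑ a ∈ Sᶜ, ℓ a) (1 / 6) (by norm_num) (by
    intro p e he heU
    rw [Finset.sum_comm]
    exact Finset.sum_le_sum fun j _ => hℓ e he (fun i => hUW (heU i)) j)
  -- the main inequality on `U'`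
  have h5 : ∀ w ∈ U', 5 * ∑ a ∈ Sᶜ, (w a) ^ 2 ≤ ∑ a ∈ S, (w a) ^ 2 := by
    intro w hw
    have h1 := hU'2 w hw
    rw [perS_norm S w] at h1
    linarith
  have hinj : Function.Injective ((perS_rho S).domRestrict U') := by
    rw [← LinearMap.ker_eq_bot, LinearMap.ker_eq_bot']
    rintro ⟨w, hw⟩ h0
    have h1 : perS_rho S w = 0 := h0
    have h2 : ∑ a ∈ S, (w a) ^ 2 = 0 := by
      refine Finset.sum_eq_zero fun a ha => ?_
      rw [← perS_rho_mem S w ha, h1]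
      simp
    have h3 := h5 w hw
    have h4 : 0 ≤ ∑ a ∈ Sᶜ, (w a) ^ 2 := Finset.sum_nonneg fun a _ => sq_nonneg _
    have h6 : ‖w‖ ^ 2 = 0 := by
      rw [perS_norm S w]
      linarith
    have h7 : w = 0 := by
      rw [← norm_eq_zero]
      exact pow_eq_zero_iff (two_ne_zero) |>.1 h6
    exact Subtype.ext h7
  obtain ⟨U₂, hU₂⟩ : ∃ U₂ : Submodule ℝ (EuclideanSpace ℝ (Fin m)), U₂ = U'.map (perS_rho S) :=
    ⟨_, rfl⟩
  have hfr : Module.finrank ℝ U₂ = Module.finrank ℝ U' := by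
    rw [hU₂, ← LinearMap.range_domRestrict, LinearMap.finrank_range_of_inj hinj]
  obtain ⟨u, hu⟩ : ∃ u : ℕ, u = Module.finrank ℝ U₂ := ⟨_, rfl⟩
  let b := (stdOrthonormalBasis ℝ U₂).reindex (finCongr hu.symm)
  obtain ⟨b', hb'⟩ : ∃ b' : Fin u → EuclideanSpace ℝ (Fin m), b' = fun l => (b l : EuclideanSpace ℝ (Fin m)) :=
    ⟨_, rfl⟩
  have hb'U : ∀ l, b' l ∈ U₂ := fun l => by rw [hb']; exact (b l).2
  have hb'o : Orthonormal ℝ b' := by
    rw [hb']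
    exact b.orthonormal.comp_linearIsometry U₂.subtypeₗᵢ
  have hb'S : ∀ l i, i ∉ S → b' l i = 0 := by
    intro l i hi
    have h1 := hb'U l
    rw [hU₂] at h1
    obtain ⟨w, -, hw⟩ := h1
    rw [← hw]
    exact perS_rho_not S w hi
  have hu2 : (48 / 100 : ℝ) * s ≤ u := by
    have h1 : (u : ℝ) = Module.finrank ℝ U' := by rw [hu, hfr]
    rw [h1]
    linarith
  have key : ∀ A ∈ 𝒜, ∑ l, (∑ i ∈ S, sg A i * b' l i) ^ 2 ≤ (s : ℝ) / 5 := by
    intro A hA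
    obtain ⟨-, hA2⟩ := h𝒜 A hA
    obtain ⟨c, hc⟩ : ∃ c : Fin u → ℝ, c = fun l => ∑ i ∈ S, sg A i * b' l i := ⟨_, rfl⟩
    obtain ⟨x, hx⟩ : ∃ x : EuclideanSpace ℝ (Fin m), x = ∑ l, c l • b' l := ⟨_, rfl⟩
    have hxU : x ∈ U'.map (perS_rho S) := by
      rw [← hU₂, hx]
      exact Submodule.sum_mem _ fun l _ => Submodule.smul_mem _ _ (hb'U l)
    obtain ⟨x', hx'U, hx'⟩ := hxU
    have hxi : ∀ i, x i = ∑ l, c l * b' l i := by
      intro i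
      rw [hx]
      simp
    have e1 : ∑ i ∈ S, sg A i * x i = ∑ l, (c l) ^ 2 := by
      simp only [hxi, Finset.mul_sum]
      rw [Finset.sum_comm]
      refine Finset.sum_congr rfl fun l _ => ?_
      have hcl : c l = ∑ i ∈ S, sg A i * b' l i := by rw [hc]
      have g1 : ∑ i ∈ S, sg A i * (c l * b' l i) = c l * ∑ i ∈ S, sg A i * b' l i := by
        rw [Finset.mul_sum]
        refine Finset.sum_congr rfl fun i _ => ?_
        ring
      rw [g1, ← hcl, sq]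
    have e2 : ‖x‖ ^ 2 = ∑ l, (c l) ^ 2 := by
      rw [← real_inner_self_eq_norm_sq, hx, hb'o.inner_sum]
      refine Finset.sum_congr rfl fun l _ => ?_
      simp [sq]
    have e3 : ∑ i ∈ S, sg A i * x' i = ∑ l, (c l) ^ 2 := by
      rw [← e1]
      refine Finset.sum_congr rfl fun i hi => ?_
      rw [← hx', perS_rho_mem S x' hi]
    have e4 : ∑ i ∈ S, (x' i) ^ 2 ≤ ∑ l, (c l) ^ 2 := by
      rw [← e2, perS_norm S x]
      have g1 : ∑ i ∈ S, (x' i) ^ 2 = ∑ i ∈ S, (x i) ^ 2 := by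
        refine Finset.sum_congr rfl fun i hi => ?_
        rw [← hx', perS_rho_mem S x' hi]
      have g2 : 0 ≤ ∑ i ∈ Sᶜ, (x i) ^ 2 := Finset.sum_nonneg fun a _ => sq_nonneg _
      linarith
    have e5 := hA2 x' (hU'U hx'U)
    rw [e3] at e5
    obtain ⟨N, hN⟩ : ∃ N : ℝ, N = ∑ l, (c l) ^ 2 := ⟨_, rfl⟩
    have hN0 : 0 ≤ N := by rw [hN]; exact Finset.sum_nonneg fun l _ => sq_nonneg _
    rw [← hN] at e4 e5
    rw [abs_of_nonneg hN0] at e5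
    have e6 : (∑ a ∈ Sᶜ, |x' a|) ^ 2 ≤ (s : ℝ) * ∑ a ∈ Sᶜ, (x' a) ^ 2 := by
      have g1 := sq_sum_le_card_mul_sum_sq (s := Sᶜ) (f := fun a => |x' a|)
      rw [hS] at g1
      simpa only [sq_abs] using g1
    have e7 : N ^ 2 ≤ (∑ a ∈ Sᶜ, |x' a|) ^ 2 := pow_le_pow_left₀ hN0 e5 2
    have e8 := h5 x' hx'U
    have e9 : (s : ℝ) * ∑ a ∈ Sᶜ, (x' a) ^ 2 ≤ (s : ℝ) * (N / 5) :=
      mul_le_mul_of_nonneg_left (by linarith) (Nat.cast_nonneg s)
    have e10 : N * N ≤ ((s : ℝ) / 5) * N := by nlinarith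
    have e11 : N ≤ (s : ℝ) / 5 := by
      rcases hN0.eq_or_lt with h0 | h0
      · rw [← h0]
        positivity
      · exact le_of_mul_le_mul_right e10 h0
    have e12 : ∑ l, (∑ i ∈ S, sg A i * b' l i) ^ 2 = N := by
      rw [hN, hc]
    rw [e12]
    exact e11
  have hsub : 𝒜 ⊆ S.powerset.filter fun A => ∑ l, (∑ i ∈ S, sg A i * b' l i) ^ 2 ≤ (s : ℝ) / 5 := by
    intro A hA
    rw [Finset.mem_filter, Finset.mem_powerset]
    exact ⟨(h𝒜 A hA).1, key A hA⟩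
  calc (𝒜.card : ℝ) ≤ ((S.powerset.filter fun A =>
        ∑ l, (∑ i ∈ S, sg A i * b' l i) ^ 2 ≤ (s : ℝ) / 5).card : ℝ) :=
        Nat.cast_le.2 (Finset.card_le_card hsub)
    _ ≤ 2 ^ S.card * Real.exp ((s : ℝ) / 5 / 4 - (u : ℝ) / 6) := small_ball S b' hb'o hb'S _
    _ ≤ 2 ^ S.card * Real.exp (-(s : ℝ) / 40) := by
        refine mul_le_mul_of_nonneg_left (Real.exp_le_exp.2 ?_) (by positivity)
        have : (0 : ℝ) ≤ s := Nat.cast_nonneg s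
        linarith

end Pool.Agent.H.MP_4bcbbd_co.X
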