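import Pool.Agent.H.MP_4bcbbd_co.X.Sb2

/-!
MP_4bcbbd_co, exponential gap: the small ball estimate for random signs.
-/

set_option autoImplicit false

namespace Pool.Agent.H.MP_4bcbbd_co.X

open scoped BigOperators

lemma Sb_one {u : ℕ} (x : Fin u → ℝ) : Q (1 : Matrix (Fin u) (Fin u) ℝ) x = dotProduct x x := by
  unfold Q
  rw [Matrix.one_mulVec]

lemma Sb_bessel {m u : ℕ} (b : Fin u → EuclideanSpace ℝ (Fin m)) (hb : Orthonormal ℝ b)
    (i : Fin m) : dotProduct (fun l => b l i) (fun l => b l i) ≤ 1 := by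
  have h := hb.sum_inner_products_le (EuclideanSpace.single i (1 : ℝ)) (s := Finset.univ)
  rw [EuclideanSpace.norm_single, norm_one, one_pow] at h
  refine le_trans (le_of_eq ?_) h
  unfold dotProduct
  apply Finset.sum_congr rfl
  intro l _
  rw [EuclideanSpace.inner_single_right]
  simp [sq]

lemma Sb_orth {m u : ℕ} (S : Finset (Fin m)) (b : Fin u → EuclideanSpace ℝ (Fin m))
    (hb : Orthonormal ℝ b) (hS : ∀ l i, i ∉ S → b l i = 0) (l l' : Fin u) :
    ∑ i ∈ S, b l i * b l' i = if l = l' then 1 else 0 := by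
  have h1 : ∑ i ∈ S, b l i * b l' i = ∑ i, b l i * b l' i := by
    apply Finset.sum_subset (Finset.subset_univ _)
    intro i _ hi
    rw [hS l i hi, zero_mul]
  have h2 := (orthonormal_iff_ite.1 hb) l l'
  rw [h1, ← h2, PiLp.inner_apply]
  apply Finset.sum_congr rfl
  intro i _
  simp [mul_comm]

lemma Sb_trace {m u : ℕ} (S : Finset (Fin m)) (b : Fin u → EuclideanSpace ℝ (Fin m))
    (hb : Orthonormal ℝ b) (hS : ∀ l i, i ∉ S → b l i = 0) (B : Matrix (Fin u) (Fin u) ℝ) :
    ∑ i ∈ S, Q B (fun l => b l i) = B.trace := by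
  have h1 : ∀ i ∈ S, Q B (fun l => b l i) = ∑ l, ∑ l', B l l' * (b l i * b l' i) := by
    intro i _
    unfold Q dotProduct
    apply Finset.sum_congr rfl
    intro l _
    show b l i * (B.mulVec (fun l => b l i)) l = _
    rw [Matrix.mulVec, dotProduct, Finset.mul_sum]
    apply Finset.sum_congr rfl
    intro l' _
    ring
  rw [Finset.sum_congr rfl h1, Finset.sum_comm]
  unfold Matrix.trace
  apply Finset.sum_congr rfl
  intro l _
  rw [Finset.sum_comm]
  have h2 : ∀ l' ∈ (Finset.univ : Finset (Fin u)), ∑ i ∈ S, B l l' * (b l i * b l' i) =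
      if l = l' then B l l' else 0 := by
    intro l' _
    rw [← Finset.mul_sum, Sb_orth S b hb hS l l']
    split_ifs <;> simp
  rw [Finset.sum_congr rfl h2, Finset.sum_ite_eq, if_pos (Finset.mem_univ _)]
  rfl

/-- the small ball estimate. PROOF. `v i = fun l => b l i` (`i : Fin m`); `v i = 0` off `S`;
`v i ⬝ v i = ∑_l (b l i)² ≤ 1` (Bessel: `b l i = ⟪b l, e_i⟫`, `Orthonormal.sum_inner_products_le`,
`EuclideanSpace.single`). `∑_{i ∈ S} (b l i)(b l' i) = ⟪b l, b l'⟫ = δ_{l l'}`; so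
`∑_{i ∈ S} Q B' (v i) = trace B'` for every `B'`. Apply `sb_iter` with
`B = 1` (trace `u`) at `x = 0`: `X ≥ trace B' ≥ u - X/2`, so `X ≥ 2u/3`, and
`∑_A exp(-N_A/4) ≤ 2^|S| exp(-u/6)` where
`N_A = ∑_l (∑_{i ∈ S} sg A i * b l i)²`. Each `A` in the filter contributes
`exp(-N_A/4) ≥ exp(-β/4)`. -/
theorem small_ball {m u : ℕ} (S : Finset (Fin m)) (b : Fin u → EuclideanSpace ℝ (Fin m))
    (hb : Orthonormal ℝ b) (hS : ∀ l i, i ∉ S → b l i = 0) (β : ℝ) :
    ((S.powerset.filter fun A => ∑ l, (∑ i ∈ S, sg A i * b l i) ^ 2 ≤ β).card : ℝ) ≤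
      2 ^ S.card * Real.exp (β / 4 - (u : ℝ) / 6) := by
  obtain ⟨B', X, -, t2, -, t4, t5, t6⟩ := sb_iter (fun i l => b l i) (Sb_bessel b hb) S
    (1 : Matrix (Fin u) (Fin u) ℝ) Matrix.isSymm_one (fun x => by
      rw [Sb_one]
      unfold dotProduct
      exact Finset.sum_nonneg fun i _ => mul_self_nonneg _) (fun x => (Sb_one x).le)
  rw [Sb_trace S b hb hS] at t4
  rw [Matrix.trace_one, Fintype.card_fin] at t5
  have hX : 2 * (u : ℝ) / 3 ≤ X := by linarith
  have h1 := t6 0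
  have h2 : ∀ A, Q (1 : Matrix (Fin u) (Fin u) ℝ) (0 + ∑ i ∈ S, sg A i • (fun l => b l i)) =
      ∑ l, (∑ i ∈ S, sg A i * b l i) ^ 2 := by
    intro A
    rw [Sb_one, zero_add]
    unfold dotProduct
    apply Finset.sum_congr rfl
    intro l _
    rw [Finset.sum_apply, sq]
    rfl
  have h3 : ((S.powerset.filter fun A => ∑ l, (∑ i ∈ S, sg A i * b l i) ^ 2 ≤ β).card : ℝ) *
      Real.exp (-β / 4) ≤ 2 ^ S.card * Real.exp (-X / 4) := by
    calc _ = ∑ A ∈ S.powerset.filter fun A => ∑ l, (∑ i ∈ S, sg A i * b l i) ^ 2 ≤ β,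
          Real.exp (-β / 4) := by rw [Finset.sum_const, nsmul_eq_mul]
      _ ≤ ∑ A ∈ S.powerset.filter fun A => ∑ l, (∑ i ∈ S, sg A i * b l i) ^ 2 ≤ β,
          Real.exp (-(Q (1 : Matrix (Fin u) (Fin u) ℝ)
            (0 + ∑ i ∈ S, sg A i • (fun l => b l i))) / 4) := by
          apply Finset.sum_le_sum
          intro A hA
          rw [h2]
          have := (Finset.mem_filter.1 hA).2
          apply Real.exp_le_exp.2
          linarith
      _ ≤ ∑ A ∈ S.powerset, Real.exp (-(Q (1 : Matrix (Fin u) (Fin u) ℝ)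
            (0 + ∑ i ∈ S, sg A i • (fun l => b l i))) / 4) := by
          apply Finset.sum_le_sum_of_subset_of_nonneg (Finset.filter_subset _ _)
          intro A _ _
          exact (Real.exp_pos _).le
      _ ≤ 2 ^ S.card * Real.exp (-X / 4) * Real.exp (-(Q B' 0) / 4) := h1
      _ ≤ 2 ^ S.card * Real.exp (-X / 4) * 1 := by
          apply mul_le_mul_of_nonneg_left _ (by positivity)
          apply Real.exp_le_one_iff.2
          have := t2 0
          linarith
      _ = _ := mul_one _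
  have h4 : ((S.powerset.filter fun A => ∑ l, (∑ i ∈ S, sg A i * b l i) ^ 2 ≤ β).card : ℝ) =
      ((S.powerset.filter fun A => ∑ l, (∑ i ∈ S, sg A i * b l i) ^ 2 ≤ β).card : ℝ) *
      Real.exp (-β / 4) * Real.exp (β / 4) := by
    rw [mul_assoc, ← Real.exp_add]
    have : -β / 4 + β / 4 = 0 := by ring
    rw [this, Real.exp_zero, mul_one]
  rw [h4]
  calc _ ≤ 2 ^ S.card * Real.exp (-X / 4) * Real.exp (β / 4) :=
        mul_le_mul_of_nonneg_right h3 (Real.exp_pos _).le
    _ = 2 ^ S.card * Real.exp (-X / 4 + β / 4) := by rw [mul_assoc, ← Real.exp_add]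
    _ ≤ _ := by
        apply mul_le_mul_of_nonneg_left _ (by positivity)
        apply Real.exp_le_exp.2
        linarith

end Pool.Agent.H.MP_4bcbbd_co.X
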