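import Pool.Agent.H.MP_4bcbbd_co.X.Defs

/-!
MP_4bcbbd_co, exponential gap: one step of the small ball estimate.
-/

set_option autoImplicit false

namespace Pool.Agent.H.MP_4bcbbd_co.X

open scoped BigOperators

lemma Sb1_symm {u : ℕ} {B : Matrix (Fin u) (Fin u) ℝ} (hB : B.IsSymm) (x y : Fin u → ℝ) :
    dotProduct x (B.mulVec y) = dotProduct (B.mulVec x) y := by
  rw [Matrix.dotProduct_mulVec, ← Matrix.mulVec_transpose, hB.eq]

lemma Sb1_add {u : ℕ} {B : Matrix (Fin u) (Fin u) ℝ} (hB : B.IsSymm) (x v : Fin u → ℝ) (t : ℝ) :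
    Q B (x + t • v) = Q B x + 2 * t * dotProduct (B.mulVec v) x + t ^ 2 * Q B v := by
  unfold Q
  rw [Matrix.mulVec_add, Matrix.mulVec_smul, dotProduct_add, add_dotProduct, add_dotProduct,
    dotProduct_smul, dotProduct_smul, smul_dotProduct, smul_dotProduct, smul_eq_mul, smul_eq_mul,
    smul_eq_mul, smul_eq_mul, Sb1_symm hB v x, dotProduct_comm x (B.mulVec v)]
  ring

lemma Sb1_cs {u : ℕ} {B : Matrix (Fin u) (Fin u) ℝ} (hB : B.IsSymm) (h0 : ∀ x, 0 ≤ Q B x)
    (x v : Fin u → ℝ) : (dotProduct (B.mulVec v) x) ^ 2 ≤ Q B v * Q B x := by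
  have h := discrim_le_zero (a := Q B v) (b := 2 * dotProduct (B.mulVec v) x) (c := Q B x)
    (fun t => by
      have h1 := h0 (x + t • v)
      rw [Sb1_add hB] at h1
      linarith)
  unfold discrim at h
  nlinarith

lemma Sb1_Q' {u : ℕ} (B : Matrix (Fin u) (Fin u) ℝ) (w x : Fin u → ℝ) :
    Q (B - (1 / 2 : ℝ) • Matrix.vecMulVec w w) x = Q B x - (dotProduct w x) ^ 2 / 2 := by
  unfold Q
  have h1 : (Matrix.vecMulVec w w).mulVec x = (dotProduct w x) • w := by
    ext i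
    rw [Matrix.mulVec, Pi.smul_apply, smul_eq_mul]
    unfold dotProduct
    rw [Finset.sum_mul]
    apply Finset.sum_congr rfl
    intro j _
    show Matrix.vecMulVec w w i j * x j = w j * x j * w i
    rw [Matrix.vecMulVec_apply]
    ring
  rw [Matrix.sub_mulVec, Matrix.smul_mulVec, h1, dotProduct_sub, dotProduct_smul, dotProduct_smul,
    smul_eq_mul, smul_eq_mul, dotProduct_comm x w]
  ring

/-- one step. PROOF. `B' = B - (1/2) • vecMulVec (B v) (B v)`. `Q B (x + ε v) = Q B x + 2 ε ⟨B v, x⟩ + Q B v` (`B` symmetric), so with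
`c = ⟨B v, x⟩` the left-hand side is
`2 exp(-(Q B x)/4 - (Q B v)/4) cosh (c / 2) ≤ 2 exp(-(Q B x)/4 - (Q B v)/4 + c²/8)`
(`Real.cosh_le_exp_half_sq`), and `Q B' x = Q B x - c²/2`. Bounds for `B'`: Cauchy-Schwarz for the
nonnegative form `B` (discriminant: `0 ≤ Q B (x + t • v)` for all `t`; `discrim_le_zero`, or choose `t`): `c² ≤ Q B v * Q B x ≤ Q B x` as
`Q B v ≤ v ⬝ v ≤ 1`, so `0 ≤ Q B' x ≤ Q B x`. Trace: `tr B' = tr B - |B v|²/2`
(`Matrix.trace_vecMulVec`), and `|B v|² ≤ Q B v`: Cauchy-Schwarz with `x = B v`: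
`(|B v|²)² ≤ Q B v * Q B (B v) ≤ Q B v * |B v|²`. -/
theorem sb_step {u : ℕ} (B : Matrix (Fin u) (Fin u) ℝ) (hB : B.IsSymm) (h0 : ∀ x, 0 ≤ Q B x)
    (h1 : ∀ x, Q B x ≤ dotProduct x x) (v : Fin u → ℝ) (hv : dotProduct v v ≤ 1) :
    ∃ B' : Matrix (Fin u) (Fin u) ℝ, B'.IsSymm ∧ (∀ x, 0 ≤ Q B' x) ∧ (∀ x, Q B' x ≤ Q B x) ∧
      B.trace - Q B v / 2 ≤ B'.trace ∧
      ∀ x, Real.exp (-(Q B (x + v)) / 4) + Real.exp (-(Q B (x - v)) / 4) ≤
        2 * Real.exp (-(Q B v) / 4) * Real.exp (-(Q B' x) / 4) := by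
  refine ⟨B - (1 / 2 : ℝ) • Matrix.vecMulVec (B.mulVec v) (B.mulVec v), ?_, ?_, ?_, ?_, ?_⟩
  · unfold Matrix.IsSymm
    rw [Matrix.transpose_sub, Matrix.transpose_smul, hB.eq]
    congr 2
    ext i j
    rw [Matrix.transpose_apply, Matrix.vecMulVec_apply, Matrix.vecMulVec_apply, mul_comm]
  · intro x
    rw [Sb1_Q']
    have h2 := Sb1_cs hB h0 x v
    have h3 : Q B v * Q B x ≤ 1 * Q B x := mul_le_mul_of_nonneg_right ((h1 v).trans hv) (h0 x)
    have h4 := h0 x
    linarith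
  · intro x
    rw [Sb1_Q']
    have := sq_nonneg (dotProduct (B.mulVec v) x)
    linarith
  · rw [Matrix.trace_sub, Matrix.trace_smul, Matrix.trace_vecMulVec, smul_eq_mul]
    have h2 := Sb1_cs hB h0 (B.mulVec v) v
    have h3 := h1 (B.mulVec v)
    set w := dotProduct (B.mulVec v) (B.mulVec v) with hw
    have h4 : 0 ≤ w := by
      rw [hw]
      unfold dotProduct
      exact Finset.sum_nonneg fun i _ => mul_self_nonneg _
    have h5 : w ≤ Q B v := by
      rcases h4.eq_or_lt with h6 | h6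
      · rw [← h6]
        exact h0 v
      · have h7 : w * w ≤ Q B v * w := by
          have h8 : Q B v * Q B (B.mulVec v) ≤ Q B v * w := mul_le_mul_of_nonneg_left h3 (h0 v)
          nlinarith
        exact le_of_mul_le_mul_right h7 h6
    linarith
  · intro x
    rw [Sb1_Q']
    set c := dotProduct (B.mulVec v) x with hc
    have e1 : Q B (x + v) = Q B x + 2 * c + Q B v := by
      have := Sb1_add hB x v 1
      rw [one_smul] at this
      rw [this]
      ring
    have e2 : Q B (x - v) = Q B x - 2 * c + Q B v := by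
      have := Sb1_add hB x v (-1)
      rw [neg_one_smul, ← sub_eq_add_neg] at this
      rw [this]
      ring
    have e3 : Real.exp (-(Q B (x + v)) / 4) + Real.exp (-(Q B (x - v)) / 4) =
        2 * Real.exp (-(Q B v) / 4) * (Real.exp (-(Q B x) / 4) * Real.cosh (c / 2)) := by
      rw [Real.cosh_eq, e1, e2]
      have e4 : -(Q B x + 2 * c + Q B v) / 4 = -(Q B v) / 4 + (-(Q B x) / 4 + -(c / 2)) := by ring
      have e5 : -(Q B x - 2 * c + Q B v) / 4 = -(Q B v) / 4 + (-(Q B x) / 4 + c / 2) := by ring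
      rw [e4, e5, Real.exp_add, Real.exp_add, Real.exp_add, Real.exp_add]
      ring
    rw [e3]
    have e6 : Real.exp (-(Q B x) / 4) * Real.cosh (c / 2) ≤
        Real.exp (-(Q B x - c ^ 2 / 2) / 4) := by
      have e7 := Real.cosh_le_exp_half_sq (c / 2)
      have e8 : -(Q B x - c ^ 2 / 2) / 4 = -(Q B x) / 4 + (c / 2) ^ 2 / 2 := by ring
      rw [e8, Real.exp_add]
      exact mul_le_mul_of_nonneg_left e7 (Real.exp_pos _).le
    exact mul_le_mul_of_nonneg_left e6 (by positivity)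

end Pool.Agent.H.MP_4bcbbd_co.X
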