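import Pool.Agent.H.MP_4bcbbd_co.X.Sb1

/-!
MP_4bcbbd_co, exponential gap: iteration of the small ball estimate.
-/

set_option autoImplicit false

namespace Pool.Agent.H.MP_4bcbbd_co.X

open scoped BigOperators

/-- iteration. PROOF: induction on `S` (generalizing `B`). `S = ∅`: `B' = B`, `X = 0`. `insert a S`, `a ∉ S`: `B₁` from `sb_step`
with `v a`, then `B'`, `X'` from the induction hypothesis for `B₁` and `S`; `X = Q B (v a) + X'`. `(insert a S).powerset` is the disjoint union of `A` and `insert a A`,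
`A ∈ S.powerset` (`Finset.sum_powerset_insert`), and `∑_{i ∈ insert a S} sg A' i • v i` equals
`± v a + ∑_{i ∈ S} sg A i • v i` (`+` for `A' = insert a A`, `-` for `A' = A`; `sg` on `S` is not
changed). For each `A` the two terms are bounded by `sb_step` at the point
`x + ∑_{i ∈ S} sg A i • v i`. `Q B' (v a) ≤ Q B₁ (v a) ≤ Q B (v a)`. -/
theorem sb_iter {ι : Type} [DecidableEq ι] {u : ℕ} (v : ι → Fin u → ℝ)
    (hv : ∀ i, dotProduct (v i) (v i) ≤ 1) (S : Finset ι) (B : Matrix (Fin u) (Fin u) ℝ)
    (hB : B.IsSymm) (h0 : ∀ x, 0 ≤ Q B x) (h1 : ∀ x, Q B x ≤ dotProduct x x) :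
    ∃ (B' : Matrix (Fin u) (Fin u) ℝ) (X : ℝ), B'.IsSymm ∧ (∀ x, 0 ≤ Q B' x) ∧
      (∀ x, Q B' x ≤ Q B x) ∧ ∑ i ∈ S, Q B' (v i) ≤ X ∧ B.trace - X / 2 ≤ B'.trace ∧
      ∀ x, ∑ A ∈ S.powerset, Real.exp (-(Q B (x + ∑ i ∈ S, sg A i • v i)) / 4) ≤
        2 ^ S.card * Real.exp (-X / 4) * Real.exp (-(Q B' x) / 4) := by
  induction S using Finset.induction_on generalizing B with
  | empty =>
    refine ⟨B, 0, hB, h0, fun x => le_rfl, by simp, by simp, ?_⟩
    intro x
    simp
  | insert a S ha ih =>
    obtain ⟨B₁, s1, s2, s3, s4, s5⟩ := sb_step B hB h0 h1 (v a) (hv a)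
    obtain ⟨B', X', t1, t2, t3, t4, t5, t6⟩ := ih B₁ s1 s2 (fun x => (s3 x).trans (h1 x))
    refine ⟨B', Q B (v a) + X', t1, t2, fun x => (t3 x).trans (s3 x), ?_, ?_, ?_⟩
    · rw [Finset.sum_insert ha]
      have := (t3 (v a)).trans (s3 (v a))
      linarith
    · linarith
    · intro x
      rw [Finset.sum_powerset_insert ha, ← Finset.sum_add_distrib]
      have key : ∀ A ∈ S.powerset,
          Real.exp (-(Q B (x + ∑ i ∈ insert a S, sg A i • v i)) / 4) +
            Real.exp (-(Q B (x + ∑ i ∈ insert a S, sg (insert a A) i • v i)) / 4) ≤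
          2 * Real.exp (-(Q B (v a)) / 4) *
            Real.exp (-(Q B₁ (x + ∑ i ∈ S, sg A i • v i)) / 4) := by
        intro A hA
        have haA : a ∉ A := fun h => ha (Finset.mem_powerset.1 hA h)
        have e1 : x + ∑ i ∈ insert a S, sg A i • v i = (x + ∑ i ∈ S, sg A i • v i) - v a := by
          rw [Finset.sum_insert ha, sg_not haA, neg_one_smul]
          abel
        have e2 : x + ∑ i ∈ insert a S, sg (insert a A) i • v i =
            (x + ∑ i ∈ S, sg A i • v i) + v a := by
          rw [Finset.sum_insert ha, sg_mem (Finset.mem_insert_self a A), one_smul]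
          have e3 : ∑ i ∈ S, sg (insert a A) i • v i = ∑ i ∈ S, sg A i • v i := by
            apply Finset.sum_congr rfl
            intro i hi
            have hia : i ≠ a := fun h => ha (h ▸ hi)
            have : sg (insert a A) i = sg A i := by
              unfold sg
              simp [hia]
            rw [this]
          rw [e3]
          abel
        rw [e1, e2, add_comm (Real.exp _)]
        exact s5 _
      refine (Finset.sum_le_sum key).trans ?_
      rw [← Finset.mul_sum]
      refine (mul_le_mul_of_nonneg_left (t6 x) (by positivity)).trans (le_of_eq ?_)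
      rw [Finset.card_insert_of_notMem ha]
      have e4 : -(Q B (v a) + X') / 4 = -(Q B (v a)) / 4 + -X' / 4 := by ring
      rw [e4, Real.exp_add, pow_succ]
      ring

end Pool.Agent.H.MP_4bcbbd_co.X
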