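import Pool.Agent.H.MP_4bcbbd_co.DSa
import Pool.Agent.H.MP_4bcbbd_co.X.Defs

/-!
MP_4bcbbd_co, exponential gap: the symmetry of the numbers of facets with given number of positive coordinates.
-/

set_option autoImplicit false

namespace Pool.Agent.H.MP_4bcbbd_co.X

open scoped BigOperators

/-- the number of facets with `i` positive coordinates. -/
noncomputable def gnum {d : ℕ} (V : Finset (E d)) (z : E d) (i : ℕ) : ℕ :=
  ((fc V d).filter fun F => pos z F = i).card

/-- the opposite of a set of points. -/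
noncomputable def top1Neg {d : ℕ} (F : Finset (E d)) : Finset (E d) := by
  classical
  exact F.image fun v => -v

theorem top1_mem_neg {d : ℕ} {F : Finset (E d)} {v : E d} : v ∈ top1Neg F ↔ -v ∈ F := by
  classical
  unfold top1Neg
  rw [Finset.mem_image]
  constructor
  · rintro ⟨w, hw, rfl⟩
    rwa [neg_neg]
  · intro h
    exact ⟨-v, h, neg_neg v⟩

theorem top1_neg_neg {d : ℕ} (F : Finset (E d)) : top1Neg (top1Neg F) = F := by
  ext v
  rw [top1_mem_neg, top1_mem_neg, neg_neg]

theorem top1_neg_inj {d : ℕ} {F G : Finset (E d)} (h : top1Neg F = top1Neg G) : F = G := by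
  rw [← top1_neg_neg F, h, top1_neg_neg]

theorem top1_neg_fc {d : ℕ} {V : Finset (E d)} (hV : CSData V) {F : Finset (E d)} {j : ℕ}
    (hF : F ∈ fc V j) : top1Neg F ∈ fc V j := by
  classical
  obtain ⟨hFV, hcard, l, h1, h2⟩ := mem_fc.1 hF
  refine mem_fc.2 ⟨fun v hv => ?_, ?_, -l, fun w hw => ?_, fun v hv hv' => ?_⟩
  · have h3 := hV.neg _ (hFV (top1_mem_neg.1 hv))
    rwa [neg_neg] at h3
  · unfold top1Neg
    rw [Finset.card_image_of_injective _ neg_injective, hcard]
  · have h3 := h1 _ (top1_mem_neg.1 hw)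
    rw [map_neg] at h3
    exact h3
  · have h3 := h2 _ (hV.neg v hv) fun h => hv' (top1_mem_neg.2 h)
    rw [map_neg] at h3
    exact h3

theorem top1_sum {d : ℕ} (F : Finset (E d)) (c : E d → ℝ) :
    ∑ w ∈ top1Neg F, c w • w = -∑ w ∈ F, c (-w) • w := by
  classical
  unfold top1Neg
  rw [Finset.sum_image fun a _ b _ h => neg_injective h, ← Finset.sum_neg_distrib]
  refine Finset.sum_congr rfl fun w _ => ?_
  rw [smul_neg]

theorem top1_pos {d : ℕ} (z : E d) (F : Finset (E d)) : pos z (top1Neg F) = pos (-z) F := by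
  classical
  unfold pos
  rw [← Finset.card_image_of_injective (F.filter fun v =>
    ∃ c : E d → ℝ, ∑ w ∈ F, c w • w = -z ∧ 0 < c v) (f := fun v : E d => -v) neg_injective]
  congr 1
  ext v
  rw [Finset.mem_filter, Finset.mem_image, top1_mem_neg]
  constructor
  · rintro ⟨h1, c, h2, h3⟩
    refine ⟨-v, Finset.mem_filter.2 ⟨h1, fun w => c (-w), ?_, ?_⟩, neg_neg v⟩
    · rw [top1_sum] at h2
      rw [← h2, neg_neg]
    · show 0 < c (- -v)
      rwa [neg_neg]
  · rintro ⟨w, hw, rfl⟩
    obtain ⟨h1, c, h2, h3⟩ := Finset.mem_filter.1 hw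
    refine ⟨by rwa [neg_neg], fun w => c (-w), ?_, ?_⟩
    · rw [top1_sum]
      simp only [neg_neg]
      rw [h2, neg_neg]
    · show 0 < c (- -w)
      rwa [neg_neg]

theorem top1_le {d : ℕ} {V : Finset (E d)} (hV : CSData V) (hS : Simp V) {z : E d}
    (hz : Generic V z) (i : ℕ) : gnum V z i ≤ gnum V z (d - i) := by
  unfold gnum
  refine Finset.card_le_card_of_injOn top1Neg ?_ ?_
  · intro F hF
    obtain ⟨h1, h2⟩ := Finset.mem_filter.1 hF
    refine Finset.mem_coe.2 (Finset.mem_filter.2 ⟨top1_neg_fc hV h1, ?_⟩)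
    have h3 := pos_neg hV hS hz h1
    rw [top1_pos]
    omega
  · intro F _ G _ h
    exact top1_neg_inj h

/-- PROOF: `F ↦ F.image (-·)` (`Finset.map`/`image` by negation) is an involution of `fc V d` (`Spt` via `-l`, `hV.neg`), and
`pos z (-F) = pos (-z) F = d - pos z F`: first equality: `∑_{w ∈ -F} c w • w = z` iff
`∑_{w ∈ F} c (-w) • w = -z`, so `v ∈ F` is counted in `pos (-z) F` iff `-v` is counted in
`pos z (-F)`; second: `pos_neg`. -/
theorem gnum_symm {d : ℕ} {V : Finset (E d)} (hV : CSData V) (hS : Simp V) {z : E d}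
    (hz : Generic V z) {i : ℕ} (hi : i ≤ d) : gnum V z i = gnum V z (d - i) := by
  have h1 := top1_le hV hS hz i
  have h2 := top1_le hV hS hz (d - i)
  have h3 : d - (d - i) = i := by omega
  rw [h3] at h2
  exact le_antisymm h1 h2

/-- PROOF: `pos_sum` with `j = d - i`: `(fc V (d - i)).card = ∑_F C(pos z F, i)` (`d - (d - i) = i`), the `F` with
`pos z F = i` contribute `1` each. -/
theorem gnum_le {d : ℕ} {V : Finset (E d)} (hV : CSData V) (hS : Simp V) {z : E d}
    (hz : Generic V z) {i : ℕ} (hi : i ≤ d) : gnum V z i ≤ (fc V (d - i)).card := by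
  have h1 := pos_sum hV hS hz (d - i) (Nat.sub_le d i)
  have h3 : d - (d - i) = i := by omega
  rw [h3] at h1
  rw [h1]
  unfold gnum
  rw [Finset.card_eq_sum_ones]
  refine le_trans (Finset.sum_le_sum (g := fun F => (pos z F).choose i) fun F hF => ?_)
    (Finset.sum_le_sum_of_subset (Finset.filter_subset _ _))
  have h2 := (Finset.mem_filter.1 hF).2
  show 1 ≤ (pos z F).choose i
  rw [h2, Nat.choose_self]

end Pool.Agent.H.MP_4bcbbd_co.X
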